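import Pool.Agent.J6H77.Nut.Cert

/-! Base cores. -/

set_option autoImplicit false

namespace Pool.Agent.J6H77.Nut

theorem c3_3 : HasCore 6 8 3 0 0 :=
  Chk.has
    (S := [
    [-1, -1, 0, 0, 0, 0, 1, 0],
    [-1, -1, 1, -1, 0, 0, 0, 1],
    [0, 1, -1, 1, 0, 0, 0, 0],
    [0, -1, 1, -1, -1, 1, 0, 0],
    [0, 0, 0, -1, -1, 0, 1, 0],
    [0, 0, 0, 1, 0, -1, 0, 0],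
    [1, 0, 0, 0, 1, 0, -1, 0],
    [0, 1, 0, 0, 0, 0, 0, -1]])
    (C := [
    [0, 0, 0, 0, 0, 0, 0, 0],
    [0, 0, 0, 0, 0, 0, 0, 0],
    [-1, 0, 0, 0, -1, 0, 0, 0],
    [0, 0, 0, 0, 0, 0, 0, 0],
    [0, 0, 0, 0, 0, 0, 0, 0],
    [0, 0, 0, 0, 1, 0, 0, 0],
    [0, 0, 0, 0, 0, 0, 0, 0],
    [1, 0, 0, 0, 0, 0, 0, 0]])
    (Ad := [
    [0, 0, 0, 0, 0, 0, 0, 0],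
    [0, 0, 0, 0, 0, 0, 0, 0],
    [0, 0, 0, 0, 0, 0, 0, 0],
    [0, 0, 0, 0, 0, 0, 0, 0],
    [0, 0, 0, 0, 0, 0, 0, 0],
    [0, 0, 0, 0, 0, 0, 0, 1],
    [0, 0, 0, 0, 0, 0, 0, 0],
    [0, 0, 0, 0, 0, 1, 0, 0]])
    (Re := [
    [0, 0, 0, 1, 0, 0, 0, 0],
    [0, 0, 0, 0, 1, 0, 0, 0],
    [0, 0, 0, 0, 0, 0, 0, 0],
    [1, 0, 0, 0, 0, 0, 0, 0],
    [0, 1, 0, 0, 0, 0, 0, 0],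
    [0, 0, 0, 0, 0, 0, 0, 0],
    [0, 0, 0, 0, 0, 0, 0, 0],
    [0, 0, 0, 0, 0, 0, 0, 0]])
    (H := [
    [1, 1, 1],
    [1, 1, 1],
    [0, 1, 0],
    [1, 1, 1],
    [1, 1, 1],
    [1, 0, 0],
    [1, 1, 1],
    [0, 0, 1]])
    (LV := [
    [0, 0, 0, 0, 0, 0, 0, 0, 0],
    [0, 0, 0, 0, 0, 0, 0, 0, 0],
    [1, 1, 1, 1, 0, 1, 1, 1, 1],
    [0, 0, 0, 0, 1, 0, 1, 0, 0],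
    [1, 0, 0, 0, 0, 0, 1, 0, 0],
    [0, 1, 1, 0, 1, 1, 1, 1, 0],
    [1, 0, 0, 0, 0, 0, 0, 0, 1],
    [1, 0, 1, 1, 1, 1, 0, 1, 0]])
    (LT := [
    [1, 1, 1, 0, 0, 0, 1, 1, 0],
    [0, 1, 0, 1, 1, 1, 1, 1, 1],
    [1, 0, 1, 1, 1, 1, 0, 0, 0]])
    (DV := [
    [1, 1, 1, 1, 0, 1, 1, 0],
    [1, 0, 0, 1, 0, 1, 1, 1],
    [1, 1, 1, 1, 1, 0, 0, 0],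
    [0, 1, 0, 0, 1, 1, 1, 1],
    [0, 1, 1, 1, 1, 0, 1, 1],
    [0, 1, 0, 0, 1, 0, 1, 1],
    [1, 0, 0, 0, 1, 1, 1, 1],
    [1, 0, 0, 1, 0, 1, 1, 0]])
    (DT := [
    [0, 0, 0],
    [0, 0, 0],
    [0, 0, 0],
    [0, 0, 0],
    [0, 0, 0],
    [0, 0, 0],
    [0, 0, 0],
    [0, 0, 0]])
    (a := [1, 1, 2, 1, 1, 1, 2, 1]) (z := [0, 1, 1, 0, 1, 1, 1, 0])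
    (b := [-1, 2, -1]) (y := [0, 1, 1])
    (e1 := 0) (f1 := 0) (e := 0) (g := 0) (f := 0) (f2 := 0) (q0 := 0) (r0 := 1)
    (by decide +kernel)

theorem c5_3 : HasCore 6 10 5 0 0 :=
  Chk.has
    (S := [
    [-1, 1, -1, 0, 0, 0, 0, 0, 0, 0],
    [1, -1, -1, 1, 0, 0, 0, 0, 0, 0],
    [-1, -1, 0, 0, 1, 0, 0, 0, 0, 0],
    [0, 1, 0, 0, -1, 1, 0, 0, 0, 0],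
    [0, 0, 1, -1, 0, 0, 1, 0, 0, 0],
    [0, 0, 0, 1, 0, -1, 0, -1, 0, 0],
    [0, 0, 0, 0, 1, 0, 0, -1, -1, 0],
    [0, 0, 0, 0, 0, -1, -1, -1, 0, 1],
    [0, 0, 0, 0, 0, 0, -1, 0, -1, 1],
    [0, 0, 0, 0, 0, 0, 0, 1, 1, -1]])
    (C := [
    [0, 0, 0, 0, 0, 0, 0, 0, -1, -1],
    [0, 0, 0, 0, 0, 0, 0, 0, 0, 1],
    [0, 0, 0, 0, 0, 0, 0, 0, 0, 0],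
    [0, 0, 0, 0, 0, 0, 0, 0, 0, 0],
    [0, 0, 0, 0, 0, 0, 0, 0, 0, 0],
    [0, 0, 0, 0, 0, 0, 0, 0, 0, 0],
    [0, 0, 0, 0, 0, 0, 0, 0, 0, 0],
    [0, 0, 0, 0, 0, 0, 0, 0, 1, 0],
    [0, 0, 0, 0, 0, 0, 0, 0, 0, 0],
    [0, 0, 0, 0, 0, 0, 0, 0, 0, 0]])
    (Ad := [
    [0, 0, 0, 0, 0, 0, 0, 0, 0, 0],
    [0, 0, 0, 0, 0, 0, 0, 0, 0, 0],
    [0, 0, 0, 0, 0, 0, 0, 0, 0, 0],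
    [0, 0, 0, 0, 0, 0, 0, 0, 0, 0],
    [0, 0, 0, 0, 0, 0, 0, 0, 0, 0],
    [0, 0, 0, 0, 0, 0, 1, 0, 0, 0],
    [0, 0, 0, 0, 0, 1, 0, 0, 0, 0],
    [0, 0, 0, 0, 0, 0, 0, 0, 0, 0],
    [0, 0, 0, 0, 0, 0, 0, 0, 0, 0],
    [0, 0, 0, 0, 0, 0, 0, 0, 0, 0]])
    (Re := [
    [0, 0, 0, 0, 0, 0, 0, 0, 0, 0],
    [0, 0, 0, 0, 0, 0, 0, 0, 0, 0],
    [0, 0, 0, 0, 0, 0, 0, 0, 0, 0],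
    [0, 0, 0, 0, 0, 0, 0, 0, 0, 0],
    [0, 0, 0, 0, 0, 0, 0, 0, 0, 0],
    [0, 0, 0, 0, 0, 0, 0, 0, 1, 0],
    [0, 0, 0, 0, 0, 0, 0, 0, 0, 1],
    [0, 0, 0, 0, 0, 0, 0, 0, 0, 0],
    [0, 0, 0, 0, 0, 1, 0, 0, 0, 0],
    [0, 0, 0, 0, 0, 0, 1, 0, 0, 0]])
    (H := [
    [0, 1, 0],
    [0, 0, 1],
    [1, 1, 1],
    [1, 1, 1],
    [1, 1, 1],
    [1, 1, 1],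
    [1, 1, 1],
    [1, 0, 0],
    [1, 1, 1],
    [1, 1, 1]])
    (LV := [
    [0, 0, 0, 0, 0, 0, 0, 0, 0, 0, 0],
    [0, 0, 0, 0, 0, 0, 0, 0, 0, 0, 0],
    [0, 0, 1, 1, 1, 1, 0, 0, 1, 1, 0],
    [1, 1, 0, 1, 0, 0, 1, 1, 1, 0, 0],
    [0, 0, 1, 0, 0, 0, 0, 0, 0, 0, 1],
    [0, 0, 1, 1, 0, 0, 0, 0, 0, 0, 0],
    [1, 1, 1, 0, 0, 1, 1, 1, 0, 1, 1],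
    [1, 1, 1, 0, 0, 1, 1, 1, 1, 0, 1],
    [1, 1, 0, 0, 0, 1, 0, 1, 1, 0, 1],
    [0, 0, 1, 0, 0, 0, 1, 0, 0, 1, 1]])
    (LT := [
    [1, 1, 0, 1, 0, 1, 1, 0, 0, 0, 0],
    [0, 1, 0, 1, 1, 0, 1, 1, 0, 0, 0],
    [1, 0, 0, 0, 1, 1, 0, 1, 0, 0, 1]])
    (DV := [
    [0, 1, 0, 0, 1, 0, 0, 0, 1, 1],
    [1, 1, 1, 0, 0, 1, 1, 1, 1, 0],
    [0, 0, 1, 0, 1, 1, 1, 1, 0, 1],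
    [1, 1, 0, 0, 0, 0, 0, 0, 0, 0],
    [1, 0, 0, 0, 1, 1, 1, 1, 0, 1],
    [0, 1, 1, 1, 1, 0, 0, 0, 1, 1],
    [1, 1, 1, 0, 0, 1, 1, 1, 0, 1],
    [1, 0, 1, 1, 1, 1, 0, 0, 1, 1],
    [0, 0, 1, 1, 0, 0, 0, 1, 1, 0],
    [0, 0, 1, 0, 0, 0, 1, 0, 0, 1]])
    (DT := [
    [0, 0, 0],
    [0, 0, 0],
    [0, 0, 0],
    [0, 0, 0],
    [0, 0, 0],
    [0, 0, 0],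
    [0, 0, 0],
    [0, 0, 0],
    [0, 0, 0],
    [0, 0, 0]])
    (a := [1, 2, 1, 2, 3, 1, 1, 1, 2, 3]) (z := [0, 1, 0, 1, 1, 0, 1, 1, 0, 1])
    (b := [-2, 5, -3]) (y := [1, 0, 1])
    (e1 := 0) (f1 := 0) (e := 0) (g := 0) (f := 0) (f2 := 0) (q0 := 0) (r0 := 1)
    (by decide +kernel)

theorem c7_3 : HasCore 6 12 7 0 0 :=
  Chk.has
    (S := [
    [-1, 0, 1, 0, 0, 0, 0, 0, 0, 0, 0, 0],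
    [0, -1, 1, 1, 0, 0, 0, 0, 0, 0, 0, 0],
    [1, 1, 0, 0, -1, 0, 0, 0, 0, 0, 0, 0],
    [0, 1, 0, -1, 0, -1, 0, 0, 0, 0, 0, 0],
    [0, 0, -1, 0, -1, 0, 1, 0, 0, 0, 0, 0],
    [0, 0, 0, -1, 0, 0, 1, -1, 0, 0, 0, 0],
    [0, 0, 0, 0, 1, 1, 0, 0, -1, 0, 0, 0],
    [0, 0, 0, 0, 0, -1, 0, -1, 1, 0, 0, 0],
    [0, 0, 0, 0, 0, 0, -1, 1, -1, 1, 1, 0],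
    [0, 0, 0, 0, 0, 0, 0, 0, 1, 0, -1, -1],
    [0, 0, 0, 0, 0, 0, 0, 0, 1, -1, -1, 1],
    [0, 0, 0, 0, 0, 0, 0, 0, 0, -1, 1, -1]])
    (C := [
    [0, 0, 0, 0, 0, 0, 0, 0, 0, 0, 0, 1],
    [-1, 0, 0, 0, 0, 0, 0, 0, 0, 0, 0, -1],
    [0, 0, 0, 0, 0, 0, 0, 0, 0, 0, 0, 0],
    [0, 0, 0, 0, 0, 0, 0, 0, 0, 0, 0, 0],
    [0, 0, 0, 0, 0, 0, 0, 0, 0, 0, 0, 0],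
    [0, 0, 0, 0, 0, 0, 0, 0, 0, 0, 0, 0],
    [0, 0, 0, 0, 0, 0, 0, 0, 0, 0, 0, 0],
    [0, 0, 0, 0, 0, 0, 0, 0, 0, 0, 0, 0],
    [0, 0, 0, 0, 0, 0, 0, 0, 0, 0, 0, 0],
    [0, 0, 0, 0, 0, 0, 0, 0, 0, 0, 0, 0],
    [1, 0, 0, 0, 0, 0, 0, 0, 0, 0, 0, 0],
    [0, 0, 0, 0, 0, 0, 0, 0, 0, 0, 0, 0]])
    (Ad := [
    [0, 0, 0, 0, 0, 0, 0, 0, 0, 0, 0, 0],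
    [0, 0, 0, 0, 0, 0, 0, 0, 0, 0, 0, 0],
    [0, 0, 0, 0, 0, 0, 0, 0, 0, 0, 0, 0],
    [0, 0, 0, 0, 0, 0, 0, 0, 0, 0, 0, 0],
    [0, 0, 0, 0, 0, 0, 0, 0, 0, 0, 0, 0],
    [0, 0, 0, 0, 0, 0, 0, 0, 0, 0, 0, 0],
    [0, 0, 0, 0, 0, 0, 0, 0, 0, 0, 0, 0],
    [0, 0, 0, 0, 0, 0, 0, 0, 0, 0, 0, 0],
    [0, 0, 0, 0, 0, 0, 0, 0, 0, 0, 0, 0],
    [0, 0, 0, 0, 0, 0, 0, 0, 0, 0, 0, 0],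
    [0, 0, 0, 0, 0, 0, 0, 0, 0, 0, 0, 0],
    [0, 0, 0, 0, 0, 0, 0, 0, 0, 0, 0, 0]])
    (Re := [
    [0, 0, 0, 0, 0, 0, 0, 0, 0, 0, 0, 0],
    [0, 0, 0, 0, 0, 0, 0, 0, 0, 0, 0, 0],
    [0, 0, 0, 0, 0, 0, 0, 0, 0, 0, 0, 0],
    [0, 0, 0, 0, 0, 0, 0, 0, 0, 0, 0, 0],
    [0, 0, 0, 0, 0, 0, 0, 0, 0, 0, 0, 0],
    [0, 0, 0, 0, 0, 0, 0, 0, 0, 0, 0, 0],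
    [0, 0, 0, 0, 0, 0, 0, 0, 0, 0, 0, 0],
    [0, 0, 0, 0, 0, 0, 0, 0, 0, 0, 0, 0],
    [0, 0, 0, 0, 0, 0, 0, 0, 0, 0, 0, 1],
    [0, 0, 0, 0, 0, 0, 0, 0, 0, 0, 0, 0],
    [0, 0, 0, 0, 0, 0, 0, 0, 0, 0, 0, 0],
    [0, 0, 0, 0, 0, 0, 0, 0, 1, 0, 0, 0]])
    (H := [
    [0, 0, 1],
    [0, 1, 0],
    [1, 1, 1],
    [1, 1, 1],
    [1, 1, 1],
    [1, 1, 1],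
    [1, 1, 1],
    [1, 1, 1],
    [1, 1, 1],
    [1, 1, 1],
    [1, 0, 0],
    [1, 1, 1]])
    (LV := [
    [0, 0, 0, 0, 0, 0, 0, 0, 0, 0, 0, 0, 0],
    [1, 1, 1, 1, 0, 0, 1, 0, 0, 0, 1, 1, 1],
    [0, 0, 0, 0, 0, 0, 0, 0, 0, 0, 0, 0, 0],
    [0, 0, 0, 0, 1, 1, 1, 1, 0, 0, 0, 0, 0],
    [1, 1, 0, 1, 0, 0, 1, 0, 0, 0, 1, 1, 0],
    [1, 1, 1, 0, 1, 1, 0, 1, 0, 0, 1, 1, 0],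
    [1, 1, 0, 1, 1, 0, 1, 0, 0, 0, 1, 1, 1],
    [1, 1, 0, 1, 0, 0, 0, 1, 0, 0, 1, 1, 0],
    [0, 0, 1, 1, 1, 1, 0, 1, 0, 0, 0, 0, 1],
    [0, 0, 1, 1, 1, 1, 0, 1, 0, 1, 0, 1, 1],
    [0, 0, 0, 0, 1, 0, 1, 1, 1, 1, 0, 1, 0],
    [0, 0, 1, 1, 0, 1, 1, 0, 1, 0, 0, 1, 0]])
    (LT := [
    [0, 0, 1, 1, 1, 1, 0, 1, 0, 0, 1, 1, 0],
    [1, 0, 0, 0, 1, 0, 1, 1, 1, 0, 1, 0, 1],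
    [1, 0, 1, 1, 0, 1, 1, 0, 1, 0, 0, 1, 0]])
    (DV := [
    [0, 0, 1, 1, 1, 0, 1, 1, 0, 0, 1, 0],
    [0, 1, 0, 0, 1, 1, 1, 1, 0, 0, 0, 0],
    [1, 1, 1, 1, 1, 0, 0, 1, 1, 1, 1, 0],
    [1, 1, 1, 1, 0, 1, 1, 0, 1, 1, 1, 0],
    [0, 1, 0, 1, 0, 1, 0, 0, 0, 0, 1, 0],
    [1, 0, 1, 0, 1, 0, 0, 1, 1, 1, 1, 0],
    [1, 0, 1, 0, 0, 1, 0, 1, 1, 1, 0, 0],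
    [0, 1, 0, 1, 0, 1, 1, 1, 0, 0, 1, 0],
    [1, 1, 1, 1, 1, 1, 1, 1, 1, 1, 0, 0],
    [0, 0, 0, 0, 0, 0, 0, 0, 0, 1, 1, 0],
    [0, 0, 0, 0, 1, 1, 0, 1, 1, 1, 0, 0],
    [1, 1, 1, 1, 0, 0, 1, 0, 0, 1, 0, 0]])
    (DT := [
    [1, 0, 0],
    [0, 0, 0],
    [0, 0, 0],
    [0, 0, 0],
    [1, 0, 0],
    [0, 0, 0],
    [1, 0, 0],
    [1, 0, 0],
    [1, 0, 0],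
    [0, 0, 0],
    [1, 0, 0],
    [0, 0, 0]])
    (a := [1, 2, 1, 1, 3, 1, 4, 3, 4, 2, 3, 1]) (z := [0, 0, 1, 1, 0, 1, 1, 0, 1, 1, 1, 0])
    (b := [-1, 2, -1]) (y := [1, 0, 1])
    (e1 := 0) (f1 := 0) (e := 0) (g := 0) (f := 0) (f2 := 0) (q0 := 0) (r0 := 2)
    (by decide +kernel)

theorem c8_3 : HC1 6 13 8 :=
  ⟨8, 0, by decide, Chk.has
    (S := [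
    [-1, 1, -1, 0, 0, 0, 0, 0, 0, 0, 0, 0, 0],
    [1, -1, -1, 1, 0, 0, 0, 0, 0, 0, 0, 0, 0],
    [-1, -1, 0, 0, 1, 0, 0, 0, 0, 0, 0, 0, 0],
    [0, 1, 0, 0, -1, 1, 0, 0, 0, 0, 0, 0, 0],
    [0, 0, 1, -1, 0, 0, 1, 0, 0, 0, 0, 0, 0],
    [0, 0, 0, 1, 0, -1, -1, 0, 0, 0, 0, 0, 0],
    [0, 0, 0, 0, 1, -1, 0, -1, 0, 0, 0, 0, 0],
    [0, 0, 0, 0, 0, 0, -1, -1, 1, 0, 0, 0, 0],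
    [0, 0, 0, 0, 0, 0, 0, 1, -1, 0, 1, 0, 0],
    [0, 0, 0, 0, 0, 0, 0, 0, 0, -1, -1, 1, 0],
    [0, 0, 0, 0, 0, 0, 0, 0, 1, -1, -1, 0, -1],
    [0, 0, 0, 0, 0, 0, 0, 0, 0, 1, 0, -1, 1],
    [0, 0, 0, 0, 0, 0, 0, 0, 0, 0, -1, 1, -1]])
    (C := [
    [0, 0, 0, 0, 0, 0, 0, 0, 0, 0, 0, -1, -1],
    [0, 0, 0, 0, 0, 0, 0, 0, 0, 0, 0, 0, 1],
    [0, 0, 0, 0, 0, 0, 0, 0, 0, 0, 0, 0, 0],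
    [0, 0, 0, 0, 0, 0, 0, 0, 0, 0, 0, 0, 0],
    [0, 0, 0, 0, 0, 0, 0, 0, 0, 0, 0, 0, 0],
    [0, 0, 0, 0, 0, 0, 0, 0, 0, 0, 0, 0, 0],
    [0, 0, 0, 0, 0, 0, 0, 0, 0, 0, 0, 0, 0],
    [0, 0, 0, 0, 0, 0, 0, 0, 0, 0, 0, 0, 0],
    [0, 0, 0, 0, 0, 0, 0, 0, 0, 0, 0, 0, 0],
    [0, 0, 0, 0, 0, 0, 0, 0, 0, 0, 0, 0, 0],
    [0, 0, 0, 0, 0, 0, 0, 0, 0, 0, 0, 1, 0],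
    [0, 0, 0, 0, 0, 0, 0, 0, 0, 0, 0, 0, 0],
    [0, 0, 0, 0, 0, 0, 0, 0, 0, 0, 0, 0, 0]])
    (Ad := [
    [0, 0, 0, 0, 0, 0, 0, 0, 0, 0, 0, 0, 0],
    [0, 0, 0, 0, 0, 0, 0, 0, 0, 0, 0, 0, 0],
    [0, 0, 0, 0, 0, 0, 0, 0, 0, 0, 0, 0, 0],
    [0, 0, 0, 0, 0, 0, 0, 0, 0, 0, 0, 0, 0],
    [0, 0, 0, 0, 0, 0, 0, 0, 0, 0, 0, 0, 0],
    [0, 0, 0, 0, 0, 0, 0, 0, 0, 0, 0, 0, 0],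
    [0, 0, 0, 0, 0, 0, 0, 0, 0, 0, 0, 0, 0],
    [0, 0, 0, 0, 0, 0, 0, 0, 0, 0, 0, 0, 0],
    [0, 0, 0, 0, 0, 0, 0, 0, 0, 1, 0, 0, 0],
    [0, 0, 0, 0, 0, 0, 0, 0, 1, 0, 0, 0, 0],
    [0, 0, 0, 0, 0, 0, 0, 0, 0, 0, 0, 0, 0],
    [0, 0, 0, 0, 0, 0, 0, 0, 0, 0, 0, 0, 0],
    [0, 0, 0, 0, 0, 0, 0, 0, 0, 0, 0, 0, 0]])
    (Re := [
    [0, 0, 0, 0, 0, 0, 0, 0, 0, 0, 0, 0, 0],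
    [0, 0, 0, 0, 0, 0, 0, 0, 0, 0, 0, 0, 0],
    [0, 0, 0, 0, 0, 0, 0, 0, 0, 0, 0, 0, 0],
    [0, 0, 0, 0, 0, 0, 0, 0, 0, 0, 0, 0, 0],
    [0, 0, 0, 0, 0, 0, 0, 0, 0, 0, 0, 0, 0],
    [0, 0, 0, 0, 0, 0, 0, 0, 0, 0, 0, 0, 0],
    [0, 0, 0, 0, 0, 0, 0, 0, 0, 0, 0, 0, 0],
    [0, 0, 0, 0, 0, 0, 0, 0, 0, 0, 0, 0, 0],
    [0, 0, 0, 0, 0, 0, 0, 0, 0, 0, 0, 1, 0],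
    [0, 0, 0, 0, 0, 0, 0, 0, 0, 0, 0, 0, 1],
    [0, 0, 0, 0, 0, 0, 0, 0, 0, 0, 0, 0, 0],
    [0, 0, 0, 0, 0, 0, 0, 0, 1, 0, 0, 0, 0],
    [0, 0, 0, 0, 0, 0, 0, 0, 0, 1, 0, 0, 0]])
    (H := [
    [0, 1, 0],
    [1, 0, 0],
    [1, 1, 1],
    [1, 1, 1],
    [1, 1, 1],
    [1, 1, 1],
    [1, 1, 1],
    [1, 1, 1],
    [1, 1, 1],
    [1, 1, 1],
    [0, 0, 1],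
    [1, 1, 1],
    [1, 1, 1]])
    (LV := [
    [0, 0, 0, 0, 0, 0, 0, 0, 0, 0, 0, 0, 0, 0],
    [0, 0, 0, 0, 0, 0, 0, 0, 0, 0, 0, 0, 0, 0],
    [0, 0, 1, 1, 1, 1, 0, 0, 0, 0, 0, 0, 0, 0],
    [1, 1, 0, 1, 0, 0, 1, 0, 1, 1, 1, 0, 1, 0],
    [0, 0, 1, 0, 0, 0, 0, 0, 0, 0, 0, 0, 0, 1],
    [0, 0, 1, 1, 0, 0, 0, 0, 0, 0, 0, 0, 0, 0],
    [1, 1, 1, 0, 0, 1, 1, 0, 1, 1, 1, 0, 1, 1],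
    [0, 0, 0, 1, 0, 0, 1, 0, 0, 0, 0, 0, 0, 0],
    [1, 1, 1, 1, 0, 1, 0, 1, 1, 1, 1, 0, 1, 0],
    [1, 1, 1, 0, 0, 1, 1, 1, 0, 1, 1, 1, 0, 1],
    [1, 1, 1, 0, 0, 1, 1, 1, 0, 1, 1, 0, 1, 1],
    [0, 0, 0, 0, 0, 0, 0, 0, 0, 1, 0, 1, 1, 1],
    [1, 1, 1, 0, 0, 1, 1, 1, 0, 0, 1, 1, 1, 1]])
    (LT := [
    [0, 1, 0, 0, 1, 0, 0, 1, 1, 1, 0, 1, 0, 1],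
    [0, 1, 0, 1, 1, 0, 1, 1, 0, 1, 1, 0, 0, 0],
    [0, 0, 0, 1, 0, 0, 1, 0, 1, 0, 1, 1, 0, 0]])
    (DV := [
    [0, 0, 0, 1, 0, 0, 1, 0, 1, 1, 1, 0, 1],
    [1, 0, 1, 1, 1, 1, 0, 0, 0, 0, 0, 0, 0],
    [0, 0, 1, 0, 1, 1, 1, 0, 1, 1, 1, 0, 1],
    [1, 1, 0, 0, 0, 0, 0, 0, 0, 0, 0, 0, 0],
    [1, 0, 0, 0, 1, 1, 1, 0, 1, 1, 1, 0, 1],
    [0, 0, 1, 0, 0, 0, 1, 0, 1, 1, 1, 0, 1],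
    [1, 1, 1, 0, 0, 1, 1, 0, 1, 1, 1, 0, 1],
    [1, 0, 1, 0, 1, 1, 1, 0, 0, 0, 0, 0, 0],
    [0, 1, 0, 0, 1, 0, 0, 1, 1, 1, 1, 0, 1],
    [1, 0, 1, 1, 1, 1, 0, 0, 0, 0, 0, 1, 1],
    [1, 1, 1, 0, 0, 1, 1, 1, 0, 1, 1, 0, 1],
    [0, 1, 0, 1, 1, 0, 1, 1, 0, 0, 1, 1, 0],
    [0, 0, 0, 1, 0, 0, 1, 0, 1, 0, 1, 1, 1]])
    (DT := [
    [0, 0, 0],
    [0, 0, 0],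
    [0, 0, 0],
    [0, 0, 0],
    [0, 0, 0],
    [0, 0, 0],
    [0, 0, 0],
    [0, 0, 0],
    [0, 0, 0],
    [0, 0, 0],
    [0, 0, 0],
    [0, 0, 0],
    [0, 0, 0]])
    (a := [1, 2, 1, 2, 3, 1, 1, 2, 3, 1, 1, 2, 1]) (z := [0, 1, 0, 1, 1, 0, 1, 1, 0, 1, 1, 0, 1])
    (b := [-1, 3, -2]) (y := [1, 0, 1])
    (e1 := 7) (f1 := 8) (e := 0) (g := 0) (f := 0) (f2 := 0) (q0 := 0) (r0 := 1)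
    (by decide +kernel)⟩

theorem c9_3 : HC1 6 14 9 :=
  ⟨5, 0, by decide, Chk.has
    (S := [
    [-1, -1, 1, 0, 0, 0, 0, 0, 0, 0, 0, 0, 0, 0],
    [-1, -1, 0, 1, 0, 0, 0, 0, 0, 0, 0, 0, 0, 0],
    [1, 0, 0, 1, -1, 0, 0, 0, 0, 0, 0, 0, 0, 0],
    [0, 1, 1, 0, -1, 0, 0, 0, 0, 0, 0, 0, 0, 0],
    [0, 0, -1, -1, 0, 1, 0, 0, 0, 0, 0, 0, 0, 0],
    [0, 0, 0, 0, 1, -1, 0, 1, 0, 0, 0, 0, 0, 0],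
    [0, 0, 0, 0, 0, 0, -1, -1, 1, 0, 0, 0, 0, 0],
    [0, 0, 0, 0, 0, 1, -1, -1, 0, 0, 0, 0, 0, 0],
    [0, 0, 0, 0, 0, 0, 1, 0, -1, 1, 0, 0, 0, 0],
    [0, 0, 0, 0, 0, 0, 0, 0, 1, -1, -1, 0, 0, 0],
    [0, 0, 0, 0, 0, 0, 0, 0, 0, -1, 0, 0, 1, 0],
    [0, 0, 0, 0, 0, 0, 0, 0, 0, 0, 0, 0, -1, 1],
    [0, 0, 0, 0, 0, 0, 0, 0, 0, 0, 1, -1, 0, -1],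
    [0, 0, 0, 0, 0, 0, 0, 0, 0, 0, 0, 1, -1, -1]])
    (C := [
    [0, 0, 0, 0, 0, 0, 0, 0, 0, 0, 0, 0, 0, 0],
    [0, 0, 0, 0, 0, 0, 0, 0, 0, 0, 0, 0, 0, 0],
    [0, 0, 0, 0, 0, 0, 0, 0, 0, 0, 0, 0, 0, 0],
    [0, 0, 0, 0, 0, 0, 0, 0, 0, 0, 0, 0, 0, 0],
    [0, 0, 0, 0, 0, 0, 0, 0, 0, 0, 0, 0, 0, 0],
    [0, 0, 0, 0, 0, 0, 0, 0, 0, 0, 0, 0, 0, 0],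
    [0, 0, 0, 0, 0, 0, 0, 0, 0, 0, 0, 0, 0, 0],
    [0, 0, 0, 0, 0, 0, 0, 0, -1, 1, 0, 0, 0, 0],
    [0, 0, 0, 0, 0, 0, 0, 0, 0, 0, 0, 0, 0, 0],
    [0, 0, 0, 0, 0, 0, 0, 0, 0, 0, 0, 0, 0, 0],
    [0, 0, 0, 0, 0, 0, 0, 0, 1, 0, 0, 0, 0, 0],
    [0, 0, 0, 0, 0, 0, 0, 0, 0, -1, 0, 0, 0, 0],
    [0, 0, 0, 0, 0, 0, 0, 0, 0, 0, 0, 0, 0, 0],
    [0, 0, 0, 0, 0, 0, 0, 0, 0, 0, 0, 0, 0, 0]])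
    (Ad := [
    [0, 0, 0, 0, 0, 0, 0, 0, 0, 0, 0, 0, 0, 0],
    [0, 0, 0, 0, 0, 0, 0, 0, 0, 0, 0, 0, 0, 0],
    [0, 0, 0, 0, 0, 0, 0, 0, 0, 0, 0, 0, 0, 0],
    [0, 0, 0, 0, 0, 0, 0, 0, 0, 0, 0, 0, 0, 0],
    [0, 0, 0, 0, 0, 0, 0, 0, 0, 0, 0, 0, 0, 0],
    [0, 0, 0, 0, 0, 0, 1, 0, 0, 0, 0, 0, 0, 0],
    [0, 0, 0, 0, 0, 1, 0, 0, 0, 0, 0, 0, 0, 0],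
    [0, 0, 0, 0, 0, 0, 0, 0, 0, 0, 0, 0, 0, 0],
    [0, 0, 0, 0, 0, 0, 0, 0, 0, 0, 0, 0, 0, 0],
    [0, 0, 0, 0, 0, 0, 0, 0, 0, 0, 0, 0, 0, 0],
    [0, 0, 0, 0, 0, 0, 0, 0, 0, 0, 0, 1, 0, 0],
    [0, 0, 0, 0, 0, 0, 0, 0, 0, 0, 1, 0, 0, 0],
    [0, 0, 0, 0, 0, 0, 0, 0, 0, 0, 0, 0, 0, 0],
    [0, 0, 0, 0, 0, 0, 0, 0, 0, 0, 0, 0, 0, 0]])
    (Re := [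
    [0, 0, 0, 0, 0, 0, 0, 0, 0, 0, 0, 0, 0, 0],
    [0, 0, 0, 0, 0, 0, 0, 0, 0, 0, 0, 0, 0, 0],
    [0, 0, 0, 0, 0, 0, 0, 0, 0, 0, 0, 0, 0, 0],
    [0, 0, 0, 0, 0, 0, 0, 0, 0, 0, 0, 0, 0, 0],
    [0, 0, 0, 0, 0, 0, 0, 0, 0, 0, 0, 0, 0, 0],
    [0, 0, 0, 0, 0, 0, 0, 0, 1, 0, 0, 0, 0, 0],
    [0, 0, 0, 0, 0, 0, 0, 0, 0, 1, 0, 0, 0, 0],
    [0, 0, 0, 0, 0, 0, 0, 0, 0, 0, 0, 0, 0, 0],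
    [0, 0, 0, 0, 0, 1, 0, 0, 0, 0, 0, 0, 0, 0],
    [0, 0, 0, 0, 0, 0, 1, 0, 0, 0, 0, 0, 0, 0],
    [0, 0, 0, 0, 0, 0, 0, 0, 0, 0, 0, 0, 0, 0],
    [0, 0, 0, 0, 0, 0, 0, 0, 0, 0, 0, 0, 0, 0],
    [0, 0, 0, 0, 0, 0, 0, 0, 0, 0, 0, 0, 0, 0],
    [0, 0, 0, 0, 0, 0, 0, 0, 0, 0, 0, 0, 0, 0]])
    (H := [
    [1, 1, 1],
    [1, 1, 1],
    [1, 1, 1],
    [1, 1, 1],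
    [1, 1, 1],
    [1, 1, 1],
    [1, 1, 1],
    [0, 1, 0],
    [1, 1, 1],
    [1, 1, 1],
    [1, 0, 0],
    [0, 0, 1],
    [1, 1, 1],
    [1, 1, 1]])
    (LV := [
    [0, 0, 0, 0, 0, 0, 0, 0, 0, 0, 0, 0, 0, 0, 0],
    [1, 1, 1, 1, 0, 0, 0, 0, 0, 0, 0, 0, 0, 0, 0],
    [0, 1, 1, 1, 0, 0, 0, 0, 0, 0, 0, 0, 0, 0, 1],
    [1, 0, 1, 1, 0, 0, 0, 0, 0, 0, 0, 0, 0, 0, 1],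
    [1, 0, 0, 1, 0, 0, 0, 0, 0, 0, 0, 0, 0, 0, 0],
    [1, 1, 0, 0, 1, 0, 0, 0, 0, 0, 0, 0, 0, 0, 1],
    [0, 0, 0, 0, 0, 0, 0, 0, 0, 0, 0, 0, 0, 0, 0],
    [0, 1, 0, 1, 1, 1, 0, 0, 0, 0, 0, 0, 0, 0, 0],
    [0, 1, 0, 1, 1, 1, 1, 0, 0, 0, 0, 0, 0, 0, 1],
    [0, 1, 0, 1, 1, 1, 1, 0, 1, 0, 0, 0, 0, 0, 0],
    [0, 0, 0, 0, 0, 0, 0, 0, 1, 1, 0, 0, 0, 0, 0],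
    [1, 1, 0, 0, 1, 0, 1, 1, 0, 1, 1, 1, 1, 0, 1],
    [0, 0, 0, 0, 0, 0, 0, 0, 1, 1, 0, 0, 1, 1, 0],
    [1, 1, 0, 0, 1, 0, 1, 1, 1, 0, 1, 1, 0, 0, 0]])
    (LT := [
    [0, 0, 0, 0, 0, 0, 0, 0, 0, 1, 1, 0, 1, 1, 1],
    [1, 0, 0, 1, 0, 1, 0, 1, 1, 0, 0, 0, 0, 0, 0],
    [1, 0, 0, 1, 0, 1, 0, 1, 1, 1, 1, 0, 1, 1, 0]])
    (DV := [
    [1, 0, 0, 1, 0, 1, 1, 1, 0, 1, 1, 1, 1, 0],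
    [0, 1, 1, 0, 0, 1, 1, 1, 0, 1, 1, 1, 1, 0],
    [0, 1, 1, 1, 0, 0, 0, 0, 0, 0, 0, 0, 0, 0],
    [1, 0, 1, 1, 0, 0, 0, 0, 0, 0, 0, 0, 0, 0],
    [0, 0, 0, 0, 0, 1, 1, 1, 0, 1, 1, 1, 1, 0],
    [1, 1, 0, 0, 1, 0, 0, 0, 0, 0, 0, 0, 0, 0],
    [0, 0, 0, 0, 0, 0, 1, 0, 0, 1, 1, 1, 1, 0],
    [1, 1, 0, 0, 1, 0, 1, 1, 0, 1, 1, 1, 1, 0],
    [1, 1, 0, 0, 1, 0, 1, 1, 0, 0, 0, 0, 0, 0],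
    [1, 1, 1, 1, 1, 1, 0, 1, 0, 1, 1, 0, 1, 0],
    [1, 1, 1, 1, 1, 1, 1, 1, 1, 1, 1, 0, 1, 0],
    [0, 0, 0, 0, 0, 0, 1, 0, 1, 0, 1, 1, 1, 0],
    [1, 1, 1, 1, 1, 1, 0, 1, 0, 1, 0, 0, 1, 0],
    [1, 1, 1, 1, 1, 1, 0, 1, 0, 1, 0, 1, 1, 0]])
    (DT := [
    [0, 0, 0],
    [0, 0, 0],
    [0, 0, 0],
    [0, 0, 0],
    [0, 0, 0],
    [0, 0, 0],
    [0, 0, 0],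
    [0, 0, 0],
    [0, 0, 0],
    [0, 1, 0],
    [0, 1, 0],
    [0, 0, 0],
    [0, 1, 0],
    [0, 1, 0]])
    (a := [1, 1, 2, 2, 3, 4, 3, 1, 4, 1, 3, 2, 1, 1]) (z := [0, 0, 0, 0, 0, 0, 1, 0, 1, 0, 1, 0, 1, 1])
    (b := [-4, 3, 1]) (y := [0, 0, 0])
    (e1 := 4) (f1 := 5) (e := 0) (g := 0) (f := 0) (f2 := 0) (q0 := 0) (r0 := 6)
    (by decide +kernel)⟩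

theorem c10_3 : HC1 6 15 10 :=
  ⟨10, 0, by decide, Chk.has
    (S := [
    [-1, 1, -1, 0, 0, 0, 0, 0, 0, 0, 0, 0, 0, 0, 0],
    [1, -1, 0, 1, 0, 0, 0, 0, 0, 0, 0, 0, 0, 0, 0],
    [-1, 0, 0, -1, 1, 0, 0, 0, 0, 0, 0, 0, 0, 0, 0],
    [0, 1, -1, -1, 0, 0, 0, 0, 0, 0, 0, 0, 0, 0, 0],
    [0, 0, 1, 0, -1, 0, 1, 0, 0, 0, 0, 0, 0, 0, 0],
    [0, 0, 0, 0, 0, -1, 0, 1, 0, 0, 0, 0, 0, 0, 0],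
    [0, 0, 0, 0, 1, 0, -1, -1, -1, 0, 0, 0, 0, 0, 0],
    [0, 0, 0, 0, 0, 1, -1, -1, 1, -1, 0, 0, 0, 0, 0],
    [0, 0, 0, 0, 0, 0, -1, 1, 0, -1, 0, 0, 0, 0, 0],
    [0, 0, 0, 0, 0, 0, 0, -1, -1, 0, 1, 0, 0, 0, 0],
    [0, 0, 0, 0, 0, 0, 0, 0, 0, 1, -1, 1, 0, 0, 0],
    [0, 0, 0, 0, 0, 0, 0, 0, 0, 0, 1, 0, -1, -1, 0],
    [0, 0, 0, 0, 0, 0, 0, 0, 0, 0, 0, -1, 0, 1, 1],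
    [0, 0, 0, 0, 0, 0, 0, 0, 0, 0, 0, -1, 1, 0, 1],
    [0, 0, 0, 0, 0, 0, 0, 0, 0, 0, 0, 0, 1, 1, -1]])
    (C := [
    [0, 0, 0, 0, 0, 0, 0, 0, 0, 0, 0, 0, 0, 0, 0],
    [0, 0, 0, 0, 0, 0, 0, 0, 0, 0, 0, 0, 0, 0, 0],
    [0, 0, 0, 0, 0, 0, 0, 0, 0, 0, 0, 0, 0, 0, 0],
    [0, 0, 0, 0, 1, -1, 0, 0, 0, 0, 0, 0, 0, 0, 0],
    [0, 0, 0, 0, 0, 0, 0, 0, 0, 0, 0, 0, 0, 0, 0],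
    [0, 0, 0, 0, -1, 0, 0, 0, 0, 0, 0, 0, 0, 0, 0],
    [0, 0, 0, 0, 0, 1, 0, 0, 0, 0, 0, 0, 0, 0, 0],
    [0, 0, 0, 0, 0, 0, 0, 0, 0, 0, 0, 0, 0, 0, 0],
    [0, 0, 0, 0, 0, 0, 0, 0, 0, 0, 0, 0, 0, 0, 0],
    [0, 0, 0, 0, 0, 0, 0, 0, 0, 0, 0, 0, 0, 0, 0],
    [0, 0, 0, 0, 0, 0, 0, 0, 0, 0, 0, 0, 0, 0, 0],
    [0, 0, 0, 0, 0, 0, 0, 0, 0, 0, 0, 0, 0, 0, 0],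
    [0, 0, 0, 0, 0, 0, 0, 0, 0, 0, 0, 0, 0, 0, 0],
    [0, 0, 0, 0, 0, 0, 0, 0, 0, 0, 0, 0, 0, 0, 0],
    [0, 0, 0, 0, 0, 0, 0, 0, 0, 0, 0, 0, 0, 0, 0]])
    (Ad := [
    [0, 0, 0, 0, 0, 0, 0, 0, 0, 0, 0, 0, 0, 0, 0],
    [0, 0, 0, 0, 0, 0, 0, 0, 0, 0, 0, 0, 0, 0, 0],
    [0, 0, 0, 0, 0, 0, 0, 0, 0, 0, 0, 0, 0, 0, 0],
    [0, 0, 0, 0, 0, 0, 0, 0, 0, 0, 0, 0, 0, 0, 0],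
    [0, 0, 0, 0, 0, 0, 0, 0, 0, 0, 0, 0, 0, 0, 0],
    [0, 0, 0, 0, 0, 0, 0, 0, 0, 0, 0, 0, 0, 0, 0],
    [0, 0, 0, 0, 0, 0, 0, 0, 0, 0, 0, 0, 0, 0, 0],
    [0, 0, 0, 0, 0, 0, 0, 0, 0, 0, 0, 0, 0, 0, 0],
    [0, 0, 0, 0, 0, 0, 0, 0, 0, 0, 0, 0, 0, 0, 0],
    [0, 0, 0, 0, 0, 0, 0, 0, 0, 0, 0, 0, 0, 0, 0],
    [0, 0, 0, 0, 0, 0, 0, 0, 0, 0, 0, 0, 0, 0, 0],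
    [0, 0, 0, 0, 0, 0, 0, 0, 0, 0, 0, 0, 0, 0, 0],
    [0, 0, 0, 0, 0, 0, 0, 0, 0, 0, 0, 0, 0, 0, 0],
    [0, 0, 0, 0, 0, 0, 0, 0, 0, 0, 0, 0, 0, 0, 0],
    [0, 0, 0, 0, 0, 0, 0, 0, 0, 0, 0, 0, 0, 0, 0]])
    (Re := [
    [0, 0, 0, 0, 0, 0, 0, 0, 0, 0, 0, 0, 0, 0, 0],
    [0, 0, 0, 0, 0, 0, 0, 0, 0, 0, 0, 0, 0, 0, 0],
    [0, 0, 0, 0, 0, 0, 0, 0, 0, 0, 0, 0, 0, 0, 0],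
    [0, 0, 0, 0, 0, 0, 0, 0, 0, 0, 0, 0, 0, 0, 0],
    [0, 0, 0, 0, 0, 0, 0, 1, 0, 0, 0, 0, 0, 0, 0],
    [0, 0, 0, 0, 0, 0, 0, 0, 0, 0, 0, 0, 0, 0, 0],
    [0, 0, 0, 0, 0, 0, 0, 0, 0, 0, 0, 0, 0, 0, 0],
    [0, 0, 0, 0, 1, 0, 0, 0, 0, 0, 0, 0, 0, 0, 0],
    [0, 0, 0, 0, 0, 0, 0, 0, 0, 0, 0, 0, 0, 0, 0],
    [0, 0, 0, 0, 0, 0, 0, 0, 0, 0, 0, 0, 0, 0, 0],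
    [0, 0, 0, 0, 0, 0, 0, 0, 0, 0, 0, 0, 0, 0, 0],
    [0, 0, 0, 0, 0, 0, 0, 0, 0, 0, 0, 0, 0, 0, 0],
    [0, 0, 0, 0, 0, 0, 0, 0, 0, 0, 0, 0, 0, 0, 0],
    [0, 0, 0, 0, 0, 0, 0, 0, 0, 0, 0, 0, 0, 0, 0],
    [0, 0, 0, 0, 0, 0, 0, 0, 0, 0, 0, 0, 0, 0, 0]])
    (H := [
    [1, 1, 1],
    [1, 1, 1],
    [1, 1, 1],
    [0, 1, 0],
    [1, 1, 1],
    [0, 0, 1],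
    [1, 0, 0],
    [1, 1, 1],
    [1, 1, 1],
    [1, 1, 1],
    [1, 1, 1],
    [1, 1, 1],
    [1, 1, 1],
    [1, 1, 1],
    [1, 1, 1]])
    (LV := [
    [0, 1, 0, 1, 1, 1, 1, 1, 1, 0, 0, 0, 0, 0, 0, 1],
    [0, 0, 0, 0, 0, 0, 0, 0, 0, 0, 0, 0, 0, 0, 0, 0],
    [1, 1, 0, 1, 1, 1, 1, 1, 1, 0, 0, 0, 0, 0, 0, 0],
    [0, 0, 0, 1, 1, 1, 1, 1, 1, 0, 0, 0, 0, 0, 0, 0],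
    [0, 1, 1, 0, 0, 0, 0, 0, 0, 0, 0, 0, 0, 0, 0, 0],
    [0, 0, 0, 0, 0, 0, 0, 0, 0, 0, 0, 0, 0, 0, 0, 0],
    [1, 0, 1, 1, 0, 1, 1, 1, 1, 0, 0, 0, 0, 0, 0, 1],
    [0, 0, 0, 0, 0, 0, 0, 1, 1, 1, 0, 1, 1, 1, 0, 0],
    [0, 0, 0, 0, 0, 0, 0, 1, 1, 0, 0, 0, 0, 0, 0, 0],
    [1, 0, 1, 1, 0, 1, 1, 0, 1, 1, 0, 1, 1, 1, 0, 0],
    [0, 0, 0, 0, 0, 0, 0, 0, 0, 0, 0, 1, 1, 1, 0, 1],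
    [1, 0, 1, 1, 0, 1, 1, 0, 1, 1, 1, 0, 0, 0, 0, 0],
    [1, 0, 1, 1, 0, 1, 1, 0, 1, 1, 1, 0, 1, 0, 1, 0],
    [1, 0, 1, 1, 0, 1, 1, 0, 1, 1, 1, 0, 0, 1, 1, 0],
    [0, 0, 0, 0, 0, 0, 0, 0, 0, 0, 0, 0, 1, 1, 1, 1]])
    (LT := [
    [1, 1, 0, 1, 0, 1, 0, 1, 1, 1, 0, 1, 1, 1, 0, 1],
    [1, 0, 1, 1, 0, 0, 0, 0, 0, 0, 0, 0, 0, 0, 0, 0],
    [0, 1, 1, 0, 0, 1, 0, 1, 1, 1, 0, 1, 1, 1, 0, 0]])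
    (DV := [
    [0, 0, 1, 0, 0, 1, 1, 1, 1, 0, 0, 0, 0, 0, 0],
    [1, 1, 0, 1, 0, 0, 0, 0, 0, 0, 0, 0, 0, 0, 0],
    [0, 1, 1, 1, 0, 1, 1, 1, 1, 0, 0, 0, 0, 0, 0],
    [1, 0, 1, 1, 0, 1, 1, 1, 1, 0, 0, 0, 0, 0, 0],
    [1, 0, 1, 1, 0, 0, 0, 0, 0, 0, 0, 0, 0, 0, 0],
    [1, 1, 0, 0, 1, 0, 1, 0, 0, 1, 0, 1, 1, 1, 0],
    [1, 0, 1, 1, 0, 0, 1, 0, 0, 1, 0, 1, 1, 1, 0],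
    [1, 1, 0, 0, 1, 0, 1, 1, 1, 0, 0, 0, 0, 0, 0],
    [1, 1, 0, 0, 1, 0, 1, 1, 1, 1, 0, 1, 1, 1, 0],
    [0, 1, 1, 1, 1, 0, 0, 1, 0, 1, 0, 1, 1, 1, 0],
    [0, 0, 0, 0, 0, 0, 0, 0, 0, 0, 0, 1, 1, 1, 0],
    [0, 1, 1, 1, 1, 0, 0, 1, 0, 1, 1, 0, 0, 0, 0],
    [0, 1, 1, 1, 1, 0, 0, 1, 0, 1, 1, 0, 1, 0, 1],
    [0, 1, 1, 1, 1, 0, 0, 1, 0, 1, 1, 0, 0, 1, 1],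
    [0, 0, 0, 0, 0, 0, 0, 0, 0, 0, 0, 0, 1, 1, 1]])
    (DT := [
    [0, 0, 0],
    [0, 0, 0],
    [0, 0, 0],
    [0, 0, 0],
    [0, 0, 0],
    [0, 0, 0],
    [0, 0, 0],
    [0, 0, 0],
    [0, 0, 0],
    [0, 0, 0],
    [0, 0, 0],
    [0, 0, 0],
    [0, 0, 0],
    [0, 0, 0],
    [0, 0, 0]])
    (a := [2, 4, 2, 2, 4, 1, 2, 1, 1, -1, 2, 3, 1, 1, 2]) (z := [0, 1, 1, 1, 1, 0, 0, 0, 0, 0, 0, 0, 0, 0, 0])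
    (b := [-1, -3, 4]) (y := [1, 0, 1])
    (e1 := 9) (f1 := 10) (e := 0) (g := 0) (f := 0) (f2 := 0) (q0 := 5) (r0 := 1)
    (by decide +kernel)⟩

end Pool.Agent.J6H77.Nut
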