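import Pool.Agent.J6H77.Nut.Step2

/-! # Certificates of cores -/

set_option autoImplicit false
set_option linter.unusedSectionVars false

namespace Pool.Agent.J6H77.Nut

open Finset Pool.Agent.TH296.Nut Pool.Agent.J6H28.Nut

/-- existence of a core -/
def HasCore (c : ℤ) (m k p q : ℕ) : Prop :=
  ∃ (V : Type) (_ : Fintype V) (_ : DecidableEq V) (S C Ad Re : V → V → ℤ) (H : V → Fin 3 → ℤ)
    (pos : V → ℕ) (a z : V → ℤ) (b y : Fin 3 → ℤ) (e1 f1 e g f f2 q0 : V),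
    Core c m k p q V S C Ad Re H pos a z b y e1 f1 e g f f2 q0

theorem HasCore.mem {c : ℤ} {m k p q : ℕ} (h : HasCore c m k p q)
    (hk : 3 ≤ k) (hm : k + 5 ≤ m) (hm2 : m % 2 = 1 → k % 2 = 1 → k + 6 ≤ m)
    (c8 : m % 2 = 1 ∧ k % 2 = 1 → c = 8) (c6 : ¬ (m % 2 = 1 ∧ k % 2 = 1) → c = 6) :
    2 * m + 3 ∈ nutOrders (2 * k + 6) := by
  obtain ⟨V, _, _, S, C, Ad, Re, H, pos, a, z, b, y, e1, f1, e, g, f, f2, q0, h⟩ := h
  exact h.mem hk hm hm2 c8 c6

/-- cores with a slot for three looped cells -/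
def HC1 (c : ℤ) (m k : ℕ) : Prop := ∃ p q, p ≠ 0 ∧ HasCore c m k p q

/-- cores with a slot for two unlooped cells -/
def HC2 (c : ℤ) (m k : ℕ) : Prop := ∃ p q, q ≠ 0 ∧ HasCore c m k p q

/-- cores with both slots -/
def HC (c : ℤ) (m k : ℕ) : Prop := ∃ p q, p ≠ 0 ∧ q ≠ 0 ∧ HasCore c m k p q

theorem HC1.step {c : ℤ} {m k : ℕ} (h : HC1 c m k) : HC1 c (m + 3) (k + 3) := by
  obtain ⟨p, q, hp, V, _, _, S, C, Ad, Re, H, pos, a, z, b, y, e1, f1, e, g, f, f2, q0, h⟩ := h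
  exact ⟨p, _, hp, _, _, _, _, _, _, _, _, _, _, _, _, _, _, _, _, _, _, _, _, h.step1 hp⟩

theorem HC1.steps {c : ℤ} {m k : ℕ} (h : HC1 c m k) (i : ℕ) :
    HC1 c (m + 3 * i) (k + 3 * i) := by
  induction i with
  | zero => exact h
  | succ i ih => exact ih.step

theorem HC2.step {c : ℤ} {m k : ℕ} (h : HC2 c m k) : HC2 c (m + 2) k := by
  obtain ⟨p, q, hq, V, _, _, S, C, Ad, Re, H, pos, a, z, b, y, e1, f1, e, g, f, f2, q0, h⟩ := h
  exact ⟨_, q, hq, _, _, _, _, _, _, _, _, _, _, _, _, _, _, _, _, _, _, _, _, h.step2 hq⟩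

theorem HC2.steps {c : ℤ} {m k : ℕ} (h : HC2 c m k) (i : ℕ) : HC2 c (m + 2 * i) k := by
  induction i with
  | zero => exact h
  | succ i ih => exact ih.step

theorem cut2_ne {p q d : ℕ} (hq : q ≠ 0) : cut2 p q d ≠ 0 := by
  unfold cut2
  split_ifs <;> omega

theorem HC.step {c : ℤ} {m k : ℕ} (h : HC c m k) : HC c (m + 3) (k + 3) := by
  obtain ⟨p, q, hp, hq, V, _, _, S, C, Ad, Re, H, pos, a, z, b, y, e1, f1, e, g, f, f2, q0, h⟩ := h
  exact ⟨p, _, hp, cut2_ne hq, _, _, _, _, _, _, _, _, _, _, _, _, _, _, _, _, _, _, _, _,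
    h.step1 hp⟩

theorem HC.steps {c : ℤ} {m k : ℕ} (h : HC c m k) (i : ℕ) :
    HC c (m + 3 * i) (k + 3 * i) := by
  induction i with
  | zero => exact h
  | succ i ih => exact ih.step

theorem HC.hc2 {c : ℤ} {m k : ℕ} (h : HC c m k) : HC2 c m k := by
  obtain ⟨p, q, _, hq, h⟩ := h
  exact ⟨p, q, hq, h⟩

theorem HC.hc1 {c : ℤ} {m k : ℕ} (h : HC c m k) : HC1 c m k := by
  obtain ⟨p, q, hp, _, h⟩ := h
  exact ⟨p, q, hp, h⟩

theorem HC1.mem {c : ℤ} {m k : ℕ} (h : HC1 c m k)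
    (hk : 3 ≤ k) (hm : k + 5 ≤ m) (hm2 : m % 2 = 1 → k % 2 = 1 → k + 6 ≤ m)
    (c8 : m % 2 = 1 ∧ k % 2 = 1 → c = 8) (c6 : ¬ (m % 2 = 1 ∧ k % 2 = 1) → c = 6) :
    2 * m + 3 ∈ nutOrders (2 * k + 6) := by
  obtain ⟨p, q, _, h⟩ := h
  exact h.mem hk hm hm2 c8 c6

theorem HC2.mem {c : ℤ} {m k : ℕ} (h : HC2 c m k)
    (hk : 3 ≤ k) (hm : k + 5 ≤ m) (hm2 : m % 2 = 1 → k % 2 = 1 → k + 6 ≤ m)
    (c8 : m % 2 = 1 ∧ k % 2 = 1 → c = 8) (c6 : ¬ (m % 2 = 1 ∧ k % 2 = 1) → c = 6) :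
    2 * m + 3 ∈ nutOrders (2 * k + 6) := by
  obtain ⟨p, q, _, h⟩ := h
  exact h.mem hk hm hm2 c8 c6

/-- the indicator of an equality -/
def dl {X : Type} [DecidableEq X] (i j : X) : ℤ := if i = j then 1 else 0

/-- conditions on a core on `Fin m`, part 1 -/
def ChkA (m : ℕ) (S C Ad Re H : List (List ℤ)) : Prop :=
  (∀ i j : Fin m, ent S i j = 0 ∨ ent S i j = 1 ∨ ent S i j = -1) ∧
  (∀ i j : Fin m, ent C i j = 0 ∨ ent C i j = 1 ∨ ent C i j = -1) ∧
  (∀ i j : Fin m, ent Ad i j = 0 ∨ ent Ad i j = 1) ∧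
  (∀ i j : Fin m, ent Re i j = 0 ∨ ent Re i j = 1) ∧
  (∀ (i : Fin m) (w : Fin 3), ent H i w = 0 ∨ ent H i w = 1) ∧
  (∀ i j : Fin m, ent S i j = ent S j i) ∧
  (∀ i j : Fin m, ent Ad i j = ent Ad j i) ∧
  (∀ i j : Fin m, ent Re i j = ent Re j i) ∧
  (∀ i : Fin m, ent S i i ≠ 1) ∧
  (∀ i : Fin m, ent C i i = 0) ∧
  (∀ i : Fin m, ent Ad i i = 0)

instance (m : ℕ) (S C Ad Re H : List (List ℤ)) : Decidable (ChkA m S C Ad Re H) := by
  unfold ChkA; infer_instance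

/-- conditions on a core on `Fin m`, part 2 -/
def ChkB (c : ℤ) (m k p q : ℕ) (S C Ad Re H : List (List ℤ)) (e1 f1 e g f f2 : Fin m) : Prop :=
  (∀ i j : Fin m, ent Ad i j ≠ 0 → ent S i j = 0) ∧
  (∀ i j : Fin m, ent C i j ≠ 0 → ent S i j = 0) ∧
  (∀ i j : Fin m, ent C i j ≠ 0 → ent Ad i j = 0) ∧
  (∀ i j : Fin m, ent C i j ≠ 0 → ent C j i = 0) ∧
  (∀ j : Fin m, ∑ i : Fin m, ent C i j = 0) ∧
  (∀ i : Fin m, ∑ j : Fin m, (ent S i j ^ 2 + 2 * ent Ad i j - 2 * ent Re i j + ent C i j ^ 2 +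
    ent C j i ^ 2) + ∑ w : Fin 3, ent H i w = if i.val = 0 then c else 6) ∧
  (∀ w : Fin 3, ∑ i : Fin m, ent H i w = (k : ℤ) + 3) ∧
  (∀ i j : Fin m, (ent S i j ≠ 0 ∨ ent C i j ≠ 0 ∨ ent Ad i j ≠ 0) →
    rel2 m p q 0 2 i j ∨ exc p q e1 f1 e g f f2 i j) ∧
  (∀ i j : Fin m, ent Re i j ≠ 0 → rel2 m p q 3 3 i j)

instance (c : ℤ) (m k p q : ℕ) (S C Ad Re H : List (List ℤ)) (e1 f1 e g f f2 : Fin m) :
    Decidable (ChkB c m k p q S C Ad Re H e1 f1 e g f f2) := by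
  unfold ChkB; infer_instance

/-- conditions on a core on `Fin m`, part 3 -/
def ChkC (m : ℕ) (S C H LV LT DV DT : List (List ℤ)) (a z b y : List ℤ)
    (q0 r0 : Fin m) : Prop :=
  (∀ i : Fin m, a.getD i 0 ≠ 0) ∧
  (∀ w : Fin 3, b.getD w 0 ≠ 0) ∧
  (∑ w : Fin 3, b.getD w 0 = 0) ∧
  (∀ i : Fin m, ∑ j : Fin m, ent S i j * a.getD j 0 = 0) ∧
  (∀ i : Fin m, ∑ j : Fin m, ent C i j * a.getD j 0 + ∑ w : Fin 3, ent H i w * b.getD w 0 = 0) ∧
  (∀ j x : Fin m, (∑ i : Fin m, ent DV j i * (ent S i x + ent C x i) +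
    ∑ w : Fin 3, ent DT j w * ent H x w + dl j x) % 2 = 0) ∧
  (∀ j x : Fin m, (∑ i : Fin m, ent LV j i * (ent S i x + ent C i x) + dl j x +
    (a.getD j 0 + z.getD j 0 * a.getD r0 0) * dl x q0 + z.getD j 0 * dl x r0) % 2 = 0) ∧
  (∀ (j : Fin m) (w : Fin 3), (∑ i : Fin m, ent LV j i * ent H i w + ent LV j m) % 2 = 0) ∧
  (∀ (j : Fin 3) (x : Fin m), (∑ i : Fin m, ent LT j i * (ent S i x + ent C i x) +
    (b.getD j 0 + y.getD j 0 * a.getD r0 0) * dl x q0 + y.getD j 0 * dl x r0) % 2 = 0) ∧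
  (∀ j w : Fin 3, (∑ i : Fin m, ent LT j i * ent H i w + ent LT j m + dl j w) % 2 = 0)

instance (m : ℕ) (S C H LV LT DV DT : List (List ℤ)) (a z b y : List ℤ)
    (q0 r0 : Fin m) : Decidable (ChkC m S C H LV LT DV DT a z b y q0 r0) := by
  unfold ChkC dl; infer_instance

/-- conditions on a core on `Fin m`, part 4 -/
def ChkE (m p q : ℕ) (S Ad : List (List ℤ)) (a z : List ℤ)
    (e1 f1 e g f f2 q0 : Fin m) : Prop :=
  (a.getD q0 0 % 2 = 1) ∧ (z.getD q0 0 % 2 = 0) ∧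
  ((∑ i : Fin m, z.getD i 0 * ∑ j : Fin m, ent S i j * z.getD j 0) % 4 ≠ 0) ∧
  (p = 0 ∨ q = 0 ∨ p + 2 ≤ q ∨ q + 2 ≤ p) ∧
  (p ≠ 0 → e1.val + 1 = p ∧ f1.val = p ∧ ent S e1 f1 = 1 ∧ a.getD e1 0 ≠ a.getD f1 0) ∧
  (q ≠ 0 → e.val + 2 = q ∧ g.val + 1 = q ∧ f.val = q ∧ f2.val = q + 1 ∧ ent S e f = 1 ∧
    ent Ad g f = 1 ∧ ent Ad g f2 = 1)

instance (m p q : ℕ) (S Ad : List (List ℤ)) (a z : List ℤ)
    (e1 f1 e g f f2 q0 : Fin m) : Decidable (ChkE m p q S Ad a z e1 f1 e g f f2 q0) := by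
  unfold ChkE; infer_instance

/-- all the conditions on a core on `Fin m`, in decidable form -/
def Chk (c : ℤ) (m k p q : ℕ) (S C Ad Re H LV LT DV DT : List (List ℤ)) (a z b y : List ℤ)
    (e1 f1 e g f f2 q0 r0 : Fin m) : Prop :=
  ChkA m S C Ad Re H ∧ ChkB c m k p q S C Ad Re H e1 f1 e g f f2 ∧
  ChkC m S C H LV LT DV DT a z b y q0 r0 ∧ ChkE m p q S Ad a z e1 f1 e g f f2 q0

instance (c : ℤ) (m k p q : ℕ) (S C Ad Re H LV LT DV DT : List (List ℤ)) (a z b y : List ℤ)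
    (e1 f1 e g f f2 q0 r0 : Fin m) :
    Decidable (Chk c m k p q S C Ad Re H LV LT DV DT a z b y e1 f1 e g f f2 q0 r0) := by
  unfold Chk; infer_instance

theorem sum_dl {m : ℕ} (x0 : Fin m) (u : Fin m → ZMod 2) :
    ∑ x, ((dl x x0 : ℤ) : ZMod 2) * u x = u x0 := by
  simp [dl]

theorem sum_dl' {m : ℕ} (x0 : Fin m) (u : Fin m → ZMod 2) :
    ∑ x, ((dl x0 x : ℤ) : ZMod 2) * u x = u x0 := by
  simp [dl]

theorem Chk.has {c : ℤ} {m k p q : ℕ} {S C Ad Re H LV LT DV DT : List (List ℤ)}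
    {a z b y : List ℤ} {e1 f1 e g f f2 q0 r0 : Fin m}
    (h : Chk c m k p q S C Ad Re H LV LT DV DT a z b y e1 f1 e g f f2 q0 r0) :
    HasCore c m k p q := by
  obtain ⟨⟨v1, v2, v3, v4, v5, v6, v7, v8, v9, v10, v11⟩,
    ⟨d1, d2, d3, d4, d5, d6, d7, d8, d9⟩, ⟨x1, x2, x3, x4, x5, x6, x7, x8, x9, x10⟩,
    ⟨y1, y2, y3, y4, y5, y6⟩⟩ := h
  refine ⟨Fin m, inferInstance, inferInstance, fun i j => ent S i j, fun i j => ent C i j,
    fun i j => ent Ad i j, fun i j => ent Re i j, fun i w => ent H i w, fun i => i.val,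
    fun i => a.getD i 0, fun i => z.getD i 0, fun w => b.getD w 0, fun w => y.getD w 0,
    e1, f1, e, g, f, f2, q0, ?_⟩
  refine ⟨Fintype.card_fin m, Fin.val_injective, fun v => v.2, v1, v2, v3, v4, v5, v6, v7, v8, v9,
    v10, v11, d1, d2, d3, d4, d5, d6, d7, d8, d9, x1, x2, x3, x4, x5, ?_, ?_, y1, y2, y3, y4, y5,
    y6⟩
  · intro s hs hw j
    have h1 : ∑ x : Fin m, ((∑ i : Fin m, ent DV j i * (ent S i x + ent C x i) +
        ∑ w : Fin 3, ent DT j w * ent H x w + dl j x : ℤ) : ZMod 2) * s x = 0 := by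
      refine Finset.sum_eq_zero fun x _ => ?_
      rw [cast0 _ (x6 j x), zero_mul]
    have h2 : ∑ x : Fin m, ((∑ i : Fin m, ent DV j i * (ent S i x + ent C x i) +
        ∑ w : Fin 3, ent DT j w * ent H x w + dl j x : ℤ) : ZMod 2) * s x =
        ∑ i : Fin m, (ent DV j i : ZMod 2) *
          ∑ x : Fin m, ((ent S i x + ent C x i : ℤ) : ZMod 2) * s x +
        ∑ w : Fin 3, (ent DT j w : ZMod 2) * ∑ x : Fin m, (ent H x w : ZMod 2) * s x + s j := by
      have e3 : ∀ x : Fin m, ((∑ i : Fin m, ent DV j i * (ent S i x + ent C x i) +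
        ∑ w : Fin 3, ent DT j w * ent H x w + dl j x : ℤ) : ZMod 2) * s x =
        (∑ i : Fin m, (ent DV j i : ZMod 2) * (((ent S i x + ent C x i : ℤ) : ZMod 2) * s x) +
        ∑ w : Fin 3, (ent DT j w : ZMod 2) * ((ent H x w : ZMod 2) * s x)) +
        ((dl j x : ℤ) : ZMod 2) * s x := by
        intro x
        push_cast
        rw [add_mul, add_mul, Finset.sum_mul, Finset.sum_mul]
        congr 1
        congr 1
        · refine Finset.sum_congr rfl fun i _ => ?_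
          ring
        · refine Finset.sum_congr rfl fun i _ => ?_
          ring
      rw [Finset.sum_congr rfl fun x _ => e3 x, Finset.sum_add_distrib, Finset.sum_add_distrib,
        sum_dl']
      congr 1
      congr 1
      · simp only [Finset.mul_sum]
        rw [Finset.sum_comm]
      · simp only [Finset.mul_sum]
        rw [Finset.sum_comm]
    rw [h2] at h1
    have e4 : ∀ i : Fin m, ∑ x : Fin m, ((ent S i x + ent C x i : ℤ) : ZMod 2) * s x = 0 :=
      fun i => hs i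
    have e5 : ∀ w : Fin 3, ∑ x : Fin m, (ent H x w : ZMod 2) * s x = 0 := fun w => hw w
    simpa only [e4, e5, mul_zero, Finset.sum_const_zero, zero_add] using h1
  · intro x t hx ht
    have e4 : ∀ i : Fin m, ∑ j : Fin m, ((ent S i j + ent C i j : ℤ) : ZMod 2) * x j =
        - ∑ w : Fin 3, (ent H i w : ZMod 2) * t w := fun i => by
      have := hx i
      linear_combination this
    refine ⟨x q0, (a.getD r0 0 : ℤ) * x q0 + x r0, ?_, ?_⟩
    · intro j
      have h1 : ∑ u : Fin m, ((∑ i : Fin m, ent LV j i * (ent S i u + ent C i u) + dl j u +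
          (a.getD j 0 + z.getD j 0 * a.getD r0 0) * dl u q0 + z.getD j 0 * dl u r0 : ℤ) :
          ZMod 2) * x u +
          ∑ w : Fin 3, ((∑ i : Fin m, ent LV j i * ent H i w + ent LV j m : ℤ) : ZMod 2) * t w
          = 0 := by
        rw [Finset.sum_eq_zero (fun u _ => by rw [cast0 _ (x7 j u), zero_mul]),
          Finset.sum_eq_zero (fun w _ => by rw [cast0 _ (x8 j w), zero_mul]), add_zero]
      have h2 : ∀ u : Fin m, ((∑ i : Fin m, ent LV j i * (ent S i u + ent C i u) + dl j u +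
          (a.getD j 0 + z.getD j 0 * a.getD r0 0) * dl u q0 + z.getD j 0 * dl u r0 : ℤ) :
          ZMod 2) * x u =
          ∑ i : Fin m, (ent LV j i : ZMod 2) * (((ent S i u + ent C i u : ℤ) : ZMod 2) * x u) +
          ((dl j u : ℤ) : ZMod 2) * x u +
          ((a.getD j 0 : ℤ) + (z.getD j 0 : ℤ) * (a.getD r0 0 : ℤ) : ZMod 2) *
            (((dl u q0 : ℤ) : ZMod 2) * x u) +
          ((z.getD j 0 : ℤ) : ZMod 2) * (((dl u r0 : ℤ) : ZMod 2) * x u) := by
        intro u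
        push_cast
        rw [add_mul, add_mul, add_mul, Finset.sum_mul]
        congr 1
        · congr 1
          · congr 1
            refine Finset.sum_congr rfl fun i _ => ?_
            ring
          · ring
        · ring
      have h3 : ∀ w : Fin 3, ((∑ i : Fin m, ent LV j i * ent H i w + ent LV j m : ℤ) : ZMod 2) *
          t w = ∑ i : Fin m, (ent LV j i : ZMod 2) * ((ent H i w : ZMod 2) * t w) +
          (ent LV j m : ZMod 2) * t w := by
        intro w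
        push_cast
        rw [add_mul, Finset.sum_mul]
        congr 1
        refine Finset.sum_congr rfl fun i _ => ?_
        ring
      rw [Finset.sum_congr rfl fun u _ => h2 u, Finset.sum_congr rfl fun w _ => h3 w,
        Finset.sum_add_distrib, Finset.sum_add_distrib, Finset.sum_add_distrib,
        Finset.sum_add_distrib, ← Finset.mul_sum, ← Finset.mul_sum, ← Finset.mul_sum, sum_dl',
        sum_dl, sum_dl, ht, mul_zero, add_zero, Finset.sum_comm] at h1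
      have h4 : ∑ i : Fin m, ∑ u : Fin m, (ent LV j i : ZMod 2) *
          (((ent S i u + ent C i u : ℤ) : ZMod 2) * x u) =
          - ∑ w : Fin 3, ∑ i : Fin m, (ent LV j i : ZMod 2) * ((ent H i w : ZMod 2) * t w) := by
        rw [Finset.sum_comm (s := (univ : Finset (Fin 3))), ← Finset.sum_neg_distrib]
        refine Finset.sum_congr rfl fun i _ => ?_
        rw [← Finset.mul_sum, e4 i, ← Finset.mul_sum]
        ring
      rw [h4] at h1
      linear_combination h1 - c2 * (((a.getD j 0 : ℤ) : ZMod 2) * x q0 +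
        ((z.getD j 0 : ℤ) : ZMod 2) * ((a.getD r0 0 : ℤ) : ZMod 2) * x q0 +
        ((z.getD j 0 : ℤ) : ZMod 2) * x r0)
    · intro j
      have h1 : ∑ u : Fin m, ((∑ i : Fin m, ent LT j i * (ent S i u + ent C i u) +
          (b.getD j 0 + y.getD j 0 * a.getD r0 0) * dl u q0 + y.getD j 0 * dl u r0 : ℤ) :
          ZMod 2) * x u +
          ∑ w : Fin 3, ((∑ i : Fin m, ent LT j i * ent H i w + ent LT j m + dl j w : ℤ) :
          ZMod 2) * t w = 0 := by
        rw [Finset.sum_eq_zero (fun u _ => by rw [cast0 _ (x9 j u), zero_mul]),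
          Finset.sum_eq_zero (fun w _ => by rw [cast0 _ (x10 j w), zero_mul]), add_zero]
      have h2 : ∀ u : Fin m, ((∑ i : Fin m, ent LT j i * (ent S i u + ent C i u) +
          (b.getD j 0 + y.getD j 0 * a.getD r0 0) * dl u q0 + y.getD j 0 * dl u r0 : ℤ) :
          ZMod 2) * x u =
          ∑ i : Fin m, (ent LT j i : ZMod 2) * (((ent S i u + ent C i u : ℤ) : ZMod 2) * x u) +
          ((b.getD j 0 : ℤ) + (y.getD j 0 : ℤ) * (a.getD r0 0 : ℤ) : ZMod 2) *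
            (((dl u q0 : ℤ) : ZMod 2) * x u) +
          ((y.getD j 0 : ℤ) : ZMod 2) * (((dl u r0 : ℤ) : ZMod 2) * x u) := by
        intro u
        push_cast
        rw [add_mul, add_mul, Finset.sum_mul]
        congr 1
        · congr 1
          · refine Finset.sum_congr rfl fun i _ => ?_
            ring
          · ring
        · ring
      have h3 : ∀ w : Fin 3, ((∑ i : Fin m, ent LT j i * ent H i w + ent LT j m + dl j w : ℤ) :
          ZMod 2) * t w = ∑ i : Fin m, (ent LT j i : ZMod 2) * ((ent H i w : ZMod 2) * t w) +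
          (ent LT j m : ZMod 2) * t w + ((dl j w : ℤ) : ZMod 2) * t w := by
        intro w
        push_cast
        rw [add_mul, add_mul, Finset.sum_mul]
        congr 1
        congr 1
        refine Finset.sum_congr rfl fun i _ => ?_
        ring
      have h5 : ∑ w : Fin 3, ((dl j w : ℤ) : ZMod 2) * t w = t j := by
        simp [dl]
      rw [Finset.sum_congr rfl fun u _ => h2 u, Finset.sum_congr rfl fun w _ => h3 w,
        Finset.sum_add_distrib, Finset.sum_add_distrib, Finset.sum_add_distrib,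
        Finset.sum_add_distrib, ← Finset.mul_sum, ← Finset.mul_sum, ← Finset.mul_sum,
        sum_dl, sum_dl, ht, mul_zero, add_zero, h5, Finset.sum_comm] at h1
      have h4 : ∑ i : Fin m, ∑ u : Fin m, (ent LT j i : ZMod 2) *
          (((ent S i u + ent C i u : ℤ) : ZMod 2) * x u) =
          - ∑ w : Fin 3, ∑ i : Fin m, (ent LT j i : ZMod 2) * ((ent H i w : ZMod 2) * t w) := by
        rw [Finset.sum_comm (s := (univ : Finset (Fin 3))), ← Finset.sum_neg_distrib]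
        refine Finset.sum_congr rfl fun i _ => ?_
        rw [← Finset.mul_sum, e4 i, ← Finset.mul_sum]
        ring
      rw [h4] at h1
      linear_combination h1 - c2 * (((b.getD j 0 : ℤ) : ZMod 2) * x q0 +
        ((y.getD j 0 : ℤ) : ZMod 2) * ((a.getD r0 0 : ℤ) : ZMod 2) * x q0 +
        ((y.getD j 0 : ℤ) : ZMod 2) * x r0)

end Pool.Agent.J6H77.Nut
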