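import Pool.Agent.J6H77.Nut.HalfMem

/-! # Cores with circulant bulk -/

set_option autoImplicit false
set_option linter.unusedSectionVars false

namespace Pool.Agent.J6H77.Nut

open Finset Pool.Agent.TH296.Nut Pool.Agent.J6H28.Nut

/-- the distance of the positions `i`, `j` is in `[lo, hi]`, measured without crossing the cuts -/
def rel2 (m p q lo hi i j : ℕ) : Prop :=
  ((i < p ↔ j < p) ∧ (i < q ↔ j < q) ∧
    ((i + lo ≤ j ∧ j ≤ i + hi) ∨ (j + lo ≤ i ∧ i ≤ j + hi))) ∨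
  ((p = 0 ∨ (i < p ∧ p ≤ j)) ∧ (q = 0 ∨ (i < q ∧ q ≤ j)) ∧ j + lo ≤ i + m ∧ i + m ≤ j + hi) ∨
  ((p = 0 ∨ (j < p ∧ p ≤ i)) ∧ (q = 0 ∨ (j < q ∧ q ≤ i)) ∧ i + lo ≤ j + m ∧ j + m ≤ i + hi)

instance (m p q lo hi i j : ℕ) : Decidable (rel2 m p q lo hi i j) := by
  unfold rel2; infer_instance

/-- the exceptional pairs at the cuts -/
def exc {V : Type} (p q : ℕ) (e1 f1 e g f f2 : V) (i j : V) : Prop :=
  (p ≠ 0 ∧ ((i = e1 ∧ j = f1) ∨ (i = f1 ∧ j = e1))) ∨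
  (q ≠ 0 ∧ ((i = e ∧ j = f) ∨ (i = f ∧ j = e) ∨ (i = g ∧ j = f) ∨ (i = f ∧ j = g) ∨
    (i = g ∧ j = f2) ∨ (i = f2 ∧ j = g)))

instance {V : Type} [DecidableEq V] (p q : ℕ) (e1 f1 e g f f2 : V) (i j : V) :
    Decidable (exc p q e1 f1 e g f f2 i j) := by
  unfold exc; infer_instance

/-- a core on `m` cells with positions `0, ..., m - 1` -/
structure Core (c : ℤ) (m k p q : ℕ) (V : Type) [Fintype V] [DecidableEq V]
    (S C Ad Re : V → V → ℤ) (H : V → Fin 3 → ℤ) (pos : V → ℕ) (a z : V → ℤ) (b y : Fin 3 → ℤ)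
    (e1 f1 e g f f2 q0 : V) : Prop where
  card : Fintype.card V = m
  inj : Function.Injective pos
  lt : ∀ v, pos v < m
  val : ∀ i j, S i j = 0 ∨ S i j = 1 ∨ S i j = -1
  cval : ∀ i j, C i j = 0 ∨ C i j = 1 ∨ C i j = -1
  av : ∀ i j, Ad i j = 0 ∨ Ad i j = 1
  rv : ∀ i j, Re i j = 0 ∨ Re i j = 1
  hv : ∀ i w, H i w = 0 ∨ H i w = 1
  symm : ∀ i j, S i j = S j i
  asymm : ∀ i j, Ad i j = Ad j i
  rsymm : ∀ i j, Re i j = Re j i
  diag : ∀ i, S i i ≠ 1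
  cd : ∀ i, C i i = 0
  ad0 : ∀ i, Ad i i = 0
  dSA : ∀ i j, Ad i j ≠ 0 → S i j = 0
  dSC : ∀ i j, C i j ≠ 0 → S i j = 0
  dAC : ∀ i j, C i j ≠ 0 → Ad i j = 0
  dCC : ∀ i j, C i j ≠ 0 → C j i = 0
  col : ∀ j, ∑ i, C i j = 0
  row : ∀ i, ∑ j, (S i j ^ 2 + 2 * Ad i j - 2 * Re i j + C i j ^ 2 + C j i ^ 2) +
    ∑ w, H i w = if pos i = 0 then c else 6
  tri : ∀ w, ∑ i, H i w = (k : ℤ) + 3
  near : ∀ i j, (S i j ≠ 0 ∨ C i j ≠ 0 ∨ Ad i j ≠ 0) →
    rel2 m p q 0 2 (pos i) (pos j) ∨ exc p q e1 f1 e g f f2 i j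
  rem : ∀ i j, Re i j ≠ 0 → rel2 m p q 3 3 (pos i) (pos j)
  anz : ∀ i, a i ≠ 0
  bnz : ∀ w, b w ≠ 0
  bs : ∑ w, b w = 0
  hSa : ∀ i, ∑ j, S i j * a j = 0
  hCa : ∀ i, ∑ j, C i j * a j + ∑ w, H i w * b w = 0
  hD : ∀ s : V → ZMod 2, (∀ i, ∑ j, ((S i j + C j i : ℤ) : ZMod 2) * s j = 0) →
    (∀ w, ∑ i, (H i w : ZMod 2) * s i = 0) → ∀ i, s i = 0
  hP : ∀ (x : V → ZMod 2) (t : Fin 3 → ZMod 2),
    (∀ i, ∑ j, ((S i j + C i j : ℤ) : ZMod 2) * x j + ∑ w, (H i w : ZMod 2) * t w = 0) →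
    ∑ w, t w = 0 → ∃ α β : ZMod 2, (∀ j, x j = α * a j + β * z j) ∧
      ∀ w, t w = α * b w + β * y w
  hq : a q0 % 2 = 1
  hzq : z q0 % 2 = 0
  hz : (∑ i, z i * ∑ j, S i j * z j) % 4 ≠ 0
  pq : p = 0 ∨ q = 0 ∨ p + 2 ≤ q ∨ q + 2 ≤ p
  slot1 : p ≠ 0 → pos e1 + 1 = p ∧ pos f1 = p ∧ S e1 f1 = 1 ∧ a e1 ≠ a f1
  slot2 : q ≠ 0 → pos e + 2 = q ∧ pos g + 1 = q ∧ pos f = q ∧ pos f2 = q + 1 ∧ S e f = 1 ∧
    Ad g f = 1 ∧ Ad g f2 = 1

section

variable {V : Type} [Fintype V] [DecidableEq V] {c : ℤ} {m k p q : ℕ}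
  {S C Ad Re : V → V → ℤ} {H : V → Fin 3 → ℤ} {pos : V → ℕ} {a z : V → ℤ} {b y : Fin 3 → ℤ}
  {e1 f1 e g f f2 q0 : V}

theorem nblk {m k i j : ℕ} (hi : i < m) (hj : j < m) (hk : k + 5 ≤ m)
    (hk2 : m % 2 = 1 → k % 2 = 1 → k + 6 ≤ m) (h8 : 8 ≤ m)
    (h : (i ≤ j + 2 ∧ j ≤ i + 2) ∨ (i + m ≤ j + 2) ∨ (j + m ≤ i + 2)) : ¬ blk m k i j := by
  unfold blk cir mat
  split_ifs <;> omega

theorem iblk {m k i j : ℕ} (hk : 2 ≤ k)
    (h : (i + 3 = j) ∨ (j + 3 = i) ∨ (i + m = j + 3) ∨ (j + m = i + 3)) : blk m k i j := by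
  left
  unfold cir
  omega

theorem Core.nb (h : Core c m k p q V S C Ad Re H pos a z b y e1 f1 e g f f2 q0)
    (hm : k + 5 ≤ m) (hm2 : m % 2 = 1 → k % 2 = 1 → k + 6 ≤ m) (h8 : 8 ≤ m) (i j : V)
    (hr : S i j ≠ 0 ∨ C i j ≠ 0 ∨ Ad i j ≠ 0) : ¬ blk m k (pos i) (pos j) := by
  refine nblk (h.lt i) (h.lt j) hm hm2 h8 ?_
  have hi := h.lt i
  have hj := h.lt j
  rcases h.near i j hr with h1 | h1
  · unfold rel2 at h1
    omega
  · unfold exc at h1
    rcases h1 with ⟨hp, h1⟩ | ⟨hq, h1⟩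
    · have hs := h.slot1 hp
      rcases h1 with ⟨rfl, rfl⟩ | ⟨rfl, rfl⟩ <;> omega
    · have hs := h.slot2 hq
      rcases h1 with ⟨rfl, rfl⟩ | ⟨rfl, rfl⟩ | ⟨rfl, rfl⟩ | ⟨rfl, rfl⟩ | ⟨rfl, rfl⟩ |
        ⟨rfl, rfl⟩ <;> omega

theorem Core.rb (h : Core c m k p q V S C Ad Re H pos a z b y e1 f1 e g f f2 q0)
    (hk : 2 ≤ k) (i j : V) (hr : Re i j ≠ 0) : blk m k (pos i) (pos j) := by
  refine iblk hk ?_
  have h1 := h.rem i j hr
  unfold rel2 at h1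
  omega

theorem Core.mem (h : Core c m k p q V S C Ad Re H pos a z b y e1 f1 e g f f2 q0)
    (hk : 3 ≤ k) (hm : k + 5 ≤ m) (hm2 : m % 2 = 1 → k % 2 = 1 → k + 6 ≤ m)
    (c8 : m % 2 = 1 ∧ k % 2 = 1 → c = 8) (c6 : ¬ (m % 2 = 1 ∧ k % 2 = 1) → c = 6) :
    2 * m + 3 ∈ nutOrders (2 * k + 6) := by
  have h8 : 8 ≤ m := by omega
  set B : V → V → ℤ := fun i j => if blk m k (pos i) (pos j) then 1 else 0 with hB
  have hnb := h.nb hm hm2 h8
  have hrb := h.rb (by omega : 2 ≤ k)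
  have hB0 : ∀ i j, (S i j ≠ 0 ∨ C i j ≠ 0 ∨ Ad i j ≠ 0) → B i j = 0 := by
    intro i j hr
    simp only [hB]
    rw [if_neg (hnb i j hr)]
  have hB1 : ∀ i j, Re i j ≠ 0 → B i j = 1 := by
    intro i j hr
    simp only [hB]
    rw [if_pos (hrb i j hr)]
  have hBv : ∀ i j, B i j = 0 ∨ B i j = 1 := by
    intro i j
    simp only [hB]
    split_ifs <;> simp
  have hBs : ∀ i j, B i j = B j i := by
    intro i j
    simp only [hB]
    by_cases hb : blk m k (pos i) (pos j)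
    · rw [if_pos hb, if_pos ((blk_symm _ _ _ _).1 hb)]
    · rw [if_neg hb, if_neg (fun hb2 => hb ((blk_symm _ _ _ _).1 hb2))]
  have hRA : ∀ i j, Re i j ≠ 0 → Ad i j = 0 := by
    intro i j hr
    by_contra hA
    have e1 := hB0 i j (Or.inr (Or.inr hA))
    have e2 := hB1 i j hr
    rw [e1] at e2
    norm_num at e2
  set K : V → V → ℤ := fun i j => B i j + Ad i j - Re i j with hK
  have hK3 : ∀ i j, (Ad i j = 1 ∧ K i j = 1) ∨ (Re i j = 1 ∧ K i j = 0 ∧ B i j = 1) ∨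
      (Ad i j = 0 ∧ Re i j = 0 ∧ K i j = B i j) := by
    intro i j
    rcases h.av i j with e1 | e1
    · rcases h.rv i j with e2 | e2
      · right; right
        refine ⟨e1, e2, ?_⟩
        simp only [hK]
        rw [e1, e2]
        ring
      · right; left
        have e3 := hB1 i j (by rw [e2]; norm_num)
        refine ⟨e2, ?_, e3⟩
        simp only [hK]
        rw [e1, e2, e3]
        ring
    · left
      refine ⟨e1, ?_⟩
      have e3 := hB0 i j (Or.inr (Or.inr (by rw [e1]; norm_num)))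
      rcases h.rv i j with e2 | e2
      · simp only [hK]
        rw [e1, e2, e3]
        ring
      · have e4 := hB1 i j (by rw [e2]; norm_num)
        rw [e3] at e4
        norm_num at e4
  have hOD : OD V (2 * k + 6) S C K H := by
    refine ⟨h.val, h.cval, ?_, h.hv, h.symm, ?_, h.diag, h.cd, ?_, ?_, h.dSC, ?_, h.dCC, h.col,
      ?_, ?_⟩
    · intro i j
      rcases hK3 i j with e1 | e1 | e1
      · exact Or.inr e1.2
      · exact Or.inl e1.2.1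
      · rw [e1.2.2]
        exact hBv i j
    · intro i j
      simp only [hK]
      rw [hBs i j, h.asymm i j, h.rsymm i j]
    · intro i
      have hb : ¬ blk m k (pos i) (pos i) := nblk (h.lt i) (h.lt i) hm hm2 h8 (by omega)
      have hr : Re i i = 0 := by
        by_contra hr
        exact hb (hrb i i hr)
      simp only [hK, hB]
      rw [if_neg hb, h.ad0 i, hr]
      ring
    · intro i j hk
      rcases hK3 i j with e1 | e1 | e1
      · exact h.dSA i j (by rw [e1.1]; norm_num)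
      · exact absurd e1.2.1 hk
      · by_contra hS
        apply hk
        rw [e1.2.2]
        exact hB0 i j (Or.inl hS)
    · intro i j hc
      have e0 := hB0 i j (Or.inr (Or.inl hc))
      rcases hK3 i j with e1 | e1 | e1
      · have := h.dAC i j hc
        rw [this] at e1
        norm_num at e1
      · exact e1.2.1
      · rw [e1.2.2, e0]
    · intro i
      have e1 : ∑ j, B i j = (((range m).filter (fun j => blk m k (pos i) j)).card : ℤ) := by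
        rw [← card_pos pos h.card h.inj h.lt]
        simp only [hB]
        rw [Finset.sum_boole]
      have e2 : ∑ j, (S i j ^ 2 + 2 * K i j + C i j ^ 2 + C j i ^ 2) + ∑ w, H i w =
          (∑ j, (S i j ^ 2 + 2 * Ad i j - 2 * Re i j + C i j ^ 2 + C j i ^ 2) + ∑ w, H i w) +
          2 * ∑ j, B i j := by
        rw [Finset.mul_sum, add_right_comm, ← Finset.sum_add_distrib]
        congr 1
        refine Finset.sum_congr rfl fun j _ => ?_
        simp only [hK]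
        ring
      rw [e2, h.row i, e1, card_blk (h.lt i) hm hm2]
      by_cases hodd : m % 2 = 1 ∧ k % 2 = 1
      · rw [c8 hodd]
        by_cases hp0 : pos i = 0
        · rw [if_pos hp0, if_pos ⟨hodd.1, hodd.2, hp0⟩]
          push_cast [Nat.cast_sub (show 1 ≤ k by omega)]
          ring
        · rw [if_neg hp0, if_neg (by tauto)]
          push_cast
          ring
      · rw [c6 hodd, ite_self, if_neg (by tauto)]
        push_cast
        ring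
    · intro w
      rw [h.tri w]
      push_cast
      ring
  have := hOD.mem (by omega) a b z y q0 h.anz h.bnz h.hSa h.hCa h.hD h.hP h.hq h.hzq h.hz
  rw [h.card] at this
  exact this

end

end Pool.Agent.J6H77.Nut
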