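import Pool.Agent.J6H28.Nut.Bulk

/-!
# Regular nut graphs of odd order

The vertices are three special vertices together with pairs.  A symmetric matrix `S` with entries
`0, 1, -1` prescribes matchings (parallel or crossed) between and inside the pairs, a `0/1` matrix
`K` prescribes complete joins between pairs, a matrix `C` with entries `0, 1, -1` prescribes joins
of one vertex of a pair `j` to both vertices of a pair `i`, and `H` prescribes joins of a special
vertex to both vertices of a pair.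
-/

set_option autoImplicit false
set_option linter.unusedSectionVars false

namespace Pool.Agent.J6H77.Nut

open Finset Pool.Agent.TH296.Nut

/-- sign of a side -/
def sz (s : Bool) : ℤ := if s then -1 else 1

/-- `(c ^ 2 + sz s * c) / 2` -/
def hf (c : ℤ) (s : Bool) : ℤ := if (c = 1 ∧ s = false) ∨ (c = -1 ∧ s = true) then 1 else 0

theorem two_hf {c : ℤ} (hc : c = 0 ∨ c = 1 ∨ c = -1) (s : Bool) :
    2 * hf c s = c ^ 2 + sz s * c := by
  rcases hc with rfl | rfl | rfl <;> cases s <;> simp [hf, sz]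

theorem sz_xor (s t : Bool) : sz (xor s t) = sz s * sz t := by
  cases s <;> cases t <;> simp [sz]

theorem hf_zero (s : Bool) : hf 0 s = 0 := by simp [hf]

theorem hf_or (c : ℤ) (s : Bool) : hf c s = 0 ∨ hf c s = 1 := by
  unfold hf
  split_ifs <;> simp

/-- the sparse part and the bulk part of a regular graph on pairs and three special vertices -/
structure OD (V : Type) [Fintype V] (ρ : ℕ) (S C K : V → V → ℤ) (H : V → Fin 3 → ℤ) : Prop where
  val : ∀ i j, S i j = 0 ∨ S i j = 1 ∨ S i j = -1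
  cval : ∀ i j, C i j = 0 ∨ C i j = 1 ∨ C i j = -1
  kv : ∀ i j, K i j = 0 ∨ K i j = 1
  hv : ∀ i w, H i w = 0 ∨ H i w = 1
  symm : ∀ i j, S i j = S j i
  ks : ∀ i j, K i j = K j i
  diag : ∀ i, S i i ≠ 1
  cd : ∀ i, C i i = 0
  kd : ∀ i, K i i = 0
  dSK : ∀ i j, K i j ≠ 0 → S i j = 0
  dSC : ∀ i j, C i j ≠ 0 → S i j = 0
  dKC : ∀ i j, C i j ≠ 0 → K i j = 0
  dCC : ∀ i j, C i j ≠ 0 → C j i = 0
  col : ∀ j, ∑ i, C i j = 0
  deg : ∀ i, ∑ j, (S i j ^ 2 + 2 * K i j + C i j ^ 2 + C j i ^ 2) + ∑ w, H i w = (ρ : ℤ)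
  degT : ∀ w, 2 * ∑ i, H i w = (ρ : ℤ)

/-- the adjacency matrix -/
def AZ {V : Type} (S C K : V → V → ℤ) (H : V → Fin 3 → ℤ) :
    (V × Bool) ⊕ Fin 3 → (V × Bool) ⊕ Fin 3 → ℤ
  | .inl p, .inl q =>
    K p.1 q.1 + hf (S p.1 q.1) (xor p.2 q.2) + hf (C p.1 q.1) q.2 + hf (C q.1 p.1) p.2
  | .inl p, .inr w => H p.1 w
  | .inr w, .inl p => H p.1 w
  | .inr _, .inr _ => 0

section

variable {V : Type} [Fintype V] {ρ : ℕ} {S C K : V → V → ℤ} {H : V → Fin 3 → ℤ}

theorem AZ_symm (h : OD V ρ S C K H) (u v : (V × Bool) ⊕ Fin 3) :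
    AZ S C K H u v = AZ S C K H v u := by
  rcases u with ⟨i, s⟩ | w <;> rcases v with ⟨j, t⟩ | w' <;> simp only [AZ]
  rw [h.ks i j, h.symm i j, Bool.xor_comm s t]
  ring

theorem AZ_diag (h : OD V ρ S C K H) (u : (V × Bool) ⊕ Fin 3) : AZ S C K H u u = 0 := by
  rcases u with ⟨i, s⟩ | w <;> simp only [AZ]
  rw [h.kd i, h.cd i, hf_zero, Bool.xor_self]
  rcases h.val i i with e | e | e
  · rw [e, hf_zero]; norm_num
  · exact absurd e (h.diag i)
  · rw [e]; simp [hf]

theorem AZ_or (h : OD V ρ S C K H) (u v : (V × Bool) ⊕ Fin 3) :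
    AZ S C K H u v = 0 ∨ AZ S C K H u v = 1 := by
  rcases u with ⟨i, s⟩ | w <;> rcases v with ⟨j, t⟩ | w' <;> simp only [AZ]
  · by_cases c1 : C i j = 0
    · by_cases c2 : C j i = 0
      · rw [c1, c2, hf_zero, hf_zero]
        by_cases k1 : K i j = 0
        · rw [k1]
          rcases hf_or (S i j) (xor s t) with e | e <;> rw [e] <;> simp
        · rw [h.dSK i j k1, hf_zero]
          rcases h.kv i j with e | e
          · exact absurd e k1
          · rw [e]; simp
      · rw [h.symm i j, h.ks i j, h.dSC j i c2, h.dKC j i c2, c1, hf_zero, hf_zero]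
        rcases hf_or (C j i) s with e | e <;> rw [e] <;> simp
    · rw [h.dSC i j c1, h.dKC i j c1, h.dCC i j c1, hf_zero, hf_zero]
      rcases hf_or (C i j) t with e | e <;> rw [e] <;> simp
  · exact h.hv i w'
  · exact h.hv j w
  · left; trivial

theorem sum_U {R : Type} [AddCommMonoid R] (f : (V × Bool) ⊕ Fin 3 → R) :
    ∑ q, f q = ∑ j, (f (.inl (j, false)) + f (.inl (j, true))) + ∑ w, f (.inr w) := by
  rw [Fintype.sum_sum_type, Fintype.sum_prod_type]
  congr 1
  refine Finset.sum_congr rfl fun j _ => ?_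
  rw [Fintype.sum_bool, add_comm]

theorem row_pair {R : Type} [CommRing R] (h : OD V ρ S C K H) (v : (V × Bool) ⊕ Fin 3 → R)
    (i : V) (s : Bool) :
    2 * ∑ q, (AZ S C K H (.inl (i, s)) q : R) * v q =
      ∑ j, ((2 * K i j + S i j ^ 2 + C i j ^ 2 + C j i ^ 2 + sz s * C j i : ℤ) : R) *
        (v (.inl (j, false)) + v (.inl (j, true))) +
      ∑ j, ((sz s * S i j + C i j : ℤ) : R) * (v (.inl (j, false)) - v (.inl (j, true))) +
      2 * ∑ w, (H i w : R) * v (.inr w) := by
  rw [sum_U, mul_add, Finset.mul_sum, ← Finset.sum_add_distrib]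
  congr 1
  refine Finset.sum_congr rfl fun j _ => ?_
  simp only [AZ]
  have e1 : ∀ t, (2 : R) * (hf (S i j) (xor s t) : R) =
      (S i j : R) ^ 2 + (sz s : R) * (sz t : R) * (S i j : R) := by
    intro t
    have := two_hf (h.val i j) (xor s t)
    rw [sz_xor] at this
    have h2 : ((2 * hf (S i j) (xor s t) : ℤ) : R) =
      ((S i j ^ 2 + sz s * sz t * S i j : ℤ) : R) := by rw [this]
    push_cast at h2
    exact h2
  have e2 : ∀ t, (2 : R) * (hf (C i j) t : R) = (C i j : R) ^ 2 + (sz t : R) * (C i j : R) := by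
    intro t
    have := two_hf (h.cval i j) t
    have h2 : ((2 * hf (C i j) t : ℤ) : R) = ((C i j ^ 2 + sz t * C i j : ℤ) : R) := by rw [this]
    push_cast at h2
    exact h2
  have e3 : (2 : R) * (hf (C j i) s : R) = (C j i : R) ^ 2 + (sz s : R) * (C j i : R) := by
    have := two_hf (h.cval j i) s
    have h2 : ((2 * hf (C j i) s : ℤ) : R) = ((C j i ^ 2 + sz s * C j i : ℤ) : R) := by rw [this]
    push_cast at h2
    exact h2
  have s1 : ((sz false : ℤ) : R) = 1 := by simp [sz]
  have s2 : ((sz true : ℤ) : R) = -1 := by simp [sz]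
  have f1 := e1 false
  have f2 := e1 true
  have g1 := e2 false
  have g2 := e2 true
  rw [s1] at f1 g1
  rw [s2] at f2 g2
  push_cast
  linear_combination (v (.inl (j, false))) * (f1 + g1 + e3) + (v (.inl (j, true))) * (f2 + g2 + e3)

theorem row_tri {R : Type} [CommRing R] (v : (V × Bool) ⊕ Fin 3 → R) (w : Fin 3) :
    ∑ q, (AZ S C K H (.inr w) q : R) * v q =
      ∑ i, (H i w : R) * (v (.inl (i, false)) + v (.inl (i, true))) := by
  rw [sum_U]
  simp only [AZ, Int.cast_zero, zero_mul, Finset.sum_const_zero, add_zero]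
  refine Finset.sum_congr rfl fun j _ => ?_
  ring

/-- a symmetric quadratic form with vanishing diagonal is even -/
theorem even_form {U : Type} [Fintype U] [DecidableEq U] (A : U → U → ℤ)
    (hs : ∀ u v, A u v = A v u) (hd : ∀ u, A u u = 0) (r : U → ℤ) :
    (2 : ℤ) ∣ ∑ u, r u * ∑ v, A u v * r v := by
  have h1 : ((∑ u, r u * ∑ v, A u v * r v : ℤ) : ZMod 2) = 0 := by
    have e : ∑ u, r u * ∑ v, A u v * r v = ∑ p : U × U, r p.1 * (A p.1 p.2 * r p.2) := by
      rw [Fintype.sum_prod_type]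
      refine Finset.sum_congr rfl fun u _ => ?_
      rw [Finset.mul_sum]
    rw [e]
    push_cast
    refine Finset.sum_involution (fun p _ => (p.2, p.1)) ?_ ?_ ?_ ?_
    · intro p _
      simp only
      rw [hs p.2 p.1]
      have h2 : (2 : ZMod 2) = 0 := by decide
      linear_combination h2 * ((r p.1 : ZMod 2) * ((A p.1 p.2 : ZMod 2) * (r p.2 : ZMod 2)))
    · intro p _ hp heq
      apply hp
      have h3 : p.1 = p.2 := (Prod.ext_iff.1 heq).2
      rw [h3, hd]
      simp
    · intro p _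
      exact Finset.mem_univ _
    · intro p _
      rfl
  have := (ZMod.intCast_zmod_eq_zero_iff_dvd _ 2).1 h1
  exact_mod_cast this

end

end Pool.Agent.J6H77.Nut
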