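import Pool.Agent.J6H77.Nut.Half
import Pool.Agent.J6H28.Nut.Odd

/-! The nullity is one. -/

set_option autoImplicit false
set_option linter.unusedSectionVars false

namespace Pool.Agent.J6H77.Nut

open Finset Pool.Agent.TH296.Nut

variable {V : Type} [Fintype V] [DecidableEq V] {ρ : ℕ} {S C K : V → V → ℤ} {H : V → Fin 3 → ℤ}

theorem c2 : (2 : ZMod 2) = 0 := by decide

theorem sq2 {c : ℤ} (hc : c = 0 ∨ c = 1 ∨ c = -1) : ((c : ZMod 2)) ^ 2 = c := by
  rcases hc with rfl | rfl | rfl <;> decide

theorem szf : sz false = 1 := by simp [sz]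

theorem szt : sz true = -1 := by simp [sz]

theorem even_of {n : ℤ} (h : (n : ZMod 2) = 0) : (2 : ℤ) ∣ n := by
  have := (ZMod.intCast_zmod_eq_zero_iff_dvd n 2).1 h
  exact_mod_cast this

theorem cast_even {n : ℤ} (h : (2 : ℤ) ∣ n) : (n : ZMod 2) = 0 :=
  (ZMod.intCast_zmod_eq_zero_iff_dvd n 2).2 (by exact_mod_cast h)

/-- the total sum of a kernel vector vanishes -/
theorem sum_zero (h : OD V ρ S C K H) (hρ : 0 < ρ) (v : (V × Bool) ⊕ Fin 3 → ℤ)
    (hv : ∀ u, ∑ q, AZ S C K H u q * v q = 0) : ∑ q, v q = 0 := by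
  have hdeg : ∀ q, ∑ u, AZ S C K H q u = ρ := by
    intro q
    rcases q with ⟨i, s⟩ | w
    · have h1 := row_pair (R := ℤ) h (fun _ => 1) i s
      simp only [Int.cast_id, mul_one, sub_self, mul_zero, Finset.sum_const_zero, add_zero] at h1
      have h2 := h.deg i
      have h3 := h.col i
      have e : ∑ j, (2 * K i j + S i j ^ 2 + C i j ^ 2 + C j i ^ 2 + sz s * C j i) * (1 + 1) =
          2 * ∑ j, (S i j ^ 2 + 2 * K i j + C i j ^ 2 + C j i ^ 2) + 2 * sz s * ∑ j, C j i := by
        rw [Finset.mul_sum, Finset.mul_sum, ← Finset.sum_add_distrib]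
        refine Finset.sum_congr rfl fun j _ => ?_
        ring
      rw [e, h3] at h1
      linarith
    · have h1 := row_tri (R := ℤ) (S := S) (C := C) (K := K) (H := H) (fun _ => 1) w
      simp only [Int.cast_id, mul_one] at h1
      rw [h1, ← h.degT w, Finset.mul_sum]
      refine Finset.sum_congr rfl fun j _ => ?_
      ring
  have h1 : ∑ u, ∑ q, AZ S C K H u q * v q = 0 := Finset.sum_eq_zero fun u _ => hv u
  rw [Finset.sum_comm] at h1
  have h2 : ∀ q, ∑ u, AZ S C K H u q * v q = ρ * v q := by
    intro q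
    rw [← Finset.sum_mul]
    congr 1
    rw [← hdeg q]
    refine Finset.sum_congr rfl fun u _ => ?_
    exact AZ_symm h u q
  rw [Finset.sum_congr rfl fun q _ => h2 q, ← Finset.mul_sum] at h1
  rcases mul_eq_zero.1 h1 with h3 | h3
  · exfalso
    have : (ρ : ℤ) ≠ 0 := by exact_mod_cast hρ.ne'
    exact this h3
  · exact h3

/-- the quadratic form on an antisymmetric vector -/
theorem form_anti (h : OD V ρ S C K H) (z : V → ℤ) (y : Fin 3 → ℤ) (zt : (V × Bool) ⊕ Fin 3 → ℤ)
    (h1 : ∀ i s, zt (.inl (i, s)) = sz s * z i) (h2 : ∀ w, zt (.inr w) = y w) :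
    ∑ u, zt u * ∑ q, AZ S C K H u q * zt q = 2 * ∑ i, z i * ∑ j, S i j * z j := by
  have hr : ∀ i s, ∑ q, AZ S C K H (.inl (i, s)) q * zt q =
      sz s * ∑ j, S i j * z j + (∑ j, C i j * z j + ∑ w, H i w * y w) := by
    intro i s
    have e := row_pair (R := ℤ) h zt i s
    simp only [Int.cast_id, h1, h2, szf, szt] at e
    have e1 : ∑ j, (2 * K i j + S i j ^ 2 + C i j ^ 2 + C j i ^ 2 + sz s * C j i) *
        (1 * z j + -1 * z j) = 0 := by
      refine Finset.sum_eq_zero fun j _ => ?_
      ring
    have e2 : ∑ j, (sz s * S i j + C i j) * (1 * z j - -1 * z j) =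
        2 * (sz s * ∑ j, S i j * z j + ∑ j, C i j * z j) := by
      rw [Finset.mul_sum, ← Finset.sum_add_distrib, Finset.mul_sum]
      refine Finset.sum_congr rfl fun j _ => ?_
      ring
    rw [e1, e2] at e
    linarith
  have ht : ∀ w, ∑ q, AZ S C K H (.inr w) q * zt q = 0 := by
    intro w
    have e := row_tri (R := ℤ) (S := S) (C := C) (K := K) (H := H) zt w
    simp only [Int.cast_id, h1, szf, szt] at e
    rw [e]
    refine Finset.sum_eq_zero fun j _ => ?_
    ring
  rw [sum_U]
  simp only [ht, mul_zero, Finset.sum_const_zero, add_zero, hr, h1, szf, szt]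
  rw [Finset.mul_sum]
  refine Finset.sum_congr rfl fun i _ => ?_
  ring

/-- the 2-adic descent -/
theorem descent (h : OD V ρ S C K H) (hρ : 0 < ρ) (a : V → ℤ) (b : Fin 3 → ℤ) (z : V → ℤ)
    (y : Fin 3 → ℤ) (q : V)
    (hD : ∀ s : V → ZMod 2, (∀ i, ∑ j, ((S i j + C j i : ℤ) : ZMod 2) * s j = 0) →
      (∀ w, ∑ i, (H i w : ZMod 2) * s i = 0) → ∀ i, s i = 0)
    (hP : ∀ (p : V → ZMod 2) (t : Fin 3 → ZMod 2),
      (∀ i, ∑ j, ((S i j + C i j : ℤ) : ZMod 2) * p j + ∑ w, (H i w : ZMod 2) * t w = 0) →
      ∑ w, t w = 0 → ∃ α β : ZMod 2, (∀ j, p j = α * a j + β * z j) ∧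
        ∀ w, t w = α * b w + β * y w)
    (hq : a q % 2 = 1) (hzq : z q % 2 = 0) (hz : (∑ i, z i * ∑ j, S i j * z j) % 4 ≠ 0)
    (v : (V × Bool) ⊕ Fin 3 → ℤ) (hv : ∀ u, ∑ q, AZ S C K H u q * v q = 0)
    (hvq : v (.inl (q, false)) = 0) (x : (V × Bool) ⊕ Fin 3) : (2 : ℤ) ∣ v x := by
  have hrow : ∀ i s, ∑ j, (2 * K i j + S i j ^ 2 + C i j ^ 2 + C j i ^ 2 + sz s * C j i) *
        (v (.inl (j, false)) + v (.inl (j, true))) +
      ∑ j, (sz s * S i j + C i j) * (v (.inl (j, false)) - v (.inl (j, true))) +
      2 * ∑ w, H i w * v (.inr w) = 0 := by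
    intro i s
    have e := row_pair (R := ℤ) h v i s
    simp only [Int.cast_id] at e
    rw [← e, hv]
    norm_num
  have htri : ∀ w, ∑ i, H i w * (v (.inl (i, false)) + v (.inl (i, true))) = 0 := by
    intro w
    have e := row_tri (R := ℤ) (S := S) (C := C) (K := K) (H := H) v w
    simp only [Int.cast_id] at e
    rw [← e, hv]
  -- differences
  have hdif : ∀ i, ∑ j, (S i j * (v (.inl (j, false)) - v (.inl (j, true))) +
      C j i * (v (.inl (j, false)) + v (.inl (j, true)))) = 0 := by
    intro i
    have e1 := hrow i false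
    have e2 := hrow i true
    rw [szf] at e1
    rw [szt] at e2
    have e3 : 2 * ∑ j, (S i j * (v (.inl (j, false)) - v (.inl (j, true))) +
      C j i * (v (.inl (j, false)) + v (.inl (j, true)))) =
      (∑ j, (2 * K i j + S i j ^ 2 + C i j ^ 2 + C j i ^ 2 + 1 * C j i) *
        (v (.inl (j, false)) + v (.inl (j, true))) +
      ∑ j, (1 * S i j + C i j) * (v (.inl (j, false)) - v (.inl (j, true)))) -
      (∑ j, (2 * K i j + S i j ^ 2 + C i j ^ 2 + C j i ^ 2 + -1 * C j i) *
        (v (.inl (j, false)) + v (.inl (j, true))) +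
      ∑ j, (-1 * S i j + C i j) * (v (.inl (j, false)) - v (.inl (j, true)))) := by
      rw [← Finset.sum_add_distrib, ← Finset.sum_add_distrib, ← Finset.sum_sub_distrib,
        Finset.mul_sum]
      refine Finset.sum_congr rfl fun j _ => ?_
      ring
    linarith
  have hneg : ∀ x : ZMod 2, -x = x := fun x => ZMod.neg_eq_self_mod_two x
  have hsig : ∀ i, ((v (.inl (i, false)) + v (.inl (i, true)) : ℤ) : ZMod 2) = 0 := by
    refine hD _ ?_ ?_
    · intro i
      have e := congrArg (fun n : ℤ => (n : ZMod 2)) (hdif i)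
      push_cast at e
      push_cast
      rw [← e]
      refine Finset.sum_congr rfl fun j _ => ?_
      rw [sub_eq_add_neg, hneg]
      ring
    · intro w
      have e := congrArg (fun n : ℤ => (n : ZMod 2)) (htri w)
      push_cast at e
      push_cast
      rw [← e]
  have hs' : ∀ i, ∃ c : ℤ, v (.inl (i, false)) + v (.inl (i, true)) = 2 * c := fun i => by
    obtain ⟨c, hc⟩ := even_of (hsig i)
    exact ⟨c, hc⟩
  choose σ hσ using hs'
  have hvt : ∀ i, v (.inl (i, true)) = 2 * σ i - v (.inl (i, false)) := fun i => by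
    linarith [hσ i]
  have hsum := sum_zero h hρ v hv
  rw [sum_U] at hsum
  have ht0 : ∑ w, ((v (.inr w) : ℤ) : ZMod 2) = 0 := by
    have e := congrArg (fun n : ℤ => (n : ZMod 2)) hsum
    rw [Int.cast_add, Int.cast_sum, Finset.sum_eq_zero (fun i _ => hsig i), zero_add] at e
    push_cast at e
    exact e
  have hpr : ∀ i, ∑ j, ((S i j + C i j : ℤ) : ZMod 2) * ((v (.inl (j, false)) : ℤ) : ZMod 2) +
      ∑ w, (H i w : ZMod 2) * ((v (.inr w) : ℤ) : ZMod 2) = 0 := by
    intro i
    have e := hrow i false
    rw [szf] at e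
    have e1 : ∑ j, (2 * K i j + S i j ^ 2 + C i j ^ 2 + C j i ^ 2 + 1 * C j i) *
        (v (.inl (j, false)) + v (.inl (j, true))) +
      ∑ j, (1 * S i j + C i j) * (v (.inl (j, false)) - v (.inl (j, true))) =
      2 * ∑ j, ((2 * K i j + S i j ^ 2 + C i j ^ 2 + C j i ^ 2 + C j i) * σ j +
        (S i j + C i j) * (v (.inl (j, false)) - σ j)) := by
      rw [← Finset.sum_add_distrib, Finset.mul_sum]
      refine Finset.sum_congr rfl fun j _ => ?_
      rw [hvt j]
      ring
    rw [e1] at e
    have e2 : ∑ j, ((2 * K i j + S i j ^ 2 + C i j ^ 2 + C j i ^ 2 + C j i) * σ j +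
        (S i j + C i j) * (v (.inl (j, false)) - σ j)) + ∑ w, H i w * v (.inr w) = 0 := by
      linarith
    have e3 := congrArg (fun n : ℤ => (n : ZMod 2)) e2
    push_cast at e3
    push_cast
    rw [← e3]
    congr 1
    refine Finset.sum_congr rfl fun j _ => ?_
    rw [sq2 (h.val i j), sq2 (h.cval i j), sq2 (h.cval j i)]
    linear_combination (-((K i j : ZMod 2) * (σ j : ZMod 2)) - (C j i : ZMod 2) * (σ j : ZMod 2)) * c2
  obtain ⟨α, β, hpa, htb⟩ := hP _ _ hpr ht0
  have haq : ((a q : ℤ) : ZMod 2) = 1 := Pool.Agent.J6H28.Nut.cast1 _ hq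
  have hzq' : ((z q : ℤ) : ZMod 2) = 0 := Pool.Agent.J6H28.Nut.cast0 _ hzq
  have hα : α = 0 := by
    have := hpa q
    rw [hvq, haq, hzq'] at this
    simpa using this.symm
  subst hα
  simp only [zero_mul, zero_add] at hpa htb
  have hβ : β = 0 ∨ β = 1 := by
    revert β
    intro β _ _
    generalize β = w
    revert w
    decide
  rcases hβ with rfl | rfl
  · simp only [zero_mul] at hpa htb
    rcases x with ⟨i, s⟩ | w
    · cases s
      · exact even_of (hpa i)
      · rw [hvt i]
        have := even_of (hpa i)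
        exact dvd_sub (Dvd.intro _ rfl) this
    · exact even_of (htb w)
  · exfalso
    simp only [one_mul] at hpa htb
    set zt : (V × Bool) ⊕ Fin 3 → ℤ := fun u => match u with
      | .inl p => sz p.2 * z p.1
      | .inr w => y w with hzt
    have hdiv : ∀ u, ∃ r : ℤ, v u = zt u + 2 * r := by
      intro u
      have h1 : (2 : ℤ) ∣ v u - zt u := by
        rcases u with ⟨i, s⟩ | w
        · have h2 : (2 : ℤ) ∣ v (.inl (i, false)) - z i := by
            apply even_of
            push_cast
            rw [hpa i, sub_self]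
          cases s
          · simp only [hzt, szf, one_mul]
            exact h2
          · simp only [hzt, szt]
            rw [hvt i]
            obtain ⟨c, hc⟩ := h2
            exact ⟨σ i - c, by linarith⟩
        · apply even_of
          simp only [hzt]
          push_cast
          rw [htb w, sub_self]
      obtain ⟨c, hc⟩ := h1
      exact ⟨c, by linarith⟩
    choose r hr using hdiv
    have hf := form_anti h z y zt (fun i s => rfl) (fun w => rfl)
    -- bilinear computations
    have hb1 : ∑ u, zt u * ∑ q, AZ S C K H u q * zt q =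
        4 * ∑ u, r u * ∑ q, AZ S C K H u q * r q := by
      have e1 : ∀ u, ∑ q, AZ S C K H u q * zt q = -2 * ∑ q, AZ S C K H u q * r q := by
        intro u
        have e := hv u
        have e2 : ∑ q, AZ S C K H u q * v q =
            ∑ q, AZ S C K H u q * zt q + 2 * ∑ q, AZ S C K H u q * r q := by
          rw [Finset.mul_sum, ← Finset.sum_add_distrib]
          refine Finset.sum_congr rfl fun q _ => ?_
          rw [hr q]
          ring
        linarith
      have e3 : ∑ u, zt u * ∑ q, AZ S C K H u q * r q = ∑ u, r u * ∑ q, AZ S C K H u q * zt q := by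
        simp only [Finset.mul_sum]
        rw [Finset.sum_comm]
        refine Finset.sum_congr rfl fun u _ => Finset.sum_congr rfl fun q _ => ?_
        rw [AZ_symm h q u]
        ring
      have e4 : ∑ u, zt u * ∑ q, AZ S C K H u q * zt q =
          -2 * ∑ u, zt u * ∑ q, AZ S C K H u q * r q := by
        rw [Finset.mul_sum]
        refine Finset.sum_congr rfl fun u _ => ?_
        rw [e1 u]
        ring
      have e5 : ∑ u, r u * ∑ q, AZ S C K H u q * zt q =
          -2 * ∑ u, r u * ∑ q, AZ S C K H u q * r q := by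
        rw [Finset.mul_sum]
        refine Finset.sum_congr rfl fun u _ => ?_
        rw [e1 u]
        ring
      rw [e4, e3, e5]
      ring
    obtain ⟨c, hc⟩ := even_form (AZ S C K H) (AZ_symm h) (AZ_diag h) r
    rw [hb1, hc] at hf
    apply hz
    omega

theorem OD.mem (h : OD V ρ S C K H) (hρ : 0 < ρ) (a : V → ℤ) (b : Fin 3 → ℤ) (z : V → ℤ)
    (y : Fin 3 → ℤ) (q : V) (ha : ∀ i, a i ≠ 0) (hb : ∀ w, b w ≠ 0)
    (hSa : ∀ i, ∑ j, S i j * a j = 0) (hCa : ∀ i, ∑ j, C i j * a j + ∑ w, H i w * b w = 0)
    (hD : ∀ s : V → ZMod 2, (∀ i, ∑ j, ((S i j + C j i : ℤ) : ZMod 2) * s j = 0) →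
      (∀ w, ∑ i, (H i w : ZMod 2) * s i = 0) → ∀ i, s i = 0)
    (hP : ∀ (p : V → ZMod 2) (t : Fin 3 → ZMod 2),
      (∀ i, ∑ j, ((S i j + C i j : ℤ) : ZMod 2) * p j + ∑ w, (H i w : ZMod 2) * t w = 0) →
      ∑ w, t w = 0 → ∃ α β : ZMod 2, (∀ j, p j = α * a j + β * z j) ∧
        ∀ w, t w = α * b w + β * y w)
    (hq : a q % 2 = 1) (hzq : z q % 2 = 0) (hz : (∑ i, z i * ∑ j, S i j * z j) % 4 ≠ 0) :
    2 * Fintype.card V + 3 ∈ nutOrders ρ := by
  have hcard : Fintype.card ((V × Bool) ⊕ Fin 3) = 2 * Fintype.card V + 3 := by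
    simp [Fintype.card_sum, Fintype.card_prod, mul_comm]
  set x : (V × Bool) ⊕ Fin 3 → ℤ := fun u => match u with
      | .inl p => sz p.2 * a p.1
      | .inr w => b w with hx
  have hker : ∀ u, ∑ q, AZ S C K H u q * x q = 0 := by
    intro u
    rcases u with ⟨i, s⟩ | w
    · have e := row_pair (R := ℤ) h x i s
      simp only [Int.cast_id] at e
      have e1 : ∑ j, (2 * K i j + S i j ^ 2 + C i j ^ 2 + C j i ^ 2 + sz s * C j i) *
          (x (.inl (j, false)) + x (.inl (j, true))) = 0 := by
        refine Finset.sum_eq_zero fun j _ => ?_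
        simp only [hx, szf, szt]
        ring
      have e2 : ∑ j, (sz s * S i j + C i j) * (x (.inl (j, false)) - x (.inl (j, true))) =
          2 * (sz s * ∑ j, S i j * a j + ∑ j, C i j * a j) := by
        rw [Finset.mul_sum, ← Finset.sum_add_distrib, Finset.mul_sum]
        refine Finset.sum_congr rfl fun j _ => ?_
        simp only [hx, szf, szt]
        ring
      have e3 : ∑ w, H i w * x (.inr w) = ∑ w, H i w * b w := rfl
      rw [e1, e2, e3, hSa i] at e
      have := hCa i
      linarith
    · have e := row_tri (R := ℤ) (S := S) (C := C) (K := K) (H := H) x w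
      simp only [Int.cast_id] at e
      rw [e]
      refine Finset.sum_eq_zero fun j _ => ?_
      simp only [hx, szf, szt]
      ring
  have haq : a q ≠ 0 := ha q
  have haq' : (a q : ℝ) ≠ 0 := by exact_mod_cast haq
  have hnw : NW ((V × Bool) ⊕ Fin 3) ρ (fun u v => (AZ S C K H u v : ℝ)) (fun u => (x u : ℝ)) := by
    refine ⟨?_, ?_, ?_, ?_, ?_, ?_, ?_⟩
    · intro u v
      rcases AZ_or h u v with e | e
      · left; rw [e]; simp
      · right; rw [e]; simp
    · intro u v
      rw [AZ_symm h u v]
    · intro u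
      rw [AZ_diag h u]
      simp
    · intro u
      have hd : ∑ q, AZ S C K H u q = (ρ : ℤ) := by
        rcases u with ⟨i, s⟩ | w
        · have h1 := row_pair (R := ℤ) h (fun _ => 1) i s
          simp only [Int.cast_id, mul_one, sub_self, mul_zero, Finset.sum_const_zero,
            add_zero] at h1
          have h2 := h.deg i
          have h3 := h.col i
          have e : ∑ j, (2 * K i j + S i j ^ 2 + C i j ^ 2 + C j i ^ 2 + sz s * C j i) * (1 + 1) =
              2 * ∑ j, (S i j ^ 2 + 2 * K i j + C i j ^ 2 + C j i ^ 2) +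
                2 * sz s * ∑ j, C j i := by
            rw [Finset.mul_sum, Finset.mul_sum, ← Finset.sum_add_distrib]
            refine Finset.sum_congr rfl fun j _ => ?_
            ring
          rw [e, h3] at h1
          linarith
        · have h1 := row_tri (R := ℤ) (S := S) (C := C) (K := K) (H := H) (fun _ => 1) w
          simp only [Int.cast_id, mul_one] at h1
          rw [h1, ← h.degT w, Finset.mul_sum]
          refine Finset.sum_congr rfl fun j _ => ?_
          ring
      exact_mod_cast hd
    · intro u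
      have : x u ≠ 0 := by
        rcases u with ⟨i, s⟩ | w
        · simp only [hx]
          cases s
          · rw [szf, one_mul]; exact ha i
          · rw [szt]; simpa using ha i
        · exact hb w
      exact_mod_cast this
    · intro u
      exact_mod_cast hker u
    · intro g hg
      refine ⟨g (.inl (q, false)) / a q, ?_⟩
      have key := Pool.Agent.TH417.Nut.real_zero (R := Option ((V × Bool) ⊕ Fin 3))
        (J := (V × Bool) ⊕ Fin 3)
        (fun r j => match r with
          | some i => AZ S C K H i j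
          | none => if j = .inl (q, false) then 1 else 0) (by
          intro v hv
          refine descent h hρ a b z y q hD hP hq hzq hz v (fun u => hv (some u)) ?_
          have := hv none
          simpa using this)
        (fun u => g u - g (.inl (q, false)) / a q * x u) (by
          rintro (_ | i)
          · simp only [Int.cast_ite, Int.cast_one, Int.cast_zero, ite_mul, one_mul, zero_mul,
              Finset.sum_ite_eq', Finset.mem_univ, if_true]
            simp only [hx, szf, one_mul]
            field_simp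
            ring
          · simp only
            have e1 : ∑ j, (AZ S C K H i j : ℝ) * (g j - g (.inl (q, false)) / a q * x j) =
                ∑ j, (AZ S C K H i j : ℝ) * g j -
                  g (.inl (q, false)) / a q * ∑ j, (AZ S C K H i j : ℝ) * x j := by
              rw [Finset.mul_sum, ← Finset.sum_sub_distrib]
              refine Finset.sum_congr rfl fun j _ => ?_
              ring
            have e2 : ∑ j, (AZ S C K H i j : ℝ) * (x j : ℝ) = 0 := by exact_mod_cast hker i
            rw [e1, hg i, e2]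
            ring)
      intro u
      have := key u
      linarith
  have := hnw.mem (by rw [hcard]; omega)
  rw [hcard] at this
  exact this

end Pool.Agent.J6H77.Nut
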