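import Pool.Agent.J6H77.Nut.B3
import Pool.Agent.J6H77.Nut.B4
import Pool.Agent.J6H77.Nut.B5
import Pool.Agent.J6H77.Nut.Spor
import Pool.Agent.J6H28.Nut.Conv

/-! # Regular nut graphs of even degree and odd order -/

set_option autoImplicit false

namespace Pool.Agent.J6H77.Nut

open Pool.Agent.TH296.Nut Pool.Agent.J6H28.Nut

theorem ord3 {k : ℕ} (hk : 3 ≤ k) : 2 * (k + 5) + 3 ∈ nutOrders (2 * k + 6) := by
  by_cases h8 : 8 ≤ k
  · have h3 : k % 3 = 0 ∨ k % 3 = 1 ∨ k % 3 = 2 := by omega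
    rcases h3 with h3 | h3 | h3
    · obtain ⟨i, rfl⟩ : ∃ i, k = 9 + 3 * i := ⟨(k - 9) / 3, by omega⟩
      have := (c9_3.steps i).mem (by omega) (by omega) (by omega) (by omega) (fun _ => rfl)
      rw [show 9 + 3 * i + 5 = 14 + 3 * i by ring]
      exact this
    · obtain ⟨i, rfl⟩ : ∃ i, k = 10 + 3 * i := ⟨(k - 10) / 3, by omega⟩
      have := (c10_3.steps i).mem (by omega) (by omega) (by omega) (by omega) (fun _ => rfl)
      rw [show 10 + 3 * i + 5 = 15 + 3 * i by ring]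
      exact this
    · obtain ⟨i, rfl⟩ : ∃ i, k = 8 + 3 * i := ⟨(k - 8) / 3, by omega⟩
      have := (c8_3.steps i).mem (by omega) (by omega) (by omega) (by omega) (fun _ => rfl)
      rw [show 8 + 3 * i + 5 = 13 + 3 * i by ring]
      exact this
  · rcases (show k = 3 ∨ k = 4 ∨ k = 5 ∨ k = 6 ∨ k = 7 by omega) with
      rfl | rfl | rfl | rfl | rfl
    · exact c3_3.mem (by omega) (by omega) (by omega) (by omega) (fun _ => rfl)
    · exact x21_14
    · exact c5_3.mem (by omega) (by omega) (by omega) (by omega) (fun _ => rfl)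
    · exact x25_18
    · exact c7_3.mem (by omega) (by omega) (by omega) (by omega) (fun _ => rfl)

theorem mem2 {c : ℤ} {m k m' : ℕ} (h : HC2 c m k) (hk : 3 ≤ k) (hm : m ≤ m')
    (hpar : m' % 2 = m % 2) (h5 : k + 6 ≤ m) (c8 : m % 2 = 1 ∧ k % 2 = 1 → c = 8)
    (c6 : ¬ (m % 2 = 1 ∧ k % 2 = 1) → c = 6) :
    2 * m' + 3 ∈ nutOrders (2 * k + 6) := by
  obtain ⟨i, rfl⟩ : ∃ i, m' = m + 2 * i := ⟨(m' - m) / 2, by omega⟩
  refine (h.steps i).mem hk (by omega) (by omega) (fun h1 => c8 ⟨by omega, h1.2⟩)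
    (fun h1 => c6 (fun h2 => h1 ⟨by omega, h2.2⟩))

theorem ord_even {k m : ℕ} (hk : 3 ≤ k) (hm : k + 6 ≤ m) (hp : m % 2 = k % 2) :
    2 * m + 3 ∈ nutOrders (2 * k + 6) := by
  by_cases h7 : 7 ≤ k
  · have h6 : k % 6 = 0 ∨ k % 6 = 1 ∨ k % 6 = 2 ∨ k % 6 = 3 ∨ k % 6 = 4 ∨ k % 6 = 5 := by omega
    rcases h6 with h | h | h | h | h | h
    · obtain ⟨i, rfl⟩ : ∃ i, k = 12 + 3 * (2 * i) := ⟨(k - 12) / 6, by omega⟩
      exact mem2 (c12_4.steps (2 * i)).hc2 (by omega) (by omega) (by omega) (by omega)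
        (fun h1 => by omega) (fun _ => rfl)
    · obtain ⟨i, rfl⟩ : ∃ i, k = 7 + 3 * (2 * i) := ⟨(k - 7) / 6, by omega⟩
      exact mem2 (c7_4.steps (2 * i)).hc2 (by omega) (by omega) (by omega) (by omega)
        (fun _ => rfl) (fun h1 => by omega)
    · obtain ⟨i, rfl⟩ : ∃ i, k = 8 + 3 * (2 * i) := ⟨(k - 8) / 6, by omega⟩
      exact mem2 (c8_4.steps (2 * i)).hc2 (by omega) (by omega) (by omega) (by omega)
        (fun h1 => by omega) (fun _ => rfl)
    · obtain ⟨i, rfl⟩ : ∃ i, k = 9 + 3 * (2 * i) := ⟨(k - 9) / 6, by omega⟩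
      exact mem2 (c9_4.steps (2 * i)).hc2 (by omega) (by omega) (by omega) (by omega)
        (fun _ => rfl) (fun h1 => by omega)
    · obtain ⟨i, rfl⟩ : ∃ i, k = 10 + 3 * (2 * i) := ⟨(k - 10) / 6, by omega⟩
      exact mem2 (c10_4.steps (2 * i)).hc2 (by omega) (by omega) (by omega) (by omega)
        (fun h1 => by omega) (fun _ => rfl)
    · obtain ⟨i, rfl⟩ : ∃ i, k = 11 + 3 * (2 * i) := ⟨(k - 11) / 6, by omega⟩
      exact mem2 (c11_4.steps (2 * i)).hc2 (by omega) (by omega) (by omega) (by omega)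
        (fun _ => rfl) (fun h1 => by omega)
  · rcases (show k = 3 ∨ k = 4 ∨ k = 5 ∨ k = 6 by omega) with rfl | rfl | rfl | rfl
    · exact mem2 c3_4 (by omega) (by omega) (by omega) (by omega) (fun _ => rfl)
        (fun h1 => by omega)
    · by_cases h10 : m = 10
      · subst h10
        exact x23_14
      · exact mem2 c4_6 (by omega) (by omega) (by omega) (by omega) (fun h1 => by omega)
          (fun _ => rfl)
    · exact mem2 c5_4 (by omega) (by omega) (by omega) (by omega) (fun _ => rfl)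
        (fun h1 => by omega)
    · exact mem2 c6_4 (by omega) (by omega) (by omega) (by omega) (fun h1 => by omega)
        (fun _ => rfl)

theorem ord_odd {k m : ℕ} (hk : 3 ≤ k) (hm : k + 7 ≤ m) (hp : m % 2 ≠ k % 2) :
    2 * m + 3 ∈ nutOrders (2 * k + 6) := by
  by_cases h9 : 9 ≤ k
  · have h3 : k % 3 = 0 ∨ k % 3 = 1 ∨ k % 3 = 2 := by omega
    rcases h3 with h | h | h
    · obtain ⟨i, rfl⟩ : ∃ i, k = 9 + 3 * i := ⟨(k - 9) / 3, by omega⟩
      exact mem2 (c9_5.steps i).hc2 (by omega) (by omega) (by omega) (by omega)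
        (fun h1 => by omega) (fun _ => rfl)
    · obtain ⟨i, rfl⟩ : ∃ i, k = 10 + 3 * i := ⟨(k - 10) / 3, by omega⟩
      exact mem2 (c10_5.steps i).hc2 (by omega) (by omega) (by omega) (by omega)
        (fun h1 => by omega) (fun _ => rfl)
    · obtain ⟨i, rfl⟩ : ∃ i, k = 11 + 3 * i := ⟨(k - 11) / 3, by omega⟩
      exact mem2 (c11_5.steps i).hc2 (by omega) (by omega) (by omega) (by omega)
        (fun h1 => by omega) (fun _ => rfl)
  · rcases (show k = 3 ∨ k = 4 ∨ k = 5 ∨ k = 6 ∨ k = 7 ∨ k = 8 by omega) with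
      rfl | rfl | rfl | rfl | rfl | rfl
    · exact mem2 c3_5 (by omega) (by omega) (by omega) (by omega) (fun h1 => by omega)
        (fun _ => rfl)
    · exact mem2 c4_5 (by omega) (by omega) (by omega) (by omega) (fun h1 => by omega)
        (fun _ => rfl)
    · by_cases h12 : m = 12
      · subst h12
        exact x27_16
      · exact mem2 c5_7 (by omega) (by omega) (by omega) (by omega) (fun h1 => by omega)
          (fun _ => rfl)
    · exact mem2 c6_5 (by omega) (by omega) (by omega) (by omega) (fun h1 => by omega)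
        (fun _ => rfl)
    · exact mem2 c7_5 (by omega) (by omega) (by omega) (by omega) (fun h1 => by omega)
        (fun _ => rfl)
    · exact mem2 c8_5 (by omega) (by omega) (by omega) (by omega) (fun h1 => by omega)
        (fun _ => rfl)

/-- For every even `ρ ≥ 12` every odd `n ≥ ρ + 5` is the order of a `ρ`-regular nut graph. -/
theorem odd_order {ρ n : ℕ} (he : ρ % 2 = 0) (h12 : 12 ≤ ρ) (hn : n % 2 = 1) (h : ρ + 5 ≤ n) :
    n ∈ nutOrders ρ := by
  by_cases h5 : n = ρ + 5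
  · rw [h5]
    exact mem_five (by omega)
  · obtain ⟨k, rfl⟩ : ∃ k, ρ = 2 * k + 6 := ⟨(ρ - 6) / 2, by omega⟩
    obtain ⟨m, rfl⟩ : ∃ m, n = 2 * m + 3 := ⟨(n - 3) / 2, by omega⟩
    by_cases h3 : m = k + 5
    · subst h3
      exact ord3 (by omega)
    · by_cases hp : m % 2 = k % 2
      · exact ord_even (by omega) (by omega) hp
      · exact ord_odd (by omega) (by omega) hp

end Pool.Agent.J6H77.Nut
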