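import Pool.Agent.J6H77.Nut.Core

/-! # Insertion of three looped cells -/

set_option autoImplicit false
set_option linter.unusedSectionVars false

namespace Pool.Agent.J6H77.Nut

open Finset Pool.Agent.TH296.Nut Pool.Agent.J6H28.Nut

variable {V : Type} [Fintype V] [DecidableEq V] {c : ℤ} {m k p q : ℕ}
  {S C Ad Re : V → V → ℤ} {H : V → Fin 3 → ℤ} {pos : V → ℕ} {a z : V → ℤ} {b y : Fin 3 → ℤ}
  {e1 f1 e g f f2 q0 : V}

/-- extension of a matrix by zero -/
def xz {V : Type} {d : ℕ} (M : V → V → ℤ) : V ⊕ Fin d → V ⊕ Fin d → ℤ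
  | .inl i, .inl j => M i j
  | .inl _, .inr _ => 0
  | .inr _, _ => 0

/-- extension of the incidences with the special vertices -/
def xh {V : Type} {d : ℕ} (r : ℤ) (H : V → Fin 3 → ℤ) : V ⊕ Fin d → Fin 3 → ℤ
  | .inl i, w => H i w
  | .inr _, _ => r

/-- new positions -/
def nps {V : Type} (d cut : ℕ) (pos : V → ℕ) : V ⊕ Fin d → ℕ
  | .inl v => if pos v < cut then pos v else pos v + d
  | .inr t => cut + t

theorem nps_inj {d cut : ℕ} (hi : Function.Injective pos) :
    Function.Injective (nps d cut pos) := by
  intro x y hxy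
  rcases x with i | s <;> rcases y with j | t <;> simp only [nps] at hxy
  · congr 1
    apply hi
    split_ifs at hxy <;> omega
  · exfalso
    have := t.2
    split_ifs at hxy <;> omega
  · exfalso
    have := s.2
    split_ifs at hxy <;> omega
  · congr 1
    ext
    omega

theorem nps_lt {d cut : ℕ} (hl : ∀ v, pos v < m) (hc : cut ≤ m) (x : V ⊕ Fin d) :
    nps d cut pos x < m + d := by
  rcases x with i | t <;> simp only [nps]
  · have := hl i
    split_ifs <;> omega
  · have := t.2
    omega

theorem nps_zero {d cut : ℕ} (hc : cut ≠ 0) (v : V) :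
    (nps d cut pos (.inl v) = 0) ↔ (pos v = 0) := by
  simp only [nps]
  split_ifs with h5
  · rfl
  · constructor
    · intro h6
      omega
    · intro h6
      omega

theorem xz_row {R : Type} [CommRing R] {d : ℕ} (M : V → V → ℤ) (i : V) (u : V ⊕ Fin d → R) :
    ∑ r, ((xz (d := d) M (.inl i) r : ℤ) : R) * u r = ∑ j, (M i j : R) * u (.inl j) := by
  rw [Fintype.sum_sum_type]
  simp [xz]

theorem xz_row0 {R : Type} [CommRing R] {d : ℕ} (M : V → V → ℤ) (t : Fin d) (u : V ⊕ Fin d → R) :
    ∑ r, ((xz (d := d) M (.inr t) r : ℤ) : R) * u r = 0 := by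
  refine Finset.sum_eq_zero fun r _ => ?_
  simp [xz]

theorem xz_col {R : Type} [CommRing R] {d : ℕ} (M : V → V → ℤ) (i : V) (u : V ⊕ Fin d → R) :
    ∑ r, ((xz (d := d) M r (.inl i) : ℤ) : R) * u r = ∑ j, (M j i : R) * u (.inl j) := by
  rw [Fintype.sum_sum_type]
  simp [xz]

theorem xz_col0 {R : Type} [CommRing R] {d : ℕ} (M : V → V → ℤ) (t : Fin d) (u : V ⊕ Fin d → R) :
    ∑ r, ((xz (d := d) M r (.inr t) : ℤ) : R) * u r = 0 := by
  refine Finset.sum_eq_zero fun r _ => ?_
  rcases r with i | s <;> simp [xz]

theorem xz_or {d : ℕ} {M : V → V → ℤ} (h : ∀ i j, M i j = 0 ∨ M i j = 1) (x y : V ⊕ Fin d) :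
    xz M x y = 0 ∨ xz M x y = 1 := by
  rcases x with i | s <;> rcases y with j | t <;> simp only [xz]
  · exact h i j
  · exact Or.inl trivial
  · exact Or.inl trivial
  · exact Or.inl trivial

theorem xz_symm {d : ℕ} {M : V → V → ℤ} (h : ∀ i j, M i j = M j i) (x y : V ⊕ Fin d) :
    xz M x y = xz M y x := by
  rcases x with i | s <;> rcases y with j | t <;> simp only [xz]
  exact h i j

/-- the new second cut -/
def cut2 (p q d : ℕ) : ℕ := if p < q then q + d else q

theorem rel2_ins {m p q d lo hi i j : ℕ} (hp : p ≠ 0) (hpq : p ≠ q)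
    (h : rel2 m p q lo hi i j) :
    rel2 (m + d) p (cut2 p q d) lo hi (if i < p then i else i + d) (if j < p then j else j + d) := by
  unfold rel2 cut2 at *
  split_ifs <;> omega

theorem Core.step1 (h : Core c m k p q V S C Ad Re H pos a z b y e1 f1 e g f f2 q0)
    (hp : p ≠ 0) :
    Core c (m + 3) (k + 3) p (cut2 p q 3) (V ⊕ Fin 3) (ins S e1 f1) (xz C) (xz Ad) (xz Re)
      (xh 1 H) (nps 3 p pos) (ext e1 f1 a) (ext e1 f1 z) b y
      (.inl e1) (.inr 0) (.inl e) (.inl g) (.inl f) (.inl f2) (.inl q0) := by
  obtain ⟨pe, pf, Sef, aef⟩ := h.slot1 hp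
  have hpq := h.pq
  have hef : e1 ≠ f1 := by
    intro he
    rw [he] at pe
    omega
  have hpqn : p ≠ q := by omega
  have hneg : ∀ x : ZMod 2, -x = x := fun x => ZMod.neg_eq_self_mod_two x
  have hnear : ∀ i j, rel2 m p q 0 2 (pos i) (pos j) →
      rel2 (m + 3) p (cut2 p q 3) 0 2 (nps 3 p pos (.inl i)) (nps 3 p pos (.inl j)) :=
    fun i j hr => rel2_ins hp hpqn hr
  have hSf : S f1 e1 = 1 := by rw [h.symm]; exact Sef
  have hC1 : C e1 f1 = 0 := by
    by_contra hc
    have := h.dSC _ _ hc
    rw [Sef] at this
    norm_num at this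
  have hC2 : C f1 e1 = 0 := by
    by_contra hc
    have := h.dSC _ _ hc
    rw [hSf] at this
    norm_num at this
  have hA1 : Ad e1 f1 = 0 := by
    by_contra hc
    have := h.dSA _ _ hc
    rw [Sef] at this
    norm_num at this
  have hA2 : Ad f1 e1 = 0 := by rw [h.asymm]; exact hA1
  refine ⟨?_, nps_inj h.inj, nps_lt h.lt ?_, ins_val S h.val e1 f1, ?_, xz_or h.av, xz_or h.rv,
    ?_, ins_symm S h.symm e1 f1, xz_symm h.asymm, xz_symm h.rsymm, ?_, ?_, ?_, ?_, ?_, ?_, ?_,
    ?_, ?_, ?_, ?_, ?_, ?_, h.bnz, h.bs, ?_, ?_, ?_, ?_, h.hq, h.hzq, ?_, ?_, ?_, ?_⟩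
  · rw [Fintype.card_sum, h.card, Fintype.card_fin]
  · have := h.lt f1
    omega
  · intro x y'
    rcases x with i | s <;> rcases y' with j | t <;> simp only [xz]
    · exact h.cval i j
    · exact Or.inl trivial
    · exact Or.inl trivial
    · exact Or.inl trivial
  · intro x w
    rcases x with i | s <;> simp only [xh]
    · exact h.hv i w
    · exact Or.inr trivial
  · intro x
    rcases x with i | t <;> simp only [ins]
    · split_ifs
      · norm_num
      · exact h.diag i
    · norm_num
  · intro x
    rcases x with i | t <;> simp only [xz]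
    exact h.cd i
  · intro x
    rcases x with i | t <;> simp only [xz]
    exact h.ad0 i
  · intro x y' hxy
    rcases x with i | s <;> rcases y' with j | t <;> simp only [xz] at hxy
    · simp only [ins]
      split_ifs
      · rfl
      · exact h.dSA i j hxy
    · exact absurd rfl hxy
    · exact absurd rfl hxy
    · exact absurd rfl hxy
  · intro x y' hxy
    rcases x with i | s <;> rcases y' with j | t <;> simp only [xz] at hxy
    · simp only [ins]
      split_ifs
      · rfl
      · exact h.dSC i j hxy
    · exact absurd rfl hxy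
    · exact absurd rfl hxy
    · exact absurd rfl hxy
  · intro x y' hxy
    rcases x with i | s <;> rcases y' with j | t <;> simp only [xz] at hxy ⊢
    exact h.dAC i j hxy
  · intro x y' hxy
    rcases x with i | s <;> rcases y' with j | t <;> simp only [xz] at hxy ⊢
    exact h.dCC i j hxy
  · intro x
    rcases x with i | t
    · have := xz_col (R := ℤ) (d := 3) C i (fun _ => 1)
      simp only [Int.cast_id, mul_one] at this
      rw [this, h.col]
    · have := xz_col0 (R := ℤ) (d := 3) C t (fun _ => 1)
      simp only [Int.cast_id, mul_one] at this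
      exact this
  · intro x
    rcases x with i | t
    · have hz0 : (nps 3 p pos (.inl i) = 0) ↔ (pos i = 0) := nps_zero hp i
      simp only [hz0]
      rw [← h.row i]
      have e0 := ins_sq S h.symm e1 f1 hef Sef i
      have e2 : ∀ (M : V → V → ℤ), ∑ r, xz (d := 3) M (.inl i) r = ∑ j, M i j := by
        intro M
        have := xz_row (R := ℤ) (d := 3) M i (fun _ => 1)
        simpa using this
      have e3 : ∀ (M : V → V → ℤ), ∑ r, xz (d := 3) M (.inl i) r ^ 2 = ∑ j, M i j ^ 2 := by
        intro M
        rw [Fintype.sum_sum_type]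
        simp [xz]
      have e4 : ∀ (M : V → V → ℤ), ∑ r, xz (d := 3) M r (.inl i) ^ 2 = ∑ j, M j i ^ 2 := by
        intro M
        rw [Fintype.sum_sum_type]
        simp [xz]
      simp only [Finset.sum_add_distrib, Finset.sum_sub_distrib, ← Finset.mul_sum]
      rw [e0, e2, e2, e3, e4]
      rfl
    · rw [if_neg (by simp only [nps]; omega)]
      have e0 : ∑ r, (ins S e1 f1 (.inr t) r ^ 2 + 2 * xz (d := 3) Ad (.inr t) r -
          2 * xz (d := 3) Re (.inr t) r + xz (d := 3) C (.inr t) r ^ 2 +
          xz (d := 3) C r (.inr t) ^ 2) = ∑ r, ins S e1 f1 (.inr t) r ^ 2 := by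
        refine Finset.sum_congr rfl fun r _ => ?_
        rcases r with j | s <;> simp [xz]
      have e5 : ∑ w, xh (d := 3) 1 H (.inr t) w = 3 := by
        simp [xh]
      rw [e0, e5, Fintype.sum_sum_type, Fin.sum_univ_three]
      fin_cases t
      · have e1' : ∀ i, ins S e1 f1 (.inr 0) (.inl i) ^ 2 = if i = e1 then 1 else 0 := by
          intro i
          simp only [ins]
          by_cases i1 : i = e1 <;> simp [i1]
        simp only [Fin.zero_eta, Fin.isValue]
        rw [Finset.sum_congr rfl fun i _ => e1' i]
        simp [ins]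
      · have e1' : ∀ i, ins S e1 f1 (.inr 1) (.inl i) ^ 2 = 0 := by
          intro i
          simp [ins]
        simp only [Fin.mk_one, Fin.isValue]
        rw [Finset.sum_congr rfl fun i _ => e1' i]
        simp [ins]
      · have e1' : ∀ i, ins S e1 f1 (.inr 2) (.inl i) ^ 2 = if i = f1 then 1 else 0 := by
          intro i
          simp only [ins]
          by_cases i1 : i = f1 <;> simp [i1]
        simp only [Fin.reduceFinMk, Fin.isValue]
        rw [Finset.sum_congr rfl fun i _ => e1' i]
        simp [ins]
  · intro w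
    rw [Fintype.sum_sum_type]
    simp only [xh]
    rw [h.tri w]
    simp
  · intro x y' hxy
    have hq' : q ≠ 0 → cut2 p q 3 ≠ 0 := by
      intro hq
      unfold cut2
      split_ifs <;> omega
    rcases x with i | s <;> rcases y' with j | t
    · have hor : S i j ≠ 0 ∨ C i j ≠ 0 ∨ Ad i j ≠ 0 := by
        rcases hxy with h1 | h1 | h1
        · left
          simp only [ins] at h1
          split_ifs at h1
          · exact absurd rfl h1
          · exact h1
        · exact Or.inr (Or.inl h1)
        · exact Or.inr (Or.inr h1)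
      rcases h.near i j hor with h2 | h2
      · exact Or.inl (hnear i j h2)
      · right
        unfold exc at h2 ⊢
        rcases h2 with ⟨_, h2⟩ | ⟨hq, h2⟩
        · exfalso
          rcases h2 with ⟨rfl, rfl⟩ | ⟨rfl, rfl⟩
          · rcases hxy with h3 | h3 | h3
            · simp [ins] at h3
            · exact h3 hC1
            · exact h3 hA1
          · rcases hxy with h3 | h3 | h3
            · simp [ins] at h3
            · exact h3 hC2
            · exact h3 hA2
        · right
          refine ⟨hq' hq, ?_⟩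
          rcases h2 with ⟨rfl, rfl⟩ | ⟨rfl, rfl⟩ | ⟨rfl, rfl⟩ | ⟨rfl, rfl⟩ | ⟨rfl, rfl⟩ |
            ⟨rfl, rfl⟩ <;> simp
    · have h1 : ins S e1 f1 (.inl i) (.inr t) ≠ 0 := by
        rcases hxy with h1 | h1 | h1
        · exact h1
        · exact absurd rfl h1
        · exact absurd rfl h1
      simp only [ins] at h1
      split_ifs at h1 with h2 h3
      · right
        left
        exact ⟨hp, Or.inl ⟨by rw [h2.1], by rw [h2.2]⟩⟩
      · left
        rw [h3.1, h3.2]
        unfold rel2 cut2
        simp only [nps, pf]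
        rw [if_neg (lt_irrefl p)]
        left
        have : ((2 : Fin 3) : ℕ) = 2 := rfl
        rw [this]
        split_ifs <;> omega
      · exact absurd rfl h1
    · have h1 : ins S e1 f1 (.inr s) (.inl j) ≠ 0 := by
        rcases hxy with h1 | h1 | h1
        · exact h1
        · exact absurd rfl h1
        · exact absurd rfl h1
      simp only [ins] at h1
      split_ifs at h1 with h2 h3
      · right
        left
        exact ⟨hp, Or.inr ⟨by rw [h2.2], by rw [h2.1]⟩⟩
      · left
        rw [h3.1, h3.2]
        unfold rel2 cut2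
        simp only [nps, pf]
        rw [if_neg (lt_irrefl p)]
        left
        have : ((2 : Fin 3) : ℕ) = 2 := rfl
        rw [this]
        split_ifs <;> omega
      · exact absurd rfl h1
    · left
      unfold rel2 cut2
      simp only [nps]
      left
      have h1 := s.2
      have h3 := t.2
      split_ifs <;> omega
  · intro x y' hxy
    rcases x with i | s <;> rcases y' with j | t <;> simp only [xz] at hxy
    · exact rel2_ins hp hpqn (h.rem i j hxy)
    · exact absurd rfl hxy
    · exact absurd rfl hxy
    · exact absurd rfl hxy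
  · intro x
    rcases x with i | t
    · exact h.anz i
    · fin_cases t
      · simp [Pool.Agent.J6H28.Nut.ext, h.anz f1]
      · simp only [Pool.Agent.J6H28.Nut.ext]
        simp [sub_eq_zero, aef.symm]
      · simp [Pool.Agent.J6H28.Nut.ext, h.anz e1]
  · intro x
    have := ext_row (R := ℤ) S h.symm e1 f1 hef Sef a x
    simp only [Int.cast_id] at this
    rw [this]
    rcases x with i | t
    · exact h.hSa i
    · rfl
  · intro x
    rcases x with i | t
    · have := xz_row (R := ℤ) (d := 3) C i (ext e1 f1 a)
      simp only [Int.cast_id] at this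
      rw [this]
      exact h.hCa i
    · have := xz_row0 (R := ℤ) (d := 3) C t (ext e1 f1 a)
      simp only [Int.cast_id] at this
      rw [this]
      simp only [xh, one_mul, zero_add]
      exact h.bs
  · intro s hs hw x
    have hs' : ∀ x, ∑ r, ((ins S e1 f1 x r : ℤ) : ZMod 2) * s r +
        ∑ r, ((xz (d := 3) C r x : ℤ) : ZMod 2) * s r = 0 := by
      intro x
      rw [← hs x, ← Finset.sum_add_distrib]
      refine Finset.sum_congr rfl fun r _ => ?_
      push_cast
      ring
    have r0 := hs' (.inr 0)
    have r1 := hs' (.inr 1)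
    have r2 := hs' (.inr 2)
    rw [row_inr0, xz_col0, add_zero] at r0
    rw [row_inr1, xz_col0, add_zero] at r1
    rw [row_inr2 S e1 f1, xz_col0, add_zero] at r2
    have e2 : (2 : ZMod 2) = 0 := by decide
    have q1 : s (.inr 0) = s (.inl f1) := by
      linear_combination r1 + r2
    have q3 : s (.inr 1) = s (.inl f1) - s (.inl e1) := by
      linear_combination r0 + q1
    have q2 : s (.inr 2) = - s (.inl e1) := by
      linear_combination r1 - q1 + q3
    have k1 : ∀ i, ∑ j, ((S i j + C j i : ℤ) : ZMod 2) * s (.inl j) = 0 := by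
      intro i
      have := hs' (.inl i)
      rw [row_inl S h.symm e1 f1 hef Sef, q1, q2, xz_col] at this
      simp only [sub_self, neg_neg, ite_self, add_zero] at this
      rw [← this, ← Finset.sum_add_distrib]
      refine Finset.sum_congr rfl fun r _ => ?_
      push_cast
      ring
    have k2 : ∀ w, ∑ i, (H i w : ZMod 2) * s (.inl i) = 0 := by
      intro w
      have := hw w
      rw [Fintype.sum_sum_type, Fin.sum_univ_three] at this
      simp only [xh, Int.cast_one, one_mul] at this
      rw [q1, q3, q2] at this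
      rw [← this]
      linear_combination (s (.inl e1) - s (.inl f1)) * e2
    have k3 := h.hD (fun i => s (.inl i)) k1 k2
    rcases x with i | t
    · exact k3 i
    · have he := k3 e1
      have hf := k3 f1
      fin_cases t
      · simp [q1, hf]
      · simp [q3, he, hf]
      · simp [q2, he]
  · intro x t hx ht
    have hx' : ∀ u, ∑ r, ((ins S e1 f1 u r : ℤ) : ZMod 2) * x r +
        ∑ r, ((xz (d := 3) C u r : ℤ) : ZMod 2) * x r +
        ∑ w, (xh (d := 3) 1 H u w : ZMod 2) * t w = 0 := by
      intro u
      rw [← hx u, ← Finset.sum_add_distrib]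
      congr 1
      refine Finset.sum_congr rfl fun r _ => ?_
      push_cast
      ring
    have hw0 : ∀ s : Fin 3, ∑ w, ((xh (d := 3) 1 H (.inr s) w : ℤ) : ZMod 2) * t w = 0 := by
      intro s
      simp only [xh, Int.cast_one, one_mul]
      exact ht
    have r0 := hx' (.inr 0)
    have r1 := hx' (.inr 1)
    have r2 := hx' (.inr 2)
    rw [row_inr0, xz_row0, add_zero, hw0, add_zero] at r0
    rw [row_inr1, xz_row0, add_zero, hw0, add_zero] at r1
    rw [row_inr2 S e1 f1, xz_row0, add_zero, hw0, add_zero] at r2
    have q1 : x (.inr 0) = x (.inl f1) := by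
      linear_combination r1 + r2
    have q3 : x (.inr 1) = x (.inl f1) - x (.inl e1) := by
      linear_combination r0 + q1
    have q2 : x (.inr 2) = - x (.inl e1) := by
      linear_combination r1 - q1 + q3
    have k1 : ∀ i, ∑ j, ((S i j + C i j : ℤ) : ZMod 2) * x (.inl j) +
        ∑ w, (H i w : ZMod 2) * t w = 0 := by
      intro i
      have := hx' (.inl i)
      rw [row_inl S h.symm e1 f1 hef Sef, q1, q2, xz_row] at this
      simp only [sub_self, neg_neg, ite_self, add_zero] at this
      rw [← this, ← Finset.sum_add_distrib]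
      congr 1
      refine Finset.sum_congr rfl fun r _ => ?_
      push_cast
      ring
    obtain ⟨α, β, h1, h2⟩ := h.hP (fun i => x (.inl i)) t k1 ht
    refine ⟨α, β, ?_, h2⟩
    intro u
    rcases u with i | s
    · exact h1 i
    · have he := h1 e1
      have hf := h1 f1
      fin_cases s
      · simp [q1, hf, Pool.Agent.J6H28.Nut.ext]
      · simp only [Fin.mk_one, Fin.isValue, q3, he, hf, Pool.Agent.J6H28.Nut.ext]
        simp
        ring
      · simp only [Fin.reduceFinMk, Fin.isValue, q2, he, Pool.Agent.J6H28.Nut.ext]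
        simp
        ring
  · have e0 : ∑ u, ext e1 f1 z u * ∑ r, ins S e1 f1 u r * ext e1 f1 z r =
        ∑ i, z i * ∑ j, S i j * z j := by
      rw [Fintype.sum_sum_type]
      have e1' : ∀ s : Fin 3, ∑ r, ins S e1 f1 (.inr s) r * ext e1 f1 z r = 0 := by
        intro s
        have := ext_row (R := ℤ) S h.symm e1 f1 hef Sef z (.inr s)
        simpa using this
      have e2' : ∀ i, ∑ r, ins S e1 f1 (.inl i) r * ext e1 f1 z r = ∑ j, S i j * z j := by
        intro i
        have := ext_row (R := ℤ) S h.symm e1 f1 hef Sef z (.inl i)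
        simpa using this
      simp only [e1', e2', mul_zero, Finset.sum_const_zero, add_zero]
      rfl
    rw [e0]
    exact h.hz
  · unfold cut2
    split_ifs <;> omega
  · intro _
    refine ⟨?_, ?_, ?_, ?_⟩
    · simp only [nps]
      rw [if_pos (by omega)]
      exact pe
    · simp [nps]
    · simp [ins]
    · simp only [Pool.Agent.J6H28.Nut.ext, if_true]
      exact aef
  · intro hq
    have hq0 : q ≠ 0 := by
      intro h0
      apply hq
      unfold cut2
      rw [h0, if_neg (by omega)]
    obtain ⟨s1, s2, s3, s4, s5, s6, s7⟩ := h.slot2 hq0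
    have hne : ¬ ((e = e1 ∧ f = f1) ∨ (e = f1 ∧ f = e1)) := by
      rintro (⟨rfl, rfl⟩ | ⟨rfl, rfl⟩) <;> omega
    refine ⟨?_, ?_, ?_, ?_, ?_, s6, s7⟩
    · simp only [nps, cut2]
      split_ifs <;> omega
    · simp only [nps, cut2]
      split_ifs <;> omega
    · simp only [nps, cut2]
      split_ifs <;> omega
    · simp only [nps, cut2]
      split_ifs <;> omega
    · simp only [ins]
      rw [if_neg hne]
      exact s5

end Pool.Agent.J6H77.Nut
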