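import Pool.Agent.J6H77.Nut.Step1

/-! # Insertion of two unlooped cells -/

set_option autoImplicit false
set_option linter.unusedSectionVars false

namespace Pool.Agent.J6H77.Nut

open Finset Pool.Agent.TH296.Nut Pool.Agent.J6H28.Nut

variable {V : Type} [Fintype V] [DecidableEq V] {c : ℤ} {m k p q : ℕ}
  {S C Ad Re : V → V → ℤ} {H : V → Fin 3 → ℤ} {pos : V → ℕ} {a z : V → ℤ} {b y : Fin 3 → ℤ}
  {e1 f1 e g f f2 q0 : V}

/-- subdivision of the edge `e f` by two unlooped cells -/
def in2 (S : V → V → ℤ) (e f : V) : V ⊕ Fin 2 → V ⊕ Fin 2 → ℤ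
  | .inl i, .inl j => if (i = e ∧ j = f) ∨ (i = f ∧ j = e) then 0 else S i j
  | .inl i, .inr t => if i = e ∧ t = 0 then 1 else if i = f ∧ t = 1 then -1 else 0
  | .inr t, .inl i => if i = e ∧ t = 0 then 1 else if i = f ∧ t = 1 then -1 else 0
  | .inr s, .inr t => if s = t then 0 else 1

/-- the new additional joins -/
def ad2 (Ad : V → V → ℤ) (g f f2 : V) : V ⊕ Fin 2 → V ⊕ Fin 2 → ℤ
  | .inl i, .inl j => if (i = g ∧ (j = f ∨ j = f2)) ∨ (j = g ∧ (i = f ∨ i = f2)) then 0 else Ad i j
  | .inl i, .inr t => if i = g ∨ (i = f ∧ t = 0) ∨ (i = f2 ∧ t = 1) then 1 else 0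
  | .inr t, .inl i => if i = g ∨ (i = f ∧ t = 0) ∨ (i = f2 ∧ t = 1) then 1 else 0
  | .inr _, .inr _ => 0

/-- extension of a vector -/
def ex2 {R : Type} [CommRing R] (e f : V) (u : V → R) : V ⊕ Fin 2 → R
  | .inl i => u i
  | .inr t => if t = 0 then u f else - u e

theorem in2_inl {R : Type} [CommRing R] (S : V → V → ℤ) (hs : ∀ i j, S i j = S j i) (e f : V)
    (hef : e ≠ f) (h1 : S e f = 1) (u : V ⊕ Fin 2 → R) (i : V) :
    ∑ q, ((in2 S e f (.inl i) q : ℤ) : R) * u q = ∑ j, (S i j : R) * u (.inl j) +
      (if i = e then u (.inr 0) - u (.inl f) else 0) +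
      (if i = f then -u (.inr 1) - u (.inl e) else 0) := by
  rw [Fintype.sum_sum_type, Fin.sum_univ_two]
  have h2 : ∀ j, ((in2 S e f (.inl i) (.inl j) : ℤ) : R) * u (.inl j) =
      (S i j : R) * u (.inl j) + ((if j = f then (if i = e then - u (.inl f) else 0) else 0) +
        (if j = e then (if i = f then - u (.inl e) else 0) else 0)) := by
    intro j
    have h1' : S f e = 1 := by rw [hs]; exact h1
    simp only [in2]
    by_cases i1 : i = e
    · subst i1
      simp only [hef, true_and, false_and, or_false, if_true, if_false]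
      by_cases j1 : j = f
      · subst j1
        simp [h1, hef.symm]
      · simp [j1]
    · by_cases i2 : i = f
      · subst i2
        simp only [i1, true_and, false_and, false_or, if_true, if_false]
        by_cases j1 : j = e
        · subst j1
          simp [h1']
        · simp [j1]
      · simp [i1, i2]
  rw [Finset.sum_congr rfl fun j _ => h2 j, Finset.sum_add_distrib, Finset.sum_add_distrib]
  simp only [Finset.sum_ite_eq', Finset.mem_univ, if_true, in2]
  by_cases i1 : i = e
  · subst i1
    simp [hef]
    ring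
  · by_cases i2 : i = f
    · subst i2
      simp [i1]
      ring
    · simp [i1, i2]

theorem in2_inr0 {R : Type} [CommRing R] (S : V → V → ℤ) (e f : V)
    (u : V ⊕ Fin 2 → R) :
    ∑ q, ((in2 S e f (.inr 0) q : ℤ) : R) * u q = u (.inl e) + u (.inr 1) := by
  rw [Fintype.sum_sum_type, Fin.sum_univ_two]
  simp [in2]

theorem in2_inr1 {R : Type} [CommRing R] (S : V → V → ℤ) (e f : V)
    (u : V ⊕ Fin 2 → R) :
    ∑ q, ((in2 S e f (.inr 1) q : ℤ) : R) * u q = u (.inr 0) - u (.inl f) := by
  rw [Fintype.sum_sum_type, Fin.sum_univ_two]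
  simp [in2]
  ring

theorem in2_symm (S : V → V → ℤ) (hs : ∀ i j, S i j = S j i) (e f : V) (q r : V ⊕ Fin 2) :
    in2 S e f q r = in2 S e f r q := by
  rcases q with i | s <;> rcases r with j | t
  · simp only [in2]
    rw [hs i j]
    by_cases h : (i = e ∧ j = f) ∨ (i = f ∧ j = e)
    · rw [if_pos h, if_pos (by tauto)]
    · rw [if_neg h, if_neg (by tauto)]
  · simp only [in2]
  · simp only [in2]
  · fin_cases s <;> fin_cases t <;> simp [in2]

theorem in2_val (S : V → V → ℤ) (hv : ∀ i j, S i j = 0 ∨ S i j = 1 ∨ S i j = -1) (e f : V)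
    (q r : V ⊕ Fin 2) :
    in2 S e f q r = 0 ∨ in2 S e f q r = 1 ∨ in2 S e f q r = -1 := by
  rcases q with i | s <;> rcases r with j | t <;> simp only [in2]
  · split_ifs
    · simp
    · exact hv i j
  · split_ifs <;> simp
  · split_ifs <;> simp
  · split_ifs <;> simp

theorem in2_sq (S : V → V → ℤ) (hs : ∀ i j, S i j = S j i) (e f : V)
    (hef : e ≠ f) (h1 : S e f = 1) (i : V) :
    ∑ q, in2 S e f (.inl i) q ^ 2 = ∑ j, S i j ^ 2 := by
  rw [Fintype.sum_sum_type, Fin.sum_univ_two]
  have h2 : ∀ j, (in2 S e f (.inl i) (.inl j)) ^ 2 =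
      S i j ^ 2 + ((if j = f then (if i = e then -1 else 0) else 0) +
        (if j = e then (if i = f then -1 else 0) else 0)) := by
    intro j
    have h1' : S f e = 1 := by rw [hs]; exact h1
    simp only [in2]
    by_cases i1 : i = e
    · subst i1
      simp only [hef, true_and, false_and, or_false, if_true, if_false]
      by_cases j1 : j = f
      · subst j1
        simp [h1, hef.symm]
      · simp [j1]
    · by_cases i2 : i = f
      · subst i2
        simp only [i1, true_and, false_and, false_or, if_true, if_false]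
        by_cases j1 : j = e
        · subst j1
          simp [h1']
        · simp [j1]
      · simp [i1, i2]
  rw [Finset.sum_congr rfl fun j _ => h2 j, Finset.sum_add_distrib, Finset.sum_add_distrib]
  simp only [Finset.sum_ite_eq', Finset.mem_univ, if_true, in2]
  by_cases i1 : i = e
  · subst i1
    simp [hef]
  · by_cases i2 : i = f
    · subst i2
      simp [i1]
    · simp [i1, i2]

theorem ex2_row {R : Type} [CommRing R] (S : V → V → ℤ) (hs : ∀ i j, S i j = S j i) (e f : V)
    (hef : e ≠ f) (h1 : S e f = 1) (u : V → R) (q : V ⊕ Fin 2) :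
    ∑ r, ((in2 S e f q r : ℤ) : R) * ex2 e f u r =
      match q with | .inl i => ∑ j, (S i j : R) * u j | .inr _ => 0 := by
  rcases q with i | t
  · rw [in2_inl S hs e f hef h1]
    simp [ex2]
  · fin_cases t
    · simp only [Fin.zero_eta, Fin.isValue]
      rw [in2_inr0]
      simp [ex2]
    · simp only [Fin.mk_one, Fin.isValue]
      rw [in2_inr1]
      simp [ex2]

theorem ad2_symm (hs : ∀ i j, Ad i j = Ad j i) (g f f2 : V) (x y' : V ⊕ Fin 2) :
    ad2 Ad g f f2 x y' = ad2 Ad g f f2 y' x := by
  rcases x with i | s <;> rcases y' with j | t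
  · simp only [ad2]
    rw [hs i j]
    by_cases h : (i = g ∧ (j = f ∨ j = f2)) ∨ (j = g ∧ (i = f ∨ i = f2))
    · rw [if_pos h, if_pos (by tauto)]
    · rw [if_neg h, if_neg (by tauto)]
  · simp only [ad2]
  · simp only [ad2]
  · simp only [ad2]

theorem ad2_or (hv : ∀ i j, Ad i j = 0 ∨ Ad i j = 1) (g f f2 : V) (x y' : V ⊕ Fin 2) :
    ad2 Ad g f f2 x y' = 0 ∨ ad2 Ad g f f2 x y' = 1 := by
  rcases x with i | s <;> rcases y' with j | t <;> simp only [ad2]
  · split_ifs
    · simp
    · exact hv i j
  · split_ifs <;> simp
  · split_ifs <;> simp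
  · simp

theorem ad2_inl (hs : ∀ i j, Ad i j = Ad j i) (hgf : g ≠ f) (hgf2 : g ≠ f2) (hff : f ≠ f2)
    (h1 : Ad g f = 1) (h2 : Ad g f2 = 1) (i : V) :
    ∑ x, ad2 Ad g f f2 (.inl i) x = ∑ j, Ad i j := by
  rw [Fintype.sum_sum_type, Fin.sum_univ_two]
  have h1' : Ad f g = 1 := by rw [hs]; exact h1
  have h2' : Ad f2 g = 1 := by rw [hs]; exact h2
  have h3 : ∀ j, ad2 Ad g f f2 (.inl i) (.inl j) = Ad i j +
      ((if j = f then (if i = g then -1 else 0) else 0) +
      (if j = f2 then (if i = g then -1 else 0) else 0) +
      (if j = g then (if i = f ∨ i = f2 then -1 else 0) else 0)) := by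
    intro j
    simp only [ad2]
    by_cases i1 : i = g
    · subst i1
      simp only [hgf, hgf2, true_and, or_self, and_false, or_false, if_true, if_false, ite_self,
        add_zero]
      by_cases j1 : j = f
      · subst j1
        simp [h1, hff]
      · by_cases j2 : j = f2
        · subst j2
          simp [h2, hff.symm]
        · simp [j1, j2]
    · simp only [i1, false_and, false_or, if_false, ite_self, zero_add]
      by_cases j3 : j = g
      · subst j3
        simp only [true_and, if_true]
        by_cases i2 : i = f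
        · subst i2
          simp [h1']
        · by_cases i3 : i = f2
          · subst i3
            simp [h2']
          · simp [i2, i3]
      · simp [j3]
  rw [Finset.sum_congr rfl fun j _ => h3 j, Finset.sum_add_distrib, Finset.sum_add_distrib,
    Finset.sum_add_distrib]
  simp only [Finset.sum_ite_eq', Finset.mem_univ, if_true, ad2]
  by_cases i1 : i = g
  · subst i1
    simp [hgf, hgf2]
  · by_cases i2 : i = f
    · subst i2
      simp [i1, hff]
    · by_cases i3 : i = f2
      · subst i3
        simp [i1, i2]
      · simp [i1, i2, i3]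

theorem Core.step2 (h : Core c m k p q V S C Ad Re H pos a z b y e1 f1 e g f f2 q0)
    (hq : q ≠ 0) :
    Core c (m + 2) k (cut2 q p 2) q (V ⊕ Fin 2) (in2 S e f) (xz C) (ad2 Ad g f f2) (xz Re)
      (xh 0 H) (nps 2 q pos) (ex2 e f a) (ex2 e f z) b y
      (.inl e1) (.inl f1) (.inl e) (.inl g) (.inr 0) (.inr 1) (.inl q0) := by
  obtain ⟨pe, pg, pf, pf2, Sef, Agf, Agf2⟩ := h.slot2 hq
  have hpq := h.pq
  have hef : e ≠ f := by
    rintro rfl
    omega
  have hgf : g ≠ f := by
    rintro rfl
    omega
  have hgf2 : g ≠ f2 := by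
    rintro rfl
    omega
  have hff : f ≠ f2 := by
    rintro rfl
    omega
  have heg : e ≠ g := by
    rintro rfl
    omega
  have hef2 : e ≠ f2 := by
    rintro rfl
    omega
  have hpqn : q ≠ p := by omega
  have hneg : ∀ x : ZMod 2, -x = x := fun x => ZMod.neg_eq_self_mod_two x
  have hrel : ∀ lo hi i j, rel2 m p q lo hi (pos i) (pos j) →
      rel2 (m + 2) (cut2 q p 2) q lo hi (nps 2 q pos (.inl i)) (nps 2 q pos (.inl j)) := by
    intro lo hi i j hr
    simp only [nps]
    unfold rel2 cut2 at *
    split_ifs <;> omega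
  have hSf : S f e = 1 := by rw [h.symm]; exact Sef
  have hAfg : Ad f g = 1 := by rw [h.asymm]; exact Agf
  have hAf2g : Ad f2 g = 1 := by rw [h.asymm]; exact Agf2
  have hC1 : C e f = 0 := by
    by_contra hc
    have := h.dSC _ _ hc
    rw [Sef] at this
    norm_num at this
  have hC2 : C f e = 0 := by
    by_contra hc
    have := h.dSC _ _ hc
    rw [hSf] at this
    norm_num at this
  have hA1 : Ad e f = 0 := by
    by_contra hc
    have := h.dSA _ _ hc
    rw [Sef] at this
    norm_num at this
  have hA2 : Ad f e = 0 := by rw [h.asymm]; exact hA1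
  have hCA : ∀ i j, Ad i j = 1 → S i j = 0 ∧ C i j = 0 := by
    intro i j hA
    refine ⟨h.dSA i j (by rw [hA]; norm_num), ?_⟩
    by_contra hc
    have := h.dAC i j hc
    rw [hA] at this
    norm_num at this
  refine ⟨?_, nps_inj h.inj, nps_lt h.lt ?_, in2_val S h.val e f, ?_, ad2_or h.av g f f2,
    xz_or h.rv,
    ?_, in2_symm S h.symm e f, ad2_symm h.asymm g f f2, xz_symm h.rsymm, ?_, ?_, ?_, ?_, ?_, ?_, ?_,
    ?_, ?_, ?_, ?_, ?_, ?_, h.bnz, h.bs, ?_, ?_, ?_, ?_, h.hq, h.hzq, ?_, ?_, ?_, ?_⟩
  · rw [Fintype.card_sum, h.card, Fintype.card_fin]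
  · have := h.lt f
    omega
  · intro x y'
    rcases x with i | s <;> rcases y' with j | t <;> simp only [xz]
    · exact h.cval i j
    · exact Or.inl trivial
    · exact Or.inl trivial
    · exact Or.inl trivial
  · intro x w
    rcases x with i | s <;> simp only [xh]
    · exact h.hv i w
    · exact Or.inl trivial
  · intro x
    rcases x with i | t <;> simp only [in2]
    · split_ifs
      · norm_num
      · exact h.diag i
    · norm_num
  · intro x
    rcases x with i | t <;> simp only [xz]
    exact h.cd i
  · intro x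
    rcases x with i | t <;> simp only [ad2]
    split_ifs
    · rfl
    · exact h.ad0 i
  · -- dSA
    intro x y' hxy
    rcases x with i | s <;> rcases y' with j | t
    · simp only [ad2] at hxy
      split_ifs at hxy with h1
      · exact absurd rfl hxy
      · simp only [in2]
        split_ifs
        · rfl
        · exact h.dSA i j hxy
    · simp only [ad2] at hxy
      split_ifs at hxy with h1
      · simp only [in2]
        rcases h1 with rfl | ⟨rfl, rfl⟩ | ⟨rfl, rfl⟩
        · rw [if_neg (by rintro ⟨h2, _⟩; exact heg h2.symm),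
            if_neg (by rintro ⟨h2, _⟩; exact hgf h2)]
        · rw [if_neg (by rintro ⟨h2, _⟩; exact hef h2.symm),
            if_neg (by rintro ⟨_, h2⟩; exact absurd h2 (by decide))]
        · rw [if_neg (by rintro ⟨h2, _⟩; exact hef2 h2.symm),
            if_neg (by rintro ⟨h2, _⟩; exact hff h2.symm)]
      · exact absurd rfl hxy
    · simp only [ad2] at hxy
      split_ifs at hxy with h1
      · simp only [in2]
        rcases h1 with rfl | ⟨rfl, rfl⟩ | ⟨rfl, rfl⟩
        · rw [if_neg (by rintro ⟨h2, _⟩; exact heg h2.symm),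
            if_neg (by rintro ⟨h2, _⟩; exact hgf h2)]
        · rw [if_neg (by rintro ⟨h2, _⟩; exact hef h2.symm),
            if_neg (by rintro ⟨_, h2⟩; exact absurd h2 (by decide))]
        · rw [if_neg (by rintro ⟨h2, _⟩; exact hef2 h2.symm),
            if_neg (by rintro ⟨h2, _⟩; exact hff h2.symm)]
      · exact absurd rfl hxy
    · simp only [ad2] at hxy
      exact absurd rfl hxy
  · intro x y' hxy
    rcases x with i | s <;> rcases y' with j | t <;> simp only [xz] at hxy
    · simp only [in2]
      split_ifs
      · rfl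
      · exact h.dSC i j hxy
    · exact absurd rfl hxy
    · exact absurd rfl hxy
    · exact absurd rfl hxy
  · intro x y' hxy
    rcases x with i | s <;> rcases y' with j | t <;> simp only [xz] at hxy
    · simp only [ad2]
      split_ifs
      · rfl
      · exact h.dAC i j hxy
    · exact absurd rfl hxy
    · exact absurd rfl hxy
    · exact absurd rfl hxy
  · intro x y' hxy
    rcases x with i | s <;> rcases y' with j | t <;> simp only [xz] at hxy ⊢
    exact h.dCC i j hxy
  · intro x
    rcases x with i | t
    · have := xz_col (R := ℤ) (d := 2) C i (fun _ => 1)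
      simp only [Int.cast_id, mul_one] at this
      rw [this, h.col]
    · have := xz_col0 (R := ℤ) (d := 2) C t (fun _ => 1)
      simp only [Int.cast_id, mul_one] at this
      exact this
  · intro x
    rcases x with i | t
    · have hz0 : (nps 2 q pos (.inl i) = 0) ↔ (pos i = 0) := nps_zero hq i
      simp only [hz0]
      rw [← h.row i]
      have e0 := in2_sq S h.symm e f hef Sef i
      have e1' := ad2_inl h.asymm hgf hgf2 hff Agf Agf2 i
      have e2 : ∀ (M : V → V → ℤ), ∑ r, xz (d := 2) M (.inl i) r = ∑ j, M i j := by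
        intro M
        have := xz_row (R := ℤ) (d := 2) M i (fun _ => 1)
        simpa using this
      have e3 : ∀ (M : V → V → ℤ), ∑ r, xz (d := 2) M (.inl i) r ^ 2 = ∑ j, M i j ^ 2 := by
        intro M
        rw [Fintype.sum_sum_type]
        simp [xz]
      have e4 : ∀ (M : V → V → ℤ), ∑ r, xz (d := 2) M r (.inl i) ^ 2 = ∑ j, M j i ^ 2 := by
        intro M
        rw [Fintype.sum_sum_type]
        simp [xz]
      simp only [Finset.sum_add_distrib, Finset.sum_sub_distrib, ← Finset.mul_sum]
      rw [e0, e1', e2, e3, e4]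
      rfl
    · rw [if_neg (by simp only [nps]; omega)]
      have e0 : ∑ r, (in2 S e f (.inr t) r ^ 2 + 2 * ad2 Ad g f f2 (.inr t) r -
          2 * xz (d := 2) Re (.inr t) r + xz (d := 2) C (.inr t) r ^ 2 +
          xz (d := 2) C r (.inr t) ^ 2) = ∑ r, in2 S e f (.inr t) r ^ 2 +
          2 * ∑ r, ad2 Ad g f f2 (.inr t) r := by
        rw [Finset.mul_sum, ← Finset.sum_add_distrib]
        refine Finset.sum_congr rfl fun r _ => ?_
        rcases r with j | s <;> simp [xz]
      have e5 : ∑ w, xh (d := 2) 0 H (.inr t) w = 0 := by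
        simp [xh]
      rw [e0, e5, Fintype.sum_sum_type, Fintype.sum_sum_type, Fin.sum_univ_two, Fin.sum_univ_two]
      fin_cases t
      · have e1' : ∀ i, in2 S e f (.inr 0) (.inl i) ^ 2 = if i = e then 1 else 0 := by
          intro i
          simp only [in2]
          by_cases i1 : i = e <;> simp [i1]
        have e2' : ∀ i, ad2 Ad g f f2 (.inr 0) (.inl i) =
            (if i = g then 1 else 0) + (if i = f then 1 else 0) := by
          intro i
          simp only [ad2]
          by_cases i1 : i = g
          · subst i1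
            simp [hgf]
          · by_cases i2 : i = f <;> simp [i1, i2, hgf.symm]
        simp only [Fin.zero_eta, Fin.isValue]
        rw [Finset.sum_congr rfl fun i _ => e1' i, Finset.sum_congr rfl fun i _ => e2' i,
          Finset.sum_add_distrib]
        simp [in2, ad2]
      · have e1' : ∀ i, in2 S e f (.inr 1) (.inl i) ^ 2 = if i = f then 1 else 0 := by
          intro i
          simp only [in2]
          by_cases i1 : i = f <;> simp [i1]
        have e2' : ∀ i, ad2 Ad g f f2 (.inr 1) (.inl i) =
            (if i = g then 1 else 0) + (if i = f2 then 1 else 0) := by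
          intro i
          simp only [ad2]
          by_cases i1 : i = g
          · subst i1
            simp [hgf2]
          · by_cases i2 : i = f2 <;> simp [i1, i2, hgf2.symm]
        simp only [Fin.mk_one, Fin.isValue]
        rw [Finset.sum_congr rfl fun i _ => e1' i, Finset.sum_congr rfl fun i _ => e2' i,
          Finset.sum_add_distrib]
        simp [in2, ad2]
  · intro w
    rw [Fintype.sum_sum_type]
    simp only [xh]
    rw [h.tri w]
    simp
  · -- near
    intro x y' hxy
    have hp' : p ≠ 0 → cut2 q p 2 ≠ 0 := by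
      intro hp
      unfold cut2
      split_ifs <;> omega
    rcases x with i | s <;> rcases y' with j | t
    · have hor : (S i j ≠ 0 ∨ C i j ≠ 0 ∨ Ad i j ≠ 0) ∧
          ¬ ((i = e ∧ j = f) ∨ (i = f ∧ j = e) ∨ (i = g ∧ j = f) ∨ (i = f ∧ j = g) ∨
            (i = g ∧ j = f2) ∨ (i = f2 ∧ j = g)) := by
        rcases hxy with h1 | h1 | h1
        · simp only [in2] at h1
          split_ifs at h1 with h2
          · exact absurd rfl h1
          · refine ⟨Or.inl h1, ?_⟩
            rintro (h3 | h3 | ⟨rfl, rfl⟩ | ⟨rfl, rfl⟩ | ⟨rfl, rfl⟩ | ⟨rfl, rfl⟩)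
            · exact h2 (Or.inl h3)
            · exact h2 (Or.inr h3)
            · exact h1 (hCA _ _ Agf).1
            · exact h1 (hCA _ _ hAfg).1
            · exact h1 (hCA _ _ Agf2).1
            · exact h1 (hCA _ _ hAf2g).1
        · refine ⟨Or.inr (Or.inl h1), ?_⟩
          rintro (⟨rfl, rfl⟩ | ⟨rfl, rfl⟩ | ⟨rfl, rfl⟩ | ⟨rfl, rfl⟩ | ⟨rfl, rfl⟩ | ⟨rfl, rfl⟩)
          · exact h1 hC1
          · exact h1 hC2
          · exact h1 (hCA _ _ Agf).2
          · exact h1 (hCA _ _ hAfg).2
          · exact h1 (hCA _ _ Agf2).2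
          · exact h1 (hCA _ _ hAf2g).2
        · simp only [ad2] at h1
          split_ifs at h1 with h2
          · exact absurd rfl h1
          · refine ⟨Or.inr (Or.inr h1), ?_⟩
            rintro (⟨rfl, rfl⟩ | ⟨rfl, rfl⟩ | h3 | h3 | h3 | h3)
            · exact h1 hA1
            · exact h1 hA2
            · exact h2 (Or.inl ⟨h3.1, Or.inl h3.2⟩)
            · exact h2 (Or.inr ⟨h3.2, Or.inl h3.1⟩)
            · exact h2 (Or.inl ⟨h3.1, Or.inr h3.2⟩)
            · exact h2 (Or.inr ⟨h3.2, Or.inr h3.1⟩)
      rcases h.near i j hor.1 with h2 | h2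
      · exact Or.inl (hrel 0 2 i j h2)
      · right
        unfold exc at h2 ⊢
        rcases h2 with ⟨hp, h2⟩ | ⟨_, h2⟩
        · left
          refine ⟨hp' hp, ?_⟩
          rcases h2 with ⟨rfl, rfl⟩ | ⟨rfl, rfl⟩ <;> simp
        · exact absurd h2 hor.2
    · by_cases hA : ad2 Ad g f f2 (.inl i) (.inr t) ≠ 0
      · simp only [ad2] at hA
        split_ifs at hA with h2
        · rcases h2 with rfl | ⟨rfl, rfl⟩ | ⟨rfl, rfl⟩
          · right; right
            refine ⟨hq, ?_⟩
            fin_cases t <;> simp
          · left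
            unfold rel2 cut2
            simp only [nps, pf]
            have : ((0 : Fin 2) : ℕ) = 0 := rfl
            rw [this, if_neg (lt_irrefl q)]
            split_ifs <;> omega
          · left
            unfold rel2 cut2
            simp only [nps, pf2]
            have : ((1 : Fin 2) : ℕ) = 1 := rfl
            rw [this]
            split_ifs <;> omega
        · exact absurd rfl hA
      · have h1 : in2 S e f (.inl i) (.inr t) ≠ 0 := by
          rcases hxy with h1 | h1 | h1
          · exact h1
          · exact absurd rfl h1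
          · exact absurd h1 hA
        simp only [in2] at h1
        split_ifs at h1 with h2 h3
        · right; right
          refine ⟨hq, ?_⟩
          rw [h2.1, h2.2]
          simp
        · left
          rw [h3.1, h3.2]
          unfold rel2 cut2
          simp only [nps, pf]
          have : ((1 : Fin 2) : ℕ) = 1 := rfl
          rw [this, if_neg (lt_irrefl q)]
          split_ifs <;> omega
        · exact absurd rfl h1
    · by_cases hA : ad2 Ad g f f2 (.inr s) (.inl j) ≠ 0
      · simp only [ad2] at hA
        split_ifs at hA with h2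
        · rcases h2 with rfl | ⟨rfl, rfl⟩ | ⟨rfl, rfl⟩
          · right; right
            refine ⟨hq, ?_⟩
            fin_cases s <;> simp
          · left
            unfold rel2 cut2
            simp only [nps, pf]
            have : ((0 : Fin 2) : ℕ) = 0 := rfl
            rw [this, if_neg (lt_irrefl q)]
            split_ifs <;> omega
          · left
            unfold rel2 cut2
            simp only [nps, pf2]
            have : ((1 : Fin 2) : ℕ) = 1 := rfl
            rw [this]
            split_ifs <;> omega
        · exact absurd rfl hA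
      · have h1 : in2 S e f (.inr s) (.inl j) ≠ 0 := by
          rcases hxy with h1 | h1 | h1
          · exact h1
          · exact absurd rfl h1
          · exact absurd h1 hA
        simp only [in2] at h1
        split_ifs at h1 with h2 h3
        · right; right
          refine ⟨hq, ?_⟩
          rw [h2.1, h2.2]
          simp
        · left
          rw [h3.1, h3.2]
          unfold rel2 cut2
          simp only [nps, pf]
          have : ((1 : Fin 2) : ℕ) = 1 := rfl
          rw [this, if_neg (lt_irrefl q)]
          split_ifs <;> omega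
        · exact absurd rfl h1
    · left
      unfold rel2 cut2
      simp only [nps]
      left
      have h1 := s.2
      have h3 := t.2
      split_ifs <;> omega
  · intro x y' hxy
    rcases x with i | s <;> rcases y' with j | t <;> simp only [xz] at hxy
    · exact hrel 3 3 i j (h.rem i j hxy)
    · exact absurd rfl hxy
    · exact absurd rfl hxy
    · exact absurd rfl hxy
  · intro x
    rcases x with i | t
    · exact h.anz i
    · fin_cases t
      · simp [ex2, h.anz f]
      · simp [ex2, h.anz e]
  · intro x
    have := ex2_row (R := ℤ) S h.symm e f hef Sef a x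
    simp only [Int.cast_id] at this
    rw [this]
    rcases x with i | t
    · exact h.hSa i
    · rfl
  · intro x
    rcases x with i | t
    · have := xz_row (R := ℤ) (d := 2) C i (ex2 e f a)
      simp only [Int.cast_id] at this
      rw [this]
      exact h.hCa i
    · have := xz_row0 (R := ℤ) (d := 2) C t (ex2 e f a)
      simp only [Int.cast_id] at this
      rw [this]
      simp [xh]
  · -- hD
    intro s hs hw x
    have hs' : ∀ x, ∑ r, ((in2 S e f x r : ℤ) : ZMod 2) * s r +
        ∑ r, ((xz (d := 2) C r x : ℤ) : ZMod 2) * s r = 0 := by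
      intro x
      rw [← hs x, ← Finset.sum_add_distrib]
      refine Finset.sum_congr rfl fun r _ => ?_
      push_cast
      ring
    have r0 := hs' (.inr 0)
    have r1 := hs' (.inr 1)
    rw [in2_inr0, xz_col0, add_zero] at r0
    rw [in2_inr1, xz_col0, add_zero] at r1
    have q1 : s (.inr 0) = s (.inl f) := by
      linear_combination r1
    have q2 : s (.inr 1) = - s (.inl e) := by
      linear_combination r0
    have k1 : ∀ i, ∑ j, ((S i j + C j i : ℤ) : ZMod 2) * s (.inl j) = 0 := by
      intro i
      have := hs' (.inl i)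
      rw [in2_inl S h.symm e f hef Sef, q1, q2, xz_col] at this
      simp only [sub_self, neg_neg, ite_self, add_zero] at this
      rw [← this, ← Finset.sum_add_distrib]
      refine Finset.sum_congr rfl fun r _ => ?_
      push_cast
      ring
    have k2 : ∀ w, ∑ i, (H i w : ZMod 2) * s (.inl i) = 0 := by
      intro w
      have := hw w
      rw [Fintype.sum_sum_type, Fin.sum_univ_two] at this
      simp only [xh, Int.cast_zero, zero_mul, add_zero] at this
      exact this
    have k3 := h.hD (fun i => s (.inl i)) k1 k2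
    rcases x with i | t
    · exact k3 i
    · have he := k3 e
      have hf := k3 f
      fin_cases t
      · simp [q1, hf]
      · simp [q2, he]
  · -- hP
    intro x t hx ht
    have hx' : ∀ u, ∑ r, ((in2 S e f u r : ℤ) : ZMod 2) * x r +
        ∑ r, ((xz (d := 2) C u r : ℤ) : ZMod 2) * x r +
        ∑ w, (xh (d := 2) 0 H u w : ZMod 2) * t w = 0 := by
      intro u
      rw [← hx u, ← Finset.sum_add_distrib]
      congr 1
      refine Finset.sum_congr rfl fun r _ => ?_
      push_cast
      ring
    have hw0 : ∀ s : Fin 2, ∑ w, ((xh (d := 2) 0 H (.inr s) w : ℤ) : ZMod 2) * t w = 0 := by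
      intro s
      simp [xh]
    have r0 := hx' (.inr 0)
    have r1 := hx' (.inr 1)
    rw [in2_inr0, xz_row0, add_zero, hw0, add_zero] at r0
    rw [in2_inr1, xz_row0, add_zero, hw0, add_zero] at r1
    have q1 : x (.inr 0) = x (.inl f) := by
      linear_combination r1
    have q2 : x (.inr 1) = - x (.inl e) := by
      linear_combination r0
    have k1 : ∀ i, ∑ j, ((S i j + C i j : ℤ) : ZMod 2) * x (.inl j) +
        ∑ w, (H i w : ZMod 2) * t w = 0 := by
      intro i
      have := hx' (.inl i)
      rw [in2_inl S h.symm e f hef Sef, q1, q2, xz_row] at this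
      simp only [sub_self, neg_neg, ite_self, add_zero] at this
      rw [← this, ← Finset.sum_add_distrib]
      congr 1
      refine Finset.sum_congr rfl fun r _ => ?_
      push_cast
      ring
    obtain ⟨α, β, h1, h2⟩ := h.hP (fun i => x (.inl i)) t k1 ht
    refine ⟨α, β, ?_, h2⟩
    intro u
    rcases u with i | s
    · exact h1 i
    · have he := h1 e
      have hf := h1 f
      fin_cases s
      · simp [q1, hf, ex2]
      · simp only [Fin.mk_one, Fin.isValue, q2, he, ex2]
        simp
        ring
  · have e0 : ∑ u, ex2 e f z u * ∑ r, in2 S e f u r * ex2 e f z r =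
        ∑ i, z i * ∑ j, S i j * z j := by
      rw [Fintype.sum_sum_type]
      have e1' : ∀ s : Fin 2, ∑ r, in2 S e f (.inr s) r * ex2 e f z r = 0 := by
        intro s
        have := ex2_row (R := ℤ) S h.symm e f hef Sef z (.inr s)
        simpa using this
      have e2' : ∀ i, ∑ r, in2 S e f (.inl i) r * ex2 e f z r = ∑ j, S i j * z j := by
        intro i
        have := ex2_row (R := ℤ) S h.symm e f hef Sef z (.inl i)
        simpa using this
      simp only [e1', e2', mul_zero, Finset.sum_const_zero, add_zero]
      rfl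
    rw [e0]
    exact h.hz
  · unfold cut2
    split_ifs <;> omega
  · -- slot1
    intro hp
    have hp0 : p ≠ 0 := by
      intro h0
      apply hp
      unfold cut2
      rw [h0, if_neg (by omega)]
    obtain ⟨s1, s2, s3, s4⟩ := h.slot1 hp0
    have hne : ¬ ((e1 = e ∧ f1 = f) ∨ (e1 = f ∧ f1 = e)) := by
      rintro (⟨rfl, rfl⟩ | ⟨rfl, rfl⟩) <;> omega
    refine ⟨?_, ?_, ?_, s4⟩
    · simp only [nps, cut2]
      split_ifs <;> omega
    · simp only [nps, cut2]
      split_ifs <;> omega
    · simp only [in2]
      rw [if_neg hne]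
      exact s3
  · intro _
    refine ⟨?_, ?_, ?_, ?_, ?_, ?_, ?_⟩
    · simp only [nps]
      rw [if_pos (by omega)]
      exact pe
    · simp only [nps]
      rw [if_pos (by omega)]
      exact pg
    · simp [nps]
    · simp [nps]
    · simp [in2]
    · simp [ad2]
    · simp [ad2]

end Pool.Agent.J6H77.Nut
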