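import Pool.Agent.J6H77.Nut.Step2

/-!
# Degree `2 mod 4`, order `2 mod 4`, order at least `ρ + 8`

The kernel of `S` modulo `2` is spanned by the all ones vector and the kernel vector `a`.
-/

set_option autoImplicit false
set_option linter.unusedSectionVars false

namespace Pool.Agent.J6H77.Nut

open Finset Pool.Agent.TH296.Nut Pool.Agent.J6H28.Nut

/-- a core with an odd number of cells -/
structure C3 (m p : ℕ) (V : Type) [Fintype V] [DecidableEq V] (S Re : V → V → ℤ)
    (pos : V → ℕ) (a : V → ℤ) (e f : V) : Prop where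
  card : Fintype.card V = m
  hm : m % 2 = 1
  m9 : 9 ≤ m
  inj : Function.Injective pos
  lt : ∀ v, pos v < m
  val : ∀ i j, S i j = 0 ∨ S i j = 1 ∨ S i j = -1
  rv : ∀ i j, Re i j = 0 ∨ Re i j = 1
  symm : ∀ i j, S i j = S j i
  rsymm : ∀ i j, Re i j = Re j i
  diag : ∀ i, S i i ≠ 1
  row : ∀ i, ∑ j, (S i j ^ 2 - 2 * Re i j) = 2
  near : ∀ i j, S i j ≠ 0 → rel m p 0 2 (pos i) (pos j) ∨ Re i j = 1 ∨ (i = e ∧ j = f) ∨
    (i = f ∧ j = e)
  rem : ∀ i j, Re i j ≠ 0 → rel m p 3 3 (pos i) (pos j)
  pe : pos e + 1 = p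
  pf : pos f = p
  Sef : S e f = 1
  anz : ∀ i, a i ≠ 0
  hSa : ∀ i, ∑ j, S i j * a j = 0
  par : (a e - a f) % 2 = 0
  odd : (∑ i, a i) % 2 = 1
  tot : (∑ i, ∑ j, S i j) % 4 = 2
  loop : (∑ i, S i i * a i) % 2 = 0
  hz : ∀ v : V → ZMod 2, (∀ i, ∑ j, (S i j : ZMod 2) * v j = 0) →
    ∃ α β : ZMod 2, ∀ j, v j = α + β * a j

section

variable {V : Type} [Fintype V] [DecidableEq V] {m p : ℕ}
  {S Re : V → V → ℤ} {pos : V → ℕ} {a : V → ℤ} {e f : V}

theorem zmod_two_cases (x : ZMod 2) : x = 0 ∨ x = 1 := by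
  revert x; decide

theorem odd_split {y : ℤ} {c : ℤ} (h : (y : ZMod 2) = (c : ZMod 2)) : ∃ w : ℤ, y = c + 2 * w := by
  have h1 : ((y - c : ℤ) : ZMod 2) = 0 := by
    push_cast
    rw [h, sub_self]
  obtain ⟨w, hw⟩ := (ZMod.intCast_zmod_eq_zero_iff_dvd (y - c) 2).1 h1
  exact ⟨w, by push_cast at hw; linarith⟩

/-- no integral kernel vector with all entries odd -/
theorem C3.noodd (h : C3 m p V S Re pos a e f) (d : V → ℤ) (hd : ∀ i, ∑ j, S i j * d j = 0)
    (h1 : ∀ i, (d i : ZMod 2) = 1) : False := by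
  have hw : ∃ w : V → ℤ, ∀ i, d i = 1 + 2 * w i := by
    have : ∀ i, ∃ c : ℤ, d i = 1 + 2 * c := fun i => odd_split (by rw [h1 i]; simp)
    choose w hw using this
    exact ⟨w, hw⟩
  obtain ⟨w, hw⟩ := hw
  have e1 : ∀ i, ∑ j, S i j = -2 * ∑ j, S i j * w j := by
    intro i
    have := hd i
    have e2 : ∑ j, S i j * d j = ∑ j, S i j + 2 * ∑ j, S i j * w j := by
      rw [Finset.mul_sum, ← Finset.sum_add_distrib]
      refine Finset.sum_congr rfl fun j _ => ?_
      rw [hw j]
      ring
    linarith
  have e2 : ∑ i, ∑ j, S i j * w j = ∑ j, w j * ∑ i, S j i := by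
    rw [Finset.sum_comm]
    refine Finset.sum_congr rfl fun j _ => ?_
    rw [Finset.mul_sum]
    refine Finset.sum_congr rfl fun i _ => ?_
    rw [h.symm i j]
    ring
  have e3 : ∑ i, ∑ j, S i j = 4 * ∑ j, w j * ∑ i, S j i * w i := by
    rw [Finset.sum_congr rfl fun i _ => e1 i, ← Finset.mul_sum, e2,
      Finset.sum_congr rfl fun j _ => by rw [e1 j]]
    rw [Finset.mul_sum, Finset.mul_sum]
    refine Finset.sum_congr rfl fun j _ => ?_
    ring
  have := h.tot
  omega

theorem C3.exq (h : C3 m p V S Re pos a e f) : ∃ q, (a q : ZMod 2) = 1 := by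
  by_contra hcon
  push Not at hcon
  have h1 : ∀ i, (a i : ZMod 2) = 0 := fun i => (zmod_two_cases _).resolve_right (hcon i)
  have h2 : ((∑ i, a i : ℤ) : ZMod 2) = 0 := by
    push_cast
    exact Finset.sum_eq_zero fun i _ => h1 i
  have h3 := cast1 _ h.odd
  rw [h2] at h3
  exact absurd h3 (by decide)

theorem C3.line (h : C3 m p V S Re pos a e f) (d : V → ℝ)
    (hd : ∀ i, ∑ j, (S i j : ℝ) * d j = 0) : ∃ c : ℝ, ∀ i, d i = c * a i := by
  obtain ⟨q, hq⟩ := h.exq
  have haq' : (a q : ℝ) ≠ 0 := by exact_mod_cast h.anz q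
  refine ⟨d q / a q, ?_⟩
  have key := Pool.Agent.TH417.Nut.real_zero (R := Option V) (J := V)
    (fun r j => match r with | some i => S i j | none => if j = q then 1 else 0) (by
      intro v hv x
      have h0 : ∀ i, ∑ j, S i j * v j = 0 := fun i => hv (some i)
      have h1 : ∀ i, ∑ j, (S i j : ZMod 2) * (v j : ZMod 2) = 0 := by
        intro i
        have h2 : ((∑ j, S i j * v j : ℤ) : ZMod 2) = 0 := by rw [h0 i]; simp
        push_cast at h2
        exact h2
      have h3 : v q = 0 := by
        have := hv none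
        simpa using this
      refine (ZMod.intCast_zmod_eq_zero_iff_dvd (v x) 2).1 ?_
      obtain ⟨α, β, hab⟩ := h.hz (fun j => (v j : ZMod 2)) h1
      have h4 := hab q
      rw [h3, hq] at h4
      have h5 := hab x
      rw [h5]
      rcases zmod_two_cases α with rfl | rfl
      · rcases zmod_two_cases β with rfl | rfl
        · ring
        · exact absurd h4 (by decide)
      · rcases zmod_two_cases β with rfl | rfl
        · exact absurd h4 (by decide)
        · exfalso
          refine h.noodd (fun j => v j + a j) ?_ ?_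
          · intro i
            have e1 : ∑ j, S i j * (v j + a j) = ∑ j, S i j * v j + ∑ j, S i j * a j := by
              rw [← Finset.sum_add_distrib]
              refine Finset.sum_congr rfl fun j _ => ?_
              ring
            rw [e1, h0 i, h.hSa i]
            ring
          · intro i
            have h6 := hab i
            push_cast
            rw [h6]
            have h2 : (2 : ZMod 2) = 0 := by decide
            linear_combination h2 * (a i : ZMod 2)) (fun i => d i - d q / a q * a i) (by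
      rintro (_ | i)
      · simp only [Int.cast_ite, Int.cast_one, Int.cast_zero, ite_mul, one_mul, zero_mul,
          Finset.sum_ite_eq', Finset.mem_univ, if_true]
        field_simp
        ring
      · simp only
        have e1 : ∑ j, (S i j : ℝ) * (d j - d q / a q * a j) =
            ∑ j, (S i j : ℝ) * d j - d q / a q * ∑ j, (S i j : ℝ) * a j := by
          rw [Finset.mul_sum, ← Finset.sum_sub_distrib]
          refine Finset.sum_congr rfl fun j _ => ?_
          ring
        have e2 : ∑ j, (S i j : ℝ) * a j = 0 := by exact_mod_cast h.hSa i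
        rw [e1, hd i, e2]
        ring)
  intro i
  have := key i
  linarith

/-- `S + 2 N + 2 K` is nonsingular -/
theorem C3.nons (h : C3 m p V S Re pos a e f) {ρ : ℕ} (hρ : ρ % 4 = 2) {K : V → V → ℤ}
    (hP : PD V ρ S K) (s : V → ℝ)
    (hs : ∀ i, ∑ j, ((S i j : ℝ) ^ 2 + 2 * K i j) * s j = 0) : ∀ i, s i = 0 := by
  have hpos : 0 < ρ := by omega
  refine Pool.Agent.TH417.Nut.real_zero (R := V) (J := V)
    (fun i j => S i j ^ 2 + 2 * K i j) ?_ s (by intro i; rw [← hs i]; push_cast; rfl)
  intro y hy x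
  refine (ZMod.intCast_zmod_eq_zero_iff_dvd (y x) 2).1 ?_
  have h1 : ∀ i, ∑ j, (S i j : ZMod 2) * (y j : ZMod 2) = 0 := by
    intro i
    have h2 : ((∑ j, (S i j ^ 2 + 2 * K i j) * y j : ℤ) : ZMod 2) = 0 := by rw [hy i]; simp
    rw [Int.cast_sum] at h2
    rw [← h2]
    refine Finset.sum_congr rfl fun j _ => ?_
    rw [Int.cast_mul, even_sq S h.val K i j]
  obtain ⟨α, β, hab⟩ := h.hz (fun j => (y j : ZMod 2)) h1
  -- the sum of `y` vanishes
  have hsym : ∀ i j, S i j ^ 2 + 2 * K i j = S j i ^ 2 + 2 * K j i := by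
    intro i j
    rw [h.symm i j, hP.ks i j]
  have hsum : ∑ j, y j = 0 := by
    have e1 : ∑ i, ∑ j, (S i j ^ 2 + 2 * K i j) * y j = ρ * ∑ j, y j := by
      rw [Finset.sum_comm, Finset.mul_sum]
      refine Finset.sum_congr rfl fun j _ => ?_
      rw [← Finset.sum_mul, ← hP.deg j, Finset.sum_congr rfl fun i _ => hsym i j]
    rw [Finset.sum_eq_zero (fun i _ => hy i)] at e1
    have hρ' : (ρ : ℤ) ≠ 0 := by exact_mod_cast hpos.ne'
    rcases mul_eq_zero.1 e1.symm with h3 | h3
    · exact absurd h3 hρ'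
    · exact h3
  have hpar : α + β = 0 := by
    have e1 : ((∑ j, y j : ℤ) : ZMod 2) = 0 := by rw [hsum]; simp
    push_cast at e1
    rw [Finset.sum_congr rfl fun j _ => hab j, Finset.sum_add_distrib, ← Finset.mul_sum,
      Finset.sum_const, Finset.card_univ, h.card, nsmul_eq_mul] at e1
    have e2 : ((m : ℕ) : ZMod 2) = 1 := by
      have := cast1 (m : ℤ) (by have := h.hm; omega)
      exact_mod_cast this
    have e3 : ∑ j, (a j : ZMod 2) = 1 := by
      have := cast1 _ h.odd
      push_cast at this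
      exact this
    rw [e2, e3] at e1
    linear_combination e1
  rcases zmod_two_cases α with rfl | rfl
  · have hb : β = 0 := by linear_combination hpar
    rw [hab x, hb]
    ring
  · exfalso
    have hb : β = 1 := by
      rcases zmod_two_cases β with rfl | rfl
      · exact absurd hpar (by decide)
      · rfl
    have hw : ∃ w : V → ℤ, ∀ i, y i = (1 + a i) + 2 * w i := by
      have : ∀ i, ∃ c : ℤ, y i = (1 + a i) + 2 * c := fun i => odd_split (by
        rw [hab i, hb]
        push_cast
        ring)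
      choose w hw using this
      exact ⟨w, hw⟩
    obtain ⟨w, hw⟩ := hw
    -- the form
    set B : V → V → ℤ := fun i j => S i j ^ 2 + 2 * K i j with hB
    have hy' : ∀ i, ∑ j, B i j * y j = 0 := hy
    have q1 : ∑ i, y i * ∑ j, B i j * y j = 0 := by
      refine Finset.sum_eq_zero fun i _ => ?_
      rw [hy' i, mul_zero]
    have hBs : ∀ i j, B i j = B j i := hsym
    have swap : ∀ u v : V → ℤ, ∑ i, u i * ∑ j, B i j * v j = ∑ i, v i * ∑ j, B i j * u j := by
      intro u v
      simp only [Finset.mul_sum]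
      rw [Finset.sum_comm]
      refine Finset.sum_congr rfl fun j _ => Finset.sum_congr rfl fun i _ => ?_
      rw [hBs i j]
      ring
    have bil : ∀ u v : V → ℤ, ∑ i, (u i + v i) * ∑ j, B i j * (u j + v j) =
        ∑ i, u i * ∑ j, B i j * u j + 2 * ∑ i, u i * ∑ j, B i j * v j +
          ∑ i, v i * ∑ j, B i j * v j := by
      intro u v
      have e1 : ∀ i, ∑ j, B i j * (u j + v j) = ∑ j, B i j * u j + ∑ j, B i j * v j := by
        intro i
        rw [← Finset.sum_add_distrib]
        refine Finset.sum_congr rfl fun j _ => ?_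
        ring
      have e2 : ∑ i, (u i + v i) * ∑ j, B i j * (u j + v j) =
          ∑ i, u i * ∑ j, B i j * u j + ∑ i, u i * ∑ j, B i j * v j +
          (∑ i, v i * ∑ j, B i j * u j + ∑ i, v i * ∑ j, B i j * v j) := by
        rw [← Finset.sum_add_distrib, ← Finset.sum_add_distrib, ← Finset.sum_add_distrib]
        refine Finset.sum_congr rfl fun i _ => ?_
        rw [e1 i]
        ring
      rw [e2, swap v u]
      ring
    have q2 : ∑ i, y i * ∑ j, B i j * y j = ∑ i, (1 + a i) * ∑ j, B i j * (1 + a j) +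
        4 * (∑ i, (1 + a i) * ∑ j, B i j * w j + ∑ i, w i * ∑ j, B i j * w j) := by
      have e1 := bil (fun i => 1 + a i) (fun i => 2 * w i)
      have e2 : ∑ i, y i * ∑ j, B i j * y j =
          ∑ i, ((1 + a i) + 2 * w i) * ∑ j, B i j * ((1 + a j) + 2 * w j) := by
        refine Finset.sum_congr rfl fun i _ => ?_
        rw [hw i]
        congr 1
        refine Finset.sum_congr rfl fun j _ => ?_
        rw [hw j]
      have e3 : ∀ i, ∑ j, B i j * (2 * w j) = 2 * ∑ j, B i j * w j := by
        intro i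
        rw [Finset.mul_sum]
        refine Finset.sum_congr rfl fun j _ => ?_
        ring
      have e4 : ∑ i, (1 + a i) * ∑ j, B i j * (2 * w j) =
          2 * ∑ i, (1 + a i) * ∑ j, B i j * w j := by
        rw [Finset.mul_sum]
        refine Finset.sum_congr rfl fun i _ => ?_
        rw [e3 i]
        ring
      have e5 : ∑ i, (2 * w i) * ∑ j, B i j * (2 * w j) =
          4 * ∑ i, w i * ∑ j, B i j * w j := by
        rw [Finset.mul_sum]
        refine Finset.sum_congr rfl fun i _ => ?_
        rw [e3 i]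
        ring
      rw [e2, e1, e4, e5]
      ring
    have hdeg : ∀ i, ∑ j, B i j = ρ := hP.deg
    have q3 : ∑ i, (1 + a i) * ∑ j, B i j * (1 + a j) =
        ρ * m + 2 * (ρ * ∑ i, a i) + ∑ i, a i * ∑ j, B i j * a j := by
      have e1 := bil (fun _ => 1) a
      rw [e1]
      have e2 : ∑ i : V, (1 : ℤ) * ∑ j, B i j * 1 = ρ * m := by
        simp only [mul_one, one_mul, hdeg]
        rw [Finset.sum_const, Finset.card_univ, h.card, nsmul_eq_mul]
        ring
      have e3 : ∑ i : V, (1 : ℤ) * ∑ j, B i j * a j = ρ * ∑ i, a i := by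
        rw [swap (fun _ => 1) a]
        simp only [mul_one, hdeg]
        rw [Finset.mul_sum]
        refine Finset.sum_congr rfl fun i _ => ?_
        ring
      rw [e2, e3]
    -- the quadratic form at `a`
    set E : V → V → ℤ := fun i j => if i = j then 0 else
      (if S i j = -1 then 1 else 0) + K i j with hE
    obtain ⟨c, hc⟩ := even_form E (by
      intro i j
      simp only [hE]
      by_cases hij : i = j
      · rw [if_pos hij, if_pos hij.symm]
      · rw [if_neg hij, if_neg (fun h' : j = i => hij h'.symm), h.symm i j, hP.ks i j]) (by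
      intro i
      simp [hE]) a
    have q4 : ∑ i, a i * ∑ j, B i j * a j = 2 * ∑ i, a i * ∑ j, E i j * a j -
        2 * ∑ i, S i i * a i ^ 2 := by
      have e1 : ∀ i, ∑ j, B i j * a j = ∑ j, S i j * a j + 2 * ∑ j, E i j * a j -
          2 * (S i i * a i) := by
        intro i
        have e2 : ∀ j, B i j * a j = S i j * a j + 2 * (E i j * a j) -
            2 * (if i = j then S i j * a j else 0) := by
          intro j
          simp only [hB, hE]
          by_cases hij : i = j
          · subst hij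
            rw [if_pos rfl, if_pos rfl, hP.kd i]
            rcases h.val i i with e3 | e3 | e3
            · rw [e3]; ring
            · exact absurd e3 (h.diag i)
            · rw [e3]; ring
          · rw [if_neg hij, if_neg hij]
            rcases h.val i j with e3 | e3 | e3
            · rw [e3, if_neg (by norm_num)]; ring
            · rw [e3, if_neg (by norm_num)]; ring
            · rw [e3, if_pos rfl]; ring
        rw [Finset.sum_congr rfl fun j _ => e2 j, Finset.sum_sub_distrib, Finset.sum_add_distrib,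
          ← Finset.mul_sum, ← Finset.mul_sum, Finset.sum_ite_eq, if_pos (Finset.mem_univ _)]
      rw [Finset.mul_sum, Finset.mul_sum, ← Finset.sum_sub_distrib]
      refine Finset.sum_congr rfl fun i _ => ?_
      rw [e1 i, h.hSa i]
      ring
    have q5 : (∑ i, S i i * a i ^ 2) % 2 = 0 := by
      have e1 : ((∑ i, S i i * a i ^ 2 - ∑ i, S i i * a i : ℤ) : ZMod 2) = 0 := by
        rw [← Finset.sum_sub_distrib]
        push_cast
        refine Finset.sum_eq_zero fun i _ => ?_
        rcases zmod_two_cases (a i : ZMod 2) with e2 | e2 <;> rw [e2] <;> ring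
      have e2 := (ZMod.intCast_zmod_eq_zero_iff_dvd _ 2).1 e1
      have e3 := h.loop
      omega
    have hm := h.hm
    have r1 : ((ρ : ℤ) * m) % 4 = 2 := by
      obtain ⟨r, hr⟩ : ∃ r : ℕ, ρ = 4 * r + 2 := ⟨ρ / 4, by omega⟩
      obtain ⟨t, ht⟩ : ∃ t : ℕ, m = 2 * t + 1 := ⟨m / 2, by omega⟩
      have : (ρ : ℤ) * m = 2 + 4 * (2 * r * t + r + t) := by
        rw [hr, ht]
        push_cast
        ring
      omega
    have r2 : ∃ t : ℤ, 2 * ((ρ : ℤ) * ∑ i, a i) = 4 * t := by
      obtain ⟨r, hr⟩ : ∃ r : ℕ, ρ = 4 * r + 2 := ⟨ρ / 4, by omega⟩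
      refine ⟨(2 * r + 1) * ∑ i, a i, ?_⟩
      rw [hr]
      push_cast
      ring
    obtain ⟨t2, ht2⟩ := r2
    rw [q2, q3, q4] at q1
    omega

end

end Pool.Agent.J6H77.Nut
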