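import Pool.Agent.J6H77.Nut.ThreeStep

/-!
# Degree `2 mod 4`, order `2 mod 4`: every order at least `ρ + 8`
-/

set_option autoImplicit false

namespace Pool.Agent.J6H77.Nut

open Finset Pool.Agent.TH296.Nut Pool.Agent.J6H28.Nut

set_option maxRecDepth 20000 in
theorem has9 : HasC3 9 1 := by
  refine Chk3.has (m := 9) (p := 1) (S := [[-1, 1, 0, 0, 0, 0, -1, 1, 0],
    [1, -1, -1, 0, 1, 0, 0, 0, 0],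
    [0, -1, 0, 1, -1, 1, 0, 0, 0],
    [0, 0, 1, 0, 1, -1, -1, 0, 0],
    [0, 1, -1, 1, 0, -1, 1, 1, 0],
    [0, 0, 1, -1, -1, 0, 1, -1, 1],
    [-1, 0, 0, -1, 1, 1, -1, 0, -1],
    [1, 0, 0, 0, 1, -1, 0, 0, -1],
    [0, 0, 0, 0, 0, 1, -1, -1, -1]]) (Re := [[0, 0, 0, 0, 0, 0, 1, 0, 0],
    [0, 0, 0, 0, 1, 0, 0, 0, 0],
    [0, 0, 0, 0, 0, 1, 0, 0, 0],
    [0, 0, 0, 0, 0, 0, 1, 0, 0],
    [0, 1, 0, 0, 0, 0, 0, 1, 0],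
    [0, 0, 1, 0, 0, 0, 0, 0, 1],
    [1, 0, 0, 1, 0, 0, 0, 0, 0],
    [0, 0, 0, 0, 1, 0, 0, 0, 0],
    [0, 0, 0, 0, 0, 1, 0, 0, 0]]) (L := [[0, 0, 0, 0, 0, 0, 0, 0, 0],
    [1, 1, 1, 0, 0, 1, 0, 1, 0],
    [1, 1, 0, 1, 0, 1, 1, 0, 0],
    [0, 0, 0, 0, 0, 0, 0, 0, 0],
    [0, 1, 1, 1, 0, 0, 1, 1, 0],
    [1, 0, 1, 1, 0, 1, 1, 0, 0],
    [0, 0, 0, 0, 0, 0, 1, 1, 0],
    [0, 1, 1, 0, 0, 1, 1, 0, 0],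
    [1, 1, 0, 0, 0, 1, 0, 0, 0]])
    (a := [2, 2, 2, 1, 2, 3, 1, 1, 1]) (e := 0) (f := 1) (q0 := 3) (r0 := 0) ?_ (by norm_num) (by norm_num)
  decide +kernel

/-- For `ρ ≡ 2` modulo `4`, every `n ≡ 2` modulo `4` with `n ≥ ρ + 8` is the order of a
`ρ`-regular nut graph (`ρ ≥ 6`, `n ≥ 18`). -/
theorem three {ρ n : ℕ} (h1 : ρ % 4 = 2) (h2 : 6 ≤ ρ) (h3 : n % 4 = 2) (h4 : ρ + 8 ≤ n)
    (h5 : 18 ≤ n) : n ∈ nutOrders ρ := by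
  obtain ⟨k, rfl⟩ : ∃ k, ρ = 2 * k + 2 := ⟨(ρ - 2) / 2, by omega⟩
  obtain ⟨i, rfl⟩ : ∃ i, n = 2 * (9 + 2 * i) := ⟨(n - 18) / 4, by omega⟩
  obtain ⟨V, _, _, S, Re, pos, a, e, f, h⟩ := has9.steps i
  exact h.mem (by omega) (by omega) (by omega)

end Pool.Agent.J6H77.Nut
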