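import Pool.Agent.J6H77.Nut.Three
import Pool.Agent.J6H77.Nut.Cert

/-!
# Degree `2 mod 4`, order `2 mod 4`: insertion and the base core
-/

set_option autoImplicit false
set_option linter.unusedSectionVars false

namespace Pool.Agent.J6H77.Nut

open Finset Pool.Agent.TH296.Nut Pool.Agent.J6H28.Nut

section

variable {V : Type} [Fintype V] [DecidableEq V] {m p : ℕ}
  {S Re : V → V → ℤ} {pos : V → ℕ} {a : V → ℤ} {e f : V}

theorem C3.mem (h : C3 m p V S Re pos a e f) {k : ℕ} (hk0 : k % 2 = 0) (hk : 2 ≤ k)
    (hm : k + 5 ≤ m) : 2 * m ∈ nutOrders (2 * k + 2) := by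
  have hm1 := h.hm
  have h9 := h.m9
  have hpe := h.pe
  have hpf := h.pf
  set B : V → V → ℤ := fun i j => if blk m k (pos i) (pos j) then 1 else 0 with hB
  have nb : ∀ i j, rel m p 0 2 (pos i) (pos j) → B i j = 0 := by
    intro i j hr
    have hi := h.lt i
    have hj := h.lt j
    simp only [hB]
    rw [if_neg]
    refine nblk hi hj hm (by omega) (by omega) ?_
    unfold rel at hr
    omega
  have rb : ∀ i j, Re i j ≠ 0 → B i j = 1 := by
    intro i j hr
    have h1 := h.rem i j hr
    simp only [hB]
    rw [if_pos]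
    refine iblk hk ?_
    unfold rel at h1
    omega
  have hBs : ∀ i j, B i j = B j i := by
    intro i j
    simp only [hB]
    by_cases hb : blk m k (pos i) (pos j)
    · rw [if_pos hb, if_pos ((blk_symm _ _ _ _).1 hb)]
    · rw [if_neg hb, if_neg (fun hb2 => hb ((blk_symm _ _ _ _).1 hb2))]
  have nef : B e f = 0 := by
    simp only [hB]
    rw [if_neg]
    have h1 := h.lt e
    have h2 := h.lt f
    refine nblk h1 h2 hm (by omega) (by omega) ?_
    omega
  have hBv : ∀ i j, B i j = 0 ∨ B i j = 1 := by
    intro i j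
    simp only [hB]
    split_ifs <;> simp
  set K : V → V → ℤ := fun i j => B i j - Re i j with hK
  have hKv : ∀ i j, (Re i j = 1 ∧ K i j = 0) ∨ (Re i j = 0 ∧ K i j = B i j) := by
    intro i j
    rcases h.rv i j with e1 | e1
    · right
      refine ⟨e1, ?_⟩
      simp only [hK]
      rw [e1]
      ring
    · left
      refine ⟨e1, ?_⟩
      simp only [hK]
      rw [e1, rb i j (by rw [e1]; norm_num)]
      ring
  have hP : PD V (2 * k + 2) S K := by
    refine ⟨h.val, h.symm, h.diag, ?_, ?_, ?_, ?_, ?_⟩
    · intro i j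
      rcases hKv i j with e1 | e1
      · exact Or.inl e1.2
      · rw [e1.2]
        exact hBv i j
    · intro i j
      simp only [hK]
      rw [hBs i j, h.rsymm i j]
    · intro i
      have h0 : B i i = 0 := nb i i (by unfold rel; left; omega)
      rcases hKv i i with e1 | e1
      · exact e1.2
      · rw [e1.2, h0]
    · intro i j hij
      by_contra hS
      apply hij
      rcases hKv i j with e1 | e1
      · exact e1.2
      · rw [e1.2]
        rcases h.near i j hS with hb | hb | hb | hb
        · exact nb i j hb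
        · rw [e1.1] at hb
          exact absurd hb (by norm_num)
        · rw [hb.1, hb.2]; exact nef
        · rw [hb.1, hb.2, hBs]; exact nef
    · intro i
      have e1 : ∑ j, B i j = (((range m).filter (fun j => blk m k (pos i) j)).card : ℤ) := by
        rw [← card_pos pos h.card h.inj h.lt]
        simp only [hB]
        rw [Finset.sum_boole]
      have e2 : ∑ j, (S i j ^ 2 + 2 * K i j) = ∑ j, (S i j ^ 2 - 2 * Re i j) + 2 * ∑ j, B i j := by
        rw [Finset.mul_sum, ← Finset.sum_add_distrib]
        refine Finset.sum_congr rfl fun j _ => ?_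
        simp only [hK]
        ring
      rw [e2, h.row i, e1, card_blk (h.lt i) hm (by omega), if_neg (by omega)]
      push_cast
      ring
  have hcard : 2 ≤ Fintype.card (V × Bool) := by
    rw [card_db, h.card]
    omega
  have hρ : (2 * k + 2) % 4 = 2 := by omega
  have := (hP.nw (fun i => (a i : ℝ)) (fun i => by exact_mod_cast h.anz i)
    (fun i => by exact_mod_cast h.hSa i) h.line (h.nons hρ hP)).mem hcard
  rw [card_db, h.card] at this
  exact this

theorem C3.step (h : C3 m p V S Re pos a e f) :
    C3 (m + 2) p (V ⊕ Fin 2) (in2 S e f) (xz Re) (nps 2 p pos) (ex2 e f a) (.inl e) (.inr 0) := by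
  have hm1 := h.hm
  have h9 := h.m9
  have hpe := h.pe
  have hpf := h.pf
  have hef : e ≠ f := by
    rintro rfl
    omega
  have hrel : ∀ lo hi i j, rel m p lo hi (pos i) (pos j) →
      rel (m + 2) p lo hi (nps 2 p pos (.inl i)) (nps 2 p pos (.inl j)) := by
    intro lo hi i j hr
    simp only [nps]
    unfold rel at *
    split_ifs <;> omega
  have hneg : ∀ x : ZMod 2, -x = x := fun x => ZMod.neg_eq_self_mod_two x
  refine ⟨?_, by omega, by omega, nps_inj h.inj, nps_lt h.lt ?_, in2_val S h.val e f, xz_or h.rv,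
    in2_symm S h.symm e f, xz_symm h.rsymm, ?_, ?_, ?_, ?_, ?_, ?_, ?_, ?_, ?_, ?_, ?_, ?_, ?_,
    ?_⟩
  · rw [Fintype.card_sum, h.card, Fintype.card_fin]
  · have := h.lt f
    omega
  · intro x
    rcases x with i | t <;> simp only [in2]
    · split_ifs
      · norm_num
      · exact h.diag i
    · norm_num
  · -- row
    intro x
    rw [Finset.sum_sub_distrib, ← Finset.mul_sum]
    rcases x with i | t
    · rw [in2_sq S h.symm e f hef h.Sef i]
      have e2 : ∑ r, xz (d := 2) Re (.inl i) r = ∑ j, Re i j := by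
        have := xz_row (R := ℤ) (d := 2) Re i (fun _ => 1)
        simpa using this
      have e3 := h.row i
      rw [Finset.sum_sub_distrib, ← Finset.mul_sum] at e3
      rw [e2]
      exact e3
    · have e2 : ∑ r, xz (d := 2) Re (.inr t) r = 0 := by
        refine Finset.sum_eq_zero fun r _ => ?_
        rcases r with j | s <;> simp [xz]
      rw [e2, Fintype.sum_sum_type, Fin.sum_univ_two]
      fin_cases t
      · have e1' : ∀ i, in2 S e f (.inr 0) (.inl i) ^ 2 = if i = e then 1 else 0 := by
          intro i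
          simp only [in2]
          by_cases i1 : i = e <;> simp [i1]
        simp only [Fin.zero_eta, Fin.isValue]
        rw [Finset.sum_congr rfl fun i _ => e1' i]
        simp [in2]
      · have e1' : ∀ i, in2 S e f (.inr 1) (.inl i) ^ 2 = if i = f then 1 else 0 := by
          intro i
          simp only [in2]
          by_cases i1 : i = f <;> simp [i1]
        simp only [Fin.mk_one, Fin.isValue]
        rw [Finset.sum_congr rfl fun i _ => e1' i]
        simp [in2]
  · -- near
    intro x y hxy
    rcases x with i | s <;> rcases y with j | t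
    · simp only [in2] at hxy
      split_ifs at hxy with h1
      · exact absurd rfl hxy
      · rcases h.near i j hxy with h3 | h3 | h3 | h3
        · exact Or.inl (hrel _ _ _ _ h3)
        · exact Or.inr (Or.inl h3)
        · exact absurd (Or.inl h3) h1
        · exact absurd (Or.inr h3) h1
    · simp only [in2] at hxy
      split_ifs at hxy with h1 h3
      · right; right; left
        exact ⟨by rw [h1.1], by rw [h1.2]⟩
      · left
        rw [h3.1, h3.2]
        unfold rel
        simp only [nps, hpf]
        rw [if_neg (by omega)]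
        left
        constructor
        · constructor <;> intro h4 <;> omega
        · right
          simp
      · exact absurd rfl hxy
    · simp only [in2] at hxy
      split_ifs at hxy with h1 h3
      · right; right; right
        exact ⟨by rw [h1.2], by rw [h1.1]⟩
      · left
        rw [h3.1, h3.2]
        unfold rel
        simp only [nps, hpf]
        rw [if_neg (by omega)]
        left
        constructor
        · constructor <;> intro h4 <;> omega
        · left
          simp
      · exact absurd rfl hxy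
    · left
      unfold rel
      simp only [nps]
      left
      have h1 := s.2
      have h3 := t.2
      constructor
      · constructor <;> intro h4 <;> omega
      · omega
  · intro x y hxy
    rcases x with i | s <;> rcases y with j | t <;> simp only [xz] at hxy
    · exact hrel _ _ _ _ (h.rem i j hxy)
    · exact absurd rfl hxy
    · exact absurd rfl hxy
    · exact absurd rfl hxy
  · simp only [nps]
    rw [if_pos (by omega)]
    exact hpe
  · simp [nps]
  · simp [in2]
  · intro x
    rcases x with i | t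
    · exact h.anz i
    · fin_cases t
      · simp [ex2, h.anz f]
      · simp [ex2, h.anz e]
  · intro x
    have := ex2_row (R := ℤ) S h.symm e f hef h.Sef a x
    simp only [Int.cast_id] at this
    rw [this]
    rcases x with i | t
    · exact h.hSa i
    · rfl
  · simp only [ex2, if_true]
    exact h.par
  · rw [Fintype.sum_sum_type, Fin.sum_univ_two]
    simp only [ex2, if_true]
    rw [if_neg (by decide)]
    have h1 := h.par
    have h2 := h.odd
    omega
  · -- tot
    have e0 : ∀ i, ∑ q, in2 S e f (.inl i) q = ∑ j, S i j + (if i = f then -2 else 0) := by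
      intro i
      have := in2_inl (R := ℤ) S h.symm e f hef h.Sef (fun _ => 1) i
      simp only [Int.cast_id, mul_one, sub_self, ite_self, add_zero] at this
      rw [this]
      norm_num
    have e1 : ∑ q, in2 S e f (.inr 0) q = 2 := by
      have := in2_inr0 (R := ℤ) S e f (fun _ => 1)
      simp only [Int.cast_id, mul_one] at this
      rw [this]
      norm_num
    have e2 : ∑ q, in2 S e f (.inr 1) q = 0 := by
      have := in2_inr1 (R := ℤ) S e f (fun _ => 1)
      simp only [Int.cast_id, mul_one] at this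
      rw [this]
      norm_num
    rw [Fintype.sum_sum_type, Fin.sum_univ_two, e1, e2, Finset.sum_congr rfl fun i _ => e0 i,
      Finset.sum_add_distrib, Finset.sum_ite_eq', if_pos (Finset.mem_univ _)]
    have := h.tot
    omega
  · -- loop
    rw [Fintype.sum_sum_type, Fin.sum_univ_two]
    have e0 : ∀ i, in2 S e f (.inl i) (.inl i) * ex2 e f a (.inl i) = S i i * a i := by
      intro i
      simp only [in2, ex2]
      rw [if_neg]
      rintro (⟨h1, h2⟩ | ⟨h1, h2⟩)
      · exact hef (h1 ▸ h2)
      · exact hef (h2 ▸ h1)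
    rw [Finset.sum_congr rfl fun i _ => e0 i]
    simp only [in2, if_true, zero_mul, add_zero]
    exact h.loop
  · -- hz
    intro v hv
    have r0 := hv (.inr 0)
    have r1 := hv (.inr 1)
    rw [in2_inr0] at r0
    rw [in2_inr1] at r1
    have q0 : v (.inr 0) = v (.inl f) := by linear_combination r1
    have q1 : v (.inr 1) = - v (.inl e) := by linear_combination r0
    have k1 : ∀ i, ∑ j, (S i j : ZMod 2) * v (.inl j) = 0 := by
      intro i
      have := hv (.inl i)
      rw [in2_inl S h.symm e f hef h.Sef, q0, q1] at this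
      simpa using this
    obtain ⟨α, β, hab⟩ := h.hz (fun j => v (.inl j)) k1
    have hab' : ∀ j, v (.inl j) = α + β * a j := hab
    refine ⟨α, β, ?_⟩
    intro x
    rcases x with i | t
    · exact hab' i
    · fin_cases t
      · simp only [Fin.zero_eta, Fin.isValue, ex2, if_true]
        rw [q0, hab' f]
      · simp only [Fin.mk_one, Fin.isValue, ex2]
        rw [if_neg (by decide), q1, hab' e]
        push_cast
        rw [hneg (α + β * (a e : ZMod 2)), hneg (a e : ZMod 2)]

end

/-- existence of a core -/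
def HasC3 (m p : ℕ) : Prop :=
  ∃ (V : Type) (_ : Fintype V) (_ : DecidableEq V) (S Re : V → V → ℤ) (pos : V → ℕ)
    (a : V → ℤ) (e f : V), C3 m p V S Re pos a e f

theorem HasC3.steps {m p : ℕ} (h : HasC3 m p) (i : ℕ) : HasC3 (m + 2 * i) p := by
  induction i with
  | zero => exact h
  | succ i ih =>
    obtain ⟨V, _, _, S, Re, pos, a, e, f, h⟩ := ih
    exact ⟨_, _, _, _, _, _, _, _, _, h.step⟩

/-- decidable form of the conditions -/
def Chk3 (m p : ℕ) (S Re L : List (List ℤ)) (a : List ℤ) (e f q0 r0 : Fin m) : Prop :=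
  (∀ i j : Fin m, ent S i j = 0 ∨ ent S i j = 1 ∨ ent S i j = -1) ∧
  (∀ i j : Fin m, ent Re i j = 0 ∨ ent Re i j = 1) ∧
  (∀ i j : Fin m, ent S i j = ent S j i) ∧
  (∀ i j : Fin m, ent Re i j = ent Re j i) ∧
  (∀ i : Fin m, ent S i i ≠ 1) ∧
  (∀ i : Fin m, ∑ j : Fin m, (ent S i j ^ 2 - 2 * ent Re i j) = 2) ∧
  (∀ i j : Fin m, ent S i j ≠ 0 → rel m p 0 2 i j ∨ ent Re i j = 1 ∨ (i = e ∧ j = f) ∨
    (i = f ∧ j = e)) ∧
  (∀ i j : Fin m, ent Re i j ≠ 0 → rel m p 3 3 i j) ∧
  (e.val + 1 = p) ∧ (f.val = p) ∧ (ent S e f = 1) ∧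
  (∀ i : Fin m, a.getD i 0 ≠ 0) ∧
  (∀ i : Fin m, ∑ j : Fin m, ent S i j * a.getD j 0 = 0) ∧
  ((a.getD e 0 - a.getD f 0) % 2 = 0) ∧
  ((∑ i : Fin m, a.getD i 0) % 2 = 1) ∧
  ((∑ i : Fin m, ∑ j : Fin m, ent S i j) % 4 = 2) ∧
  ((∑ i : Fin m, ent S i i * a.getD i 0) % 2 = 0) ∧
  (∀ j u : Fin m, (∑ i : Fin m, ent L j i * ent S i u + dl j u +
    (1 + a.getD j 0) * dl u r0 + a.getD j 0 * dl u q0) % 2 = 0)

instance (m p : ℕ) (S Re L : List (List ℤ)) (a : List ℤ) (e f q0 r0 : Fin m) :
    Decidable (Chk3 m p S Re L a e f q0 r0) := by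
  unfold Chk3 dl; infer_instance

theorem Chk3.has {m p : ℕ} {S Re L : List (List ℤ)} {a : List ℤ} {e f q0 r0 : Fin m}
    (h : Chk3 m p S Re L a e f q0 r0) (hm : m % 2 = 1) (h9 : 9 ≤ m) : HasC3 m p := by
  obtain ⟨c1, c2, c3, c4, c5, c6, c7, c8, c9, c10, c11, c12, c13, c14, c15, c16, c17, c18⟩ := h
  refine ⟨Fin m, inferInstance, inferInstance, fun i j => ent S i j, fun i j => ent Re i j,
    fun i => i.val, fun i => a.getD i 0, e, f, ?_⟩
  refine ⟨Fintype.card_fin m, hm, h9, Fin.val_injective, fun v => v.2, c1, c2, c3, c4, c5, c6, c7,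
    c8, c9, c10, c11, c12, c13, c14, c15, c16, c17, ?_⟩
  intro v hv
  refine ⟨v r0, v r0 + v q0, ?_⟩
  intro j
  have h1 : ∑ u : Fin m, ((∑ i : Fin m, ent L j i * ent S i u + dl j u +
      (1 + a.getD j 0) * dl u r0 + a.getD j 0 * dl u q0 : ℤ) : ZMod 2) * v u = 0 :=
    Finset.sum_eq_zero fun u _ => by rw [cast0 _ (c18 j u), zero_mul]
  have h3 : ∀ u : Fin m, ((∑ i : Fin m, ent L j i * ent S i u + dl j u +
      (1 + a.getD j 0) * dl u r0 + a.getD j 0 * dl u q0 : ℤ) : ZMod 2) * v u =
      ∑ i : Fin m, (ent L j i : ZMod 2) * ((ent S i u : ZMod 2) * v u) +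
      ((dl j u : ℤ) : ZMod 2) * v u +
      (1 + (a.getD j 0 : ℤ) : ZMod 2) * (((dl u r0 : ℤ) : ZMod 2) * v u) +
      ((a.getD j 0 : ℤ) : ZMod 2) * (((dl u q0 : ℤ) : ZMod 2) * v u) := by
    intro u
    push_cast
    rw [add_mul, add_mul, add_mul, Finset.sum_mul]
    congr 1
    · congr 1
      · congr 1
        refine Finset.sum_congr rfl fun i _ => ?_
        ring
      · ring
    · ring
  rw [Finset.sum_congr rfl fun u _ => h3 u, Finset.sum_add_distrib, Finset.sum_add_distrib,
    Finset.sum_add_distrib, ← Finset.mul_sum, ← Finset.mul_sum, sum_dl', sum_dl, sum_dl,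
    Finset.sum_comm] at h1
  have h4 : ∑ i : Fin m, ∑ u : Fin m, (ent L j i : ZMod 2) * ((ent S i u : ZMod 2) * v u) = 0 := by
    refine Finset.sum_eq_zero fun i _ => ?_
    rw [← Finset.mul_sum, hv i, mul_zero]
  rw [h4] at h1
  have c2' : (2 : ZMod 2) = 0 := by decide
  linear_combination h1 - c2' * (v r0 + ((a.getD j 0 : ℤ) : ZMod 2) * v r0 +
    ((a.getD j 0 : ℤ) : ZMod 2) * v q0)

end Pool.Agent.J6H77.Nut
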